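import Pool.Agent.Lib.MP_4d044e_co.CF.Stmt

/-!
# MP_4d044e_co: an upper bound for the coefficient of fragmentability: definition of the statement
-/

namespace Pool.Agent.Lib.MP4d044e

/-- The class of the graphs of maximum degree at most `d`. -/
def ClassMD (d : ℕ) (n : ℕ) (G : SimpleGraph (Fin n)) : Prop :=
  ∀ v : Fin n, (G.neighborSet v).ncard ≤ d

end Pool.Agent.Lib.MP4d044e
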