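import Pool.Agent.Lib.MP_4d044e_co.UB.Spec

/-!
# MP_4d044e_co, upper bound: module COR
-/

open Classical Finset

namespace Pool.Agent.Lib.MP4d044e.UB

namespace CORM

variable {V : Type} {G : SimpleGraph V} {d B : ℕ} {R : Finset V}

theorem cc_big {a : V} (h : a ∈ CC G d B R) : a ∈ Big G d B R := (Finset.mem_filter.1 h).1

theorem big_mem {a : V} (h : a ∈ Big G d B R) : a ∈ R := (Finset.mem_filter.1 h).1

theorem mem_ST {S Q : Finset V} :
    Q ∈ ST G B S ↔ IsC G S Q ∧ Q.card ≤ B ∧ ee G Q Q + 2 = 2 * Q.card := by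
  unfold ST
  rw [Finset.mem_filter, Finset.mem_powerset]
  constructor
  · rintro ⟨_, h⟩
    exact h
  · intro h
    exact ⟨h.1.2.1, h⟩

end CORM

open CORM in
theorem specCOR (hCNC : SpecCNC) (hMXK : SpecMXK) (hHNG : SpecHNG) (hROO : SpecROO) : SpecCOR := by
  intro V _ G d B R hd hB hdeg hR
  obtain ⟨_, _, _, r4⟩ := hROO V G d B R hd hB hdeg
  have hM := ((hMXK V G B).2 R hR).2
  have key : ∀ a ∈ CC G d B R, nb G R a ≤ 3 + (Sh G B R a).card ∧
      (Sh G B R a).card ≤ nb G (hg G B R a) a := by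
    intro a ha
    obtain ⟨_, _, _, _, _, _, h7, _, h9⟩ := hHNG V G d B R hd hB hdeg a (cc_big ha)
    exact ⟨hM a (big_mem (cc_big ha)) h9, h7⟩
  refine ⟨?_, ?_⟩
  · intro a ha
    have h1 := key a ha
    have h2 := r4 a ha
    omega
  · intro a ha
    obtain ⟨haC, ha3⟩ := Finset.mem_filter.1 ha
    have h1 := key a haC
    have h2 := r4 a haC
    have e1 : nb G R a = 3 + (Sh G B R a).card := by omega
    have e2 : nb G (hg G B R a) a = (Sh G B R a).card := by omega
    refine ⟨e1, e2, ?_⟩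
    by_cases hS : Sh G B R a = ∅
    · refine ⟨a, Finset.mem_insert_self _ _, ?_⟩
      rw [e1, hS]
      simp
    · obtain ⟨Y, hY⟩ := Finset.nonempty_iff_ne_empty.2 hS
      have hY1 := (Finset.mem_filter.1 hY).1
      have hY2 := mem_ST.1 hY1
      obtain ⟨v, hv, hv1⟩ := (hCNC V G Y hY2.1.1).2.2.2 hY2.2.2
      refine ⟨v, ?_, ?_⟩
      · refine Finset.mem_insert_of_mem ?_
        unfold hg
        exact Finset.mem_biUnion.2 ⟨Y, hY, hv⟩
      · have h3 : (R.filter fun w => G.Adj v w) ⊆ insert a (Y.filter fun w => G.Adj v w) := by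
          intro w hw
          obtain ⟨hwR, hvw⟩ := Finset.mem_filter.1 hw
          by_cases hwa : w = a
          · exact Finset.mem_insert.2 (Or.inl hwa)
          · refine Finset.mem_insert_of_mem (Finset.mem_filter.2 ⟨?_, hvw⟩)
            exact hY2.1.2.2 v hv w (Finset.mem_erase.2 ⟨hwa, hwR⟩) hvw
        have h4 := Finset.card_le_card h3
        have h5 := Finset.card_insert_le a (Y.filter fun w => G.Adj v w)
        unfold nb at hv1 ⊢
        omega

end Pool.Agent.Lib.MP4d044e.UB
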