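import Pool.Agent.Lib.MP_4d044e_co.UB.Spec

section
/-!
# MP_4d044e_co, upper bound: module CUK (cutting a part)
-/
open Classical Finset

namespace Pool.Agent.Lib.MP4d044e.UB

namespace CUKM

variable {V : Type} (G : SimpleGraph V) (U : Finset V)

theorem nb_pos (A : Finset V) (a x : V) (hx : x ∈ A) (hax : G.Adj a x) : 1 ≤ nb G A a := by
  unfold nb
  exact Finset.card_pos.2 ⟨x, Finset.mem_filter.2 ⟨hx, hax⟩⟩

/-- Removing a vertex with a neighbour in `O` lowers the number of edges to `O`. -/
theorem ee_erase (A O : Finset V) (z w : V) (hz : z ∈ A) (hw : w ∈ O) (hzw : G.Adj z w) :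
    ee G (A.erase z) O + 1 ≤ ee G A O := by
  unfold ee
  rw [← Finset.add_sum_erase A (fun v => nb G O v) hz]
  have := nb_pos G O z w hw hzw
  omega

/-- (1a): few edges after the deletion of at most `k` vertices. -/
theorem few (hEEB : SpecEEB) (P O : Finset V) (k : ℕ) (h : ee G P O ≤ k + 1) :
    ∃ X ⊆ P, X.card ≤ k ∧ ee G (P \ X) O ≤ 1 := by
  induction k generalizing P with
  | zero => exact ⟨∅, Finset.empty_subset _, by simp, by simpa using h⟩
  | succ k ih =>
    by_cases h1 : ee G P O ≤ k + 1
    · obtain ⟨X, hX, hc, he⟩ := ih P h1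
      exact ⟨X, hX, by omega, he⟩
    · have h0 : ee G P O ≠ 0 := by omega
      rw [Ne, (hEEB V G).2.2.2.2.2.2.2.1] at h0
      push Not at h0
      obtain ⟨z, hz, w, hw, hzw⟩ := h0
      have h2 := ee_erase G P O z w hz hw hzw
      obtain ⟨X, hX, hc, he⟩ := ih (P.erase z) (by omega)
      refine ⟨insert z X, Finset.insert_subset hz (hX.trans (Finset.erase_subset z P)), ?_, ?_⟩
      · exact (Finset.card_insert_le z X).trans (by omega)
      · have : P \ insert z X = P.erase z \ X := by
          ext v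
          simp only [Finset.mem_sdiff, Finset.mem_insert, Finset.mem_erase]
          tauto
        rw [this]
        exact he

/-- A set with two different edges to `O` has `ee ≥ 2`. -/
theorem uniq_edge (A O : Finset V) (h : ee G A O ≤ 1) {z w z' w' : V} (hz : z ∈ A) (hw : w ∈ O)
    (hzw : G.Adj z w) (hz' : z' ∈ A) (hw' : w' ∈ O) (hzw' : G.Adj z' w') : z = z' ∧ w = w' := by
  by_cases he : z = z'
  · subst he
    refine ⟨rfl, ?_⟩
    by_contra hne
    have h1 : 2 ≤ nb G O z := by
      unfold nb
      have : ({w, w'} : Finset V) ⊆ O.filter fun x => G.Adj z x := by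
        intro x hx
        rw [Finset.mem_insert, Finset.mem_singleton] at hx
        rcases hx with rfl | rfl
        · exact Finset.mem_filter.2 ⟨hw, hzw⟩
        · exact Finset.mem_filter.2 ⟨hw', hzw'⟩
      have h6 := Finset.card_le_card this
      rwa [Finset.card_pair hne] at h6
    have h2 : nb G O z ≤ ee G A O := by
      unfold ee
      exact Finset.single_le_sum (f := fun v => nb G O v) (fun _ _ => Nat.zero_le _) hz
    omega
  · exfalso
    have h1 := ee_erase G A O z w hz hw hzw
    have h2 : nb G O z' ≤ ee G (A.erase z) O := by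
      unfold ee
      exact Finset.single_le_sum (f := fun v => nb G O v) (fun _ _ => Nat.zero_le _)
        (Finset.mem_erase.2 ⟨fun h => he h.symm, hz'⟩)
    have h3 := nb_pos G O z' w' hw' hzw'
    omega

theorem cut_of_few (P X : Finset V) (hX : X ⊆ P) (he : ee G (P \ X) (U \ P) ≤ 1) :
    ∃ g, Cut G U P X g := by
  by_cases h : ∃ z ∈ P \ X, ∃ w ∈ U \ P, G.Adj z w
  · obtain ⟨z, hz, w, hw, hzw⟩ := h
    refine ⟨fun _ => some w, ⟨hX, fun _ _ _ _ _ _ _ => rfl, ?_, ?_⟩⟩
    · intro z' hz' hzX' w' hw' hwP' hzw'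
      have := (uniq_edge G (P \ X) (U \ P) he hz hw hzw (Finset.mem_sdiff.2 ⟨hz', hzX'⟩)
        (Finset.mem_sdiff.2 ⟨hw', hwP'⟩) hzw').2
      rw [this]
    · intro z' _ _ w' hw'
      have := Option.some.inj hw'
      subst this
      exact Finset.mem_sdiff.1 hw
  · push Not at h
    refine ⟨fun _ => none, ⟨hX, fun _ _ _ _ _ _ _ => rfl, ?_, ?_⟩⟩
    · intro z' hz' hzX' w' hw' hwP' hzw'
      exact absurd hzw' (h z' (Finset.mem_sdiff.2 ⟨hz', hzX'⟩) w' (Finset.mem_sdiff.2 ⟨hw', hwP'⟩))
    · intro z' _ _ w' hw'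
      exact absurd hw' (by simp)

end CUKM

open CUKM in
theorem specCUK (hEEB : SpecEEB) : SpecCUK := by
  intro V G U
  obtain ⟨-, -, hcomm, hadd, -, -, -, hzero, -, -⟩ := hEEB V G
  refine ⟨?_, ?_, ?_, ?_⟩
  · intro P k _ hk
    obtain ⟨X, hX, hc, he⟩ := few G hEEB P (U \ P) k hk
    obtain ⟨g, hg⟩ := cut_of_few G U P X hX he
    exact ⟨X, g, hc, hg⟩
  · intro P _
    refine ⟨P.filter fun z => ∃ w ∈ U \ P, G.Adj z w, ?_, ⟨Finset.filter_subset _ _,
      fun _ _ _ _ _ _ _ => rfl, ?_, fun _ _ _ _ h => absurd h (by simp)⟩⟩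
    · rw [Finset.card_filter]
      unfold dd ee
      refine Finset.sum_le_sum fun z _ => ?_
      by_cases h : ∃ w ∈ U \ P, G.Adj z w
      · rw [if_pos h]
        obtain ⟨w, hw, hzw⟩ := h
        exact nb_pos G _ z w hw hzw
      · rw [if_neg h]
        exact Nat.zero_le _
    · intro z hz hzX w hw hwP hzw
      exact absurd (Finset.mem_filter.2 ⟨hz, w, Finset.mem_sdiff.2 ⟨hw, hwP⟩, hzw⟩) hzX
  · rintro P U' hPU' hU'U ⟨X, g, hc, hcut⟩
    refine ⟨X, fun z => match g z with
      | none => none
      | some w => if w ∈ U' then some w else none, hc, ⟨hcut.sub, ?_, ?_, ?_⟩⟩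
    · intro z hz hzX w hw hwX hzw
      simp only [hcut.con z hz hzX w hw hwX hzw]
    · intro z hz hzX w hw hwP hzw
      simp only [hcut.out z hz hzX w (hU'U hw) hwP hzw, if_pos hw]
    · intro z hz hzX w hw
      cases hg : g z with
      | none =>
        simp only [hg] at hw
        exact absurd hw (by simp)
      | some y =>
        simp only [hg] at hw
        by_cases hy : y ∈ U'
        · rw [if_pos hy] at hw
          have := Option.some.inj hw
          subst this
          exact ⟨hy, (hcut.mem z hz hzX y hg).2⟩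
        · rw [if_neg hy] at hw
          exact absurd hw (by simp)
  · rintro s x hsU hxU hd hs2 hsx ⟨X, g, hc, hcut⟩
    -- the two edges of `s`
    have hsplit : U \ s = x ∪ (U \ (s ∪ x)) := by
      ext v
      have h1 := @hxU v
      have h2 : v ∈ s → v ∈ x → False := fun h h' => Finset.disjoint_left.1 hd h h'
      simp only [Finset.mem_sdiff, Finset.mem_union]
      tauto
    have hdj : Disjoint x (U \ (s ∪ x)) := by
      rw [Finset.disjoint_left]
      intro v hv hv'
      exact (Finset.mem_sdiff.1 hv').2 (Finset.mem_union_right _ hv)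
    have hout1 : ee G s (U \ (s ∪ x)) = 1 := by
      have : ee G s (U \ s) = ee G s x + ee G s (U \ (s ∪ x)) := by
        rw [hsplit]
        exact (hadd x _ s hdj).2
      unfold dd at hs2
      omega
    have hex : ∃ z ∈ s, ∃ w ∈ U \ (s ∪ x), G.Adj z w := by
      by_contra hc
      push Not at hc
      have := (hzero s (U \ (s ∪ x))).2 hc
      omega
    obtain ⟨z0, hz0, z1, hz1, hz01⟩ := hex
    have hz1' := hz1
    rw [Finset.mem_sdiff, Finset.mem_union] at hz1'
    refine ⟨X, fun z => if z ∈ s then some z1 else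
      match g z with
      | none => none
      | some w => if w ∈ s then some z1 else some w, hc, ⟨hcut.sub.trans Finset.subset_union_right, ?_, ?_, ?_⟩⟩
    · -- constant along edges
      have hmix : ∀ z ∈ s, ∀ w ∈ x, w ∉ X → G.Adj z w →
          (match g w with
            | none => none
            | some w' => if w' ∈ s then some z1 else some w') = some z1 := by
        intro z hz w hw hwX hzw
        have h1 : g w = some z := hcut.out w hw hwX z (hsU hz)
          (fun h => Finset.disjoint_left.1 hd hz h) hzw.symm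
        simp only [h1, if_pos hz]
      intro z hz hzX w hw hwX hzw
      by_cases hzs : z ∈ s <;> by_cases hws : w ∈ s
      · simp only [if_pos hzs, if_pos hws]
      · have hwx : w ∈ x := (Finset.mem_union.1 hw).resolve_left hws
        simp only [if_pos hzs, if_neg hws]
        exact (hmix z hzs w hwx hwX hzw).symm
      · have hzx : z ∈ x := (Finset.mem_union.1 hz).resolve_left hzs
        simp only [if_pos hws, if_neg hzs]
        exact hmix w hws z hzx hzX hzw.symm
      · have hzx : z ∈ x := (Finset.mem_union.1 hz).resolve_left hzs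
        have hwx : w ∈ x := (Finset.mem_union.1 hw).resolve_left hws
        simp only [if_neg hzs, if_neg hws]
        rw [hcut.con z hzx hzX w hwx hwX hzw]
    · intro z hz hzX w hw hwP hzw
      rw [Finset.mem_union, not_or] at hwP
      by_cases hzs : z ∈ s
      · simp only [if_pos hzs]
        have := (uniq_edge G s (U \ (s ∪ x)) (by omega) hz0 hz1 hz01 hzs
          (Finset.mem_sdiff.2 ⟨hw, by rw [Finset.mem_union, not_or]; exact hwP⟩) hzw).2
        rw [this]
      · have hzx : z ∈ x := (Finset.mem_union.1 hz).resolve_left hzs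
        simp only [if_neg hzs]
        rw [hcut.out z hzx hzX w hw hwP.2 hzw]
        simp only [if_neg hwP.1]
    · intro z hz hzX w hw
      by_cases hzs : z ∈ s
      · simp only [if_pos hzs] at hw
        have := Option.some.inj hw
        subst this
        exact ⟨hz1'.1, fun h => hz1'.2 (Finset.mem_union.1 h)⟩
      · have hzx : z ∈ x := (Finset.mem_union.1 hz).resolve_left hzs
        simp only [if_neg hzs] at hw
        cases hg : g z with
        | none =>
          rw [hg] at hw
          exact absurd hw (by simp)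
        | some y =>
          rw [hg] at hw
          simp only at hw
          by_cases hy : y ∈ s
          · rw [if_pos hy] at hw
            have := Option.some.inj hw
            subst this
            exact ⟨hz1'.1, fun h => hz1'.2 (Finset.mem_union.1 h)⟩
          · rw [if_neg hy] at hw
            have := Option.some.inj hw
            subst this
            have h1 := hcut.mem z hzx hzX y hg
            exact ⟨h1.1, fun h => (Finset.mem_union.1 h).elim hy h1.2⟩

end Pool.Agent.Lib.MP4d044e.UB
end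

section
/-!
# MP_4d044e_co, upper bound: module CUT (submodularity and posimodularity)
-/
open Classical Finset

namespace Pool.Agent.Lib.MP4d044e.UB

theorem specCUT (hEEB : SpecEEB) : SpecCUT := by
  intro V G U A B hA hB
  obtain ⟨-, -, hcomm, hadd, hmono, -, -, -, -, -⟩ := hEEB V G
  -- the four pieces
  set A1 := A \ B with hA1
  set B1 := B \ A with hB1
  set I := A ∩ B with hI
  set O := U \ (A ∪ B) with hO
  have dAB : Disjoint A1 B1 := by
    rw [Finset.disjoint_left]; intro x h1 h2; rw [hA1, Finset.mem_sdiff] at h1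
    rw [hB1, Finset.mem_sdiff] at h2; exact h1.2 h2.1
  have dAI : Disjoint A1 I := by
    rw [Finset.disjoint_left]; intro x h1 h2; rw [hA1, Finset.mem_sdiff] at h1
    rw [hI, Finset.mem_inter] at h2; exact h1.2 h2.2
  have dBI : Disjoint B1 I := by
    rw [Finset.disjoint_left]; intro x h1 h2; rw [hB1, Finset.mem_sdiff] at h1
    rw [hI, Finset.mem_inter] at h2; exact h1.2 h2.1
  have dAO : Disjoint A1 O := by
    rw [Finset.disjoint_left]; intro x h1 h2; rw [hA1, Finset.mem_sdiff] at h1
    rw [hO, Finset.mem_sdiff, Finset.mem_union] at h2; exact h2.2 (Or.inl h1.1)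
  have dBO : Disjoint B1 O := by
    rw [Finset.disjoint_left]; intro x h1 h2; rw [hB1, Finset.mem_sdiff] at h1
    rw [hO, Finset.mem_sdiff, Finset.mem_union] at h2; exact h2.2 (Or.inr h1.1)
  have dIO : Disjoint I O := by
    rw [Finset.disjoint_left]; intro x h1 h2; rw [hI, Finset.mem_inter] at h1
    rw [hO, Finset.mem_sdiff, Finset.mem_union] at h2; exact h2.2 (Or.inl h1.1)
  have eA : A = A1 ∪ I := by
    ext x; simp only [hA1, hI, Finset.mem_union, Finset.mem_sdiff, Finset.mem_inter]; tauto
  have eB : B = B1 ∪ I := by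
    ext x; simp only [hB1, hI, Finset.mem_union, Finset.mem_sdiff, Finset.mem_inter]; tauto
  have eAB : A ∪ B = (A1 ∪ B1) ∪ I := by
    ext x; simp only [hA1, hB1, hI, Finset.mem_union, Finset.mem_sdiff, Finset.mem_inter]; tauto
  have cA : U \ A = B1 ∪ O := by
    ext x
    have := @hB x
    simp only [hB1, hO, Finset.mem_union, Finset.mem_sdiff]; tauto
  have cB : U \ B = A1 ∪ O := by
    ext x
    have := @hA x
    simp only [hA1, hO, Finset.mem_union, Finset.mem_sdiff]; tauto
  have cI : U \ I = (A1 ∪ B1) ∪ O := by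
    ext x
    have := @hA x
    have := @hB x
    simp only [hA1, hB1, hI, hO, Finset.mem_union, Finset.mem_sdiff, Finset.mem_inter]; tauto
  have cA1 : U \ A1 = (B1 ∪ I) ∪ O := by
    ext x
    have := @hA x
    have := @hB x
    simp only [hA1, hB1, hI, hO, Finset.mem_union, Finset.mem_sdiff, Finset.mem_inter]; tauto
  have cB1 : U \ B1 = (A1 ∪ I) ∪ O := by
    ext x
    have := @hA x
    have := @hB x
    simp only [hA1, hB1, hI, hO, Finset.mem_union, Finset.mem_sdiff, Finset.mem_inter]; tauto
  have dABI : Disjoint (A1 ∪ B1) I := Finset.disjoint_union_left.2 ⟨dAI, dBI⟩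
  have dABO : Disjoint (A1 ∪ B1) O := Finset.disjoint_union_left.2 ⟨dAO, dBO⟩
  have dBIO : Disjoint (B1 ∪ I) O := Finset.disjoint_union_left.2 ⟨dBO, dIO⟩
  have dAIO : Disjoint (A1 ∪ I) O := Finset.disjoint_union_left.2 ⟨dAO, dIO⟩
  -- the values
  have vA : dd G U A = ee G A1 B1 + ee G A1 O + (ee G I B1 + ee G I O) := by
    unfold dd
    rw [cA, eA, (hadd A1 I _ dAI).1, (hadd B1 O A1 dBO).2, (hadd B1 O I dBO).2]
  have vB : dd G U B = ee G B1 A1 + ee G B1 O + (ee G I A1 + ee G I O) := by
    unfold dd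
    rw [cB, eB, (hadd B1 I _ dBI).1, (hadd A1 O B1 dAO).2, (hadd A1 O I dAO).2]
  have vAB : dd G U (A ∪ B) = ee G A1 O + ee G B1 O + ee G I O := by
    unfold dd
    rw [← hO, eAB, (hadd (A1 ∪ B1) I O dABI).1, (hadd A1 B1 O dAB).1]
  have vI : dd G U I = ee G I A1 + ee G I B1 + ee G I O := by
    unfold dd
    rw [cI, (hadd (A1 ∪ B1) O I dABO).2, (hadd A1 B1 I dAB).2]
  have vA1 : dd G U A1 = ee G A1 B1 + ee G A1 I + ee G A1 O := by
    unfold dd
    rw [cA1, (hadd (B1 ∪ I) O A1 dBIO).2, (hadd B1 I A1 dBI).2]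
  have vB1 : dd G U B1 = ee G B1 A1 + ee G B1 I + ee G B1 O := by
    unfold dd
    rw [cB1, (hadd (A1 ∪ I) O B1 dAIO).2, (hadd A1 I B1 dAI).2]
  have s1 : ee G B1 A1 = ee G A1 B1 := hcomm _ _
  have s2 : ee G I A1 = ee G A1 I := hcomm _ _
  have s3 : ee G I B1 = ee G B1 I := hcomm _ _
  rw [vA, vB, vAB, vI, vA1, vB1, s1, s2, s3]
  refine ⟨by omega, by omega, by omega, ?_, ?_, ?_⟩
  · intro hd
    have hI0 : I = ∅ := Finset.disjoint_iff_inter_eq_empty.1 hd
    have e1 : A1 = A := by rw [hA1]; exact Finset.sdiff_eq_self_of_disjoint hd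
    have e2 : B1 = B := by rw [hB1]; exact Finset.sdiff_eq_self_of_disjoint hd.symm
    have z1 : ee G A1 I = 0 := by rw [hI0]; simp [ee, nb]
    have z2 : ee G B1 I = 0 := by rw [hI0]; simp [ee, nb]
    have z3 : ee G I O = 0 := by rw [hI0]; simp [ee]
    have z4 : ee G A B = ee G A1 B1 := by rw [e1, e2]
    omega
  · unfold dd
    have e1 : (U \ B) \ A1 ⊆ U \ A := by
      intro x hx
      rw [Finset.mem_sdiff, Finset.mem_sdiff, hA1, Finset.mem_sdiff] at hx
      rw [Finset.mem_sdiff]
      tauto
    have h1 : ee G A1 ((U \ B) \ A1) ≤ ee G A (U \ A) :=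
      hmono _ _ _ _ (by rw [hA1]; exact Finset.sdiff_subset) e1
    have h2 : ee G A (U \ A) = ee G A1 B1 + ee G A1 O + (ee G I B1 + ee G I O) := vA
    rw [s3] at h2
    omega
  · intro hd
    have hI0 : I = ∅ := Finset.disjoint_iff_inter_eq_empty.1 hd
    have e1 : A1 = A := by rw [hA1]; exact Finset.sdiff_eq_self_of_disjoint hd
    have e2 : B1 = B := by rw [hB1]; exact Finset.sdiff_eq_self_of_disjoint hd.symm
    have z2 : ee G B1 I = 0 := by rw [hI0]; simp [ee, nb]
    have z3 : ee G I O = 0 := by rw [hI0]; simp [ee]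
    have z4 : ee G A B = ee G A1 B1 := by rw [e1, e2]
    have e3 : (U \ B) \ A = O := by
      rw [hO]
      ext x
      simp only [Finset.mem_sdiff, Finset.mem_union]
      tauto
    have z5 : dd G (U \ B) A = ee G A1 O := by
      unfold dd
      rw [e3, e1]
    omega

end Pool.Agent.Lib.MP4d044e.UB
end

section
/-!
# MP_4d044e_co, upper bound: module EEB (basic counting)
-/
open Classical Finset

namespace Pool.Agent.Lib.MP4d044e.UB

namespace EEBM

variable {V : Type} (G : SimpleGraph V)

theorem nb_union (A B : Finset V) (v : V) (h : Disjoint A B) :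
    nb G (A ∪ B) v = nb G A v + nb G B v := by
  unfold nb
  rw [Finset.filter_union, Finset.card_union_of_disjoint (Finset.disjoint_filter_filter h)]

theorem nb_mono (A B : Finset V) (v : V) (h : A ⊆ B) : nb G A v ≤ nb G B v :=
  Finset.card_le_card (Finset.filter_subset_filter _ h)

theorem nb_sum (A : Finset V) (v : V) : nb G A v = ∑ w ∈ A, if G.Adj v w then 1 else 0 := by
  unfold nb
  rw [Finset.card_filter]

theorem ee_sum (A B : Finset V) : ee G A B = ∑ v ∈ A, ∑ w ∈ B, if G.Adj v w then 1 else 0 :=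
  Finset.sum_congr rfl fun v _ => nb_sum G B v

theorem ee_comm (A B : Finset V) : ee G A B = ee G B A := by
  rw [ee_sum, ee_sum, Finset.sum_comm]
  refine Finset.sum_congr rfl fun v _ => Finset.sum_congr rfl fun w _ => ?_
  rw [G.adj_comm]

theorem ee_left (A B C : Finset V) (h : Disjoint A B) :
    ee G (A ∪ B) C = ee G A C + ee G B C := by
  unfold ee
  rw [Finset.sum_union h]

theorem ee_mono (A A' B B' : Finset V) (hA : A ⊆ A') (hB : B ⊆ B') : ee G A B ≤ ee G A' B' := by
  unfold ee
  calc ∑ v ∈ A, nb G B v ≤ ∑ v ∈ A, nb G B' v := Finset.sum_le_sum fun v _ => nb_mono G B B' v hB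
    _ ≤ ∑ v ∈ A', nb G B' v := Finset.sum_le_sum_of_subset hA

theorem nb_insert (A : Finset V) (a v : V) (ha : a ∉ A) :
    nb G (insert a A) v = nb G A v + (if G.Adj v a then 1 else 0) := by
  rw [nb_sum, nb_sum, Finset.sum_insert ha, add_comm]

theorem ee_insert (A : Finset V) (a : V) (ha : a ∉ A) :
    ee G (insert a A) (insert a A) = ee G A A + 2 * nb G A a := by
  unfold ee
  rw [Finset.sum_insert ha]
  have h1 : nb G (insert a A) a = nb G A a := by
    rw [nb_insert G A a a ha]
    simp
  have h2 : ∑ v ∈ A, nb G (insert a A) v = ∑ v ∈ A, nb G A v + nb G A a := by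
    have : ∑ v ∈ A, nb G (insert a A) v = ∑ v ∈ A, (nb G A v + (if G.Adj v a then 1 else 0)) :=
      Finset.sum_congr rfl fun v _ => nb_insert G A a v ha
    rw [this, Finset.sum_add_distrib]
    congr 1
    rw [nb_sum]
    refine Finset.sum_congr rfl fun v _ => ?_
    rw [G.adj_comm]
  rw [h1, h2]
  ring

theorem ee_even (A : Finset V) : Even (ee G A A) := by
  induction A using Finset.induction_on with
  | empty => simp [ee]
  | insert a A ha ih =>
    rw [ee_insert G A a ha]
    exact ih.add (even_two_mul _)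

theorem ee_zero (A B : Finset V) : ee G A B = 0 ↔ ∀ a ∈ A, ∀ b ∈ B, ¬ G.Adj a b := by
  rw [ee_sum]
  constructor
  · intro h a ha b hb hab
    have h1 := (Finset.sum_eq_zero_iff.1 h) a ha
    have h2 := (Finset.sum_eq_zero_iff.1 h1) b hb
    simp [hab] at h2
  · intro h
    refine Finset.sum_eq_zero fun a ha => Finset.sum_eq_zero fun b hb => ?_
    simp [h a ha b hb]

theorem pd {Q : Finset (Finset V)} (h : ∀ P ∈ Q, ∀ P' ∈ Q, P ≠ P' → Disjoint P P') :
    (↑Q : Set (Finset V)).PairwiseDisjoint id := fun P hP P' hP' hne => h P hP P' hP' hne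

theorem un_left (Q : Finset (Finset V)) (B : Finset V)
    (h : ∀ P ∈ Q, ∀ P' ∈ Q, P ≠ P' → Disjoint P P') : ee G (un Q) B = ∑ P ∈ Q, ee G P B := by
  unfold ee un
  rw [Finset.sum_biUnion (pd h)]
  rfl

theorem un_nb (Q : Finset (Finset V)) (v : V)
    (h : ∀ P ∈ Q, ∀ P' ∈ Q, P ≠ P' → Disjoint P P') : nb G (un Q) v = ∑ P ∈ Q, nb G P v := by
  rw [nb_sum]
  unfold un
  rw [Finset.sum_biUnion (pd h)]
  exact Finset.sum_congr rfl fun P _ => (nb_sum G P v).symm

end EEBM

open EEBM in
theorem specEEB : SpecEEB := by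
  intro V G
  refine ⟨nb_union G, nb_mono G, ee_comm G, ?_, ee_mono G, ee_insert G, ee_even G, ee_zero G, ?_, ?_⟩
  · intro A B C h
    refine ⟨ee_left G A B C h, ?_⟩
    rw [ee_comm G C (A ∪ B), ee_left G A B C h, ee_comm G A C, ee_comm G B C]
  · intro A a ha
    have hA : insert a (A.erase a) = A := Finset.insert_erase ha
    have hn : a ∉ A.erase a := Finset.notMem_erase a A
    refine ⟨?_, ?_⟩
    · have h1 := ee_insert G (A.erase a) a hn
      rw [hA] at h1
      have h2 := nb_insert G (A.erase a) a a hn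
      rw [hA] at h2
      simp at h2
      rw [h1, h2]
    · intro v
      have h2 := nb_insert G (A.erase a) a v hn
      rw [hA] at h2
      exact h2
  · intro Q B h
    refine ⟨un_left G Q B h, fun v => un_nb G Q v h, ?_, ?_⟩
    · unfold un
      exact Finset.card_biUnion (t := id) fun P hP P' hP' hne => h P hP P' hP' hne
    · intro h0
      rw [un_left G Q _ h]
      refine Finset.sum_congr rfl fun P hP => ?_
      rw [ee_comm G P (un Q), un_left G Q P h, Finset.sum_eq_single P]
      · intro P' hP' hne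
        exact h0 P' hP' P hP hne
      · intro hn
        exact absurd hP hn

end Pool.Agent.Lib.MP4d044e.UB
end
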