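import Pool.Agent.Lib.MP_4d044e_co.UB.Spec

/-!
# MP_4d044e_co, upper bound: module EXT (the extraction applied to the core)
-/

open Classical Finset

namespace Pool.Agent.Lib.MP4d044e.UB

namespace EXTM

variable {V : Type} (G : SimpleGraph V)

theorem mem_Big {d B : ℕ} {R : Finset V} {a : V} (h : a ∈ CC G d B R) : a ∈ Big G d B R := by
  unfold CC at h
  exact (Finset.mem_filter.1 h).1

theorem mem_R {d B : ℕ} {R : Finset V} {a : V} (h : a ∈ Big G d B R) : a ∈ R := by
  unfold Big at h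
  exact (Finset.mem_filter.1 h).1

theorem mem_C3 {d B : ℕ} {R : Finset V} {a : V} (h : a ∈ CC G d B R)
    (h3 : nb G (CC G d B R) a = 3) : a ∈ C3 G d B R := by
  unfold C3
  exact Finset.mem_filter.2 ⟨h, h3⟩

theorem C3_sub {d B : ℕ} {R : Finset V} : C3 G d B R ⊆ CC G d B R := by
  unfold C3
  exact Finset.filter_subset _ _

end EXTM

open EXTM in
theorem specEXT (hHNG : SpecHNG) (hROO : SpecROO) (hCOR : SpecCOR) (hTRA : SpecTRA)
    (hTRB : SpecTRB) (hTOP : SpecTOP) : SpecEXT := by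
  intro d B ε hd hB hε
  obtain ⟨M, hM⟩ := hTOP (4 + 12 * B) (d * B + 1) ε (by omega) hε
  refine ⟨M, ?_⟩
  intro V _ G hdeg R hR
  obtain ⟨hC3le, -⟩ := hCOR V G d B R hd hB hdeg hR
  obtain ⟨-, hR2, -, -⟩ := hROO V G d B R hd hB hdeg
  obtain ⟨c, D, hD, hc, hc0, hcW, hcard, hlab⟩ :=
    hM V G (CC G d B R) (fun a => (PP G B R a).card) hC3le (by
      intro a ha
      have haB : a ∈ Big G d B R := mem_Big G ha
      obtain ⟨h1, h2, -⟩ := hHNG V G d B R hd hB hdeg a haB
      show (insert a (hg G B R a)).card ≤ _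
      rw [Finset.card_insert_of_notMem h2]
      omega)
  refine ⟨c, D, hD, hc, ?_, ?_, ?_, hlab⟩
  · intro a ha
    apply hc0 a
    intro haC
    have h1 := hC3le a haC
    have h2 : nb G (CC G d B R) a ≠ 3 := fun h => ha (mem_C3 G haC h)
    omega
  · intro u hu hk hT
    have hW : ∃ W ⊆ CC G d B R, TT G d B R u ⊆ W ∧ W.card ≤ 4 + 12 * B ∧
        ee G W (CC G d B R \ W) ≤ 3 := by
      by_cases h : ∀ a ∈ TT G d B R u, ∀ b ∈ TT G d B R u, a ≠ b → ∀ Y ∈ Sr G B R a b,
          ∀ c ∈ TT G d B R u, c ∉ Y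
      · exact hTRB V G d B R hd hB hdeg hR u hu hk hT h
      · push Not at h
        obtain ⟨a, ha, b, hb, hab, Y, hY, e, he, heY⟩ := h
        exact hTRA V G d B R hd hB hdeg hR u hu hk a ha b hb hab Y hY e he heY
    obtain ⟨W, hWC, hTW, hWcard, hWe⟩ := hW
    exact le_trans (Finset.sum_le_sum_of_subset_of_nonneg hTW fun a _ _ => (hc a).1)
      (hcW W hWC hWcard hWe)
  · have h1 : ∑ a ∈ C3 G d B R, c a = ∑ v ∈ CC G d B R, c v := by
      apply Finset.sum_subset (C3_sub G)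
      intro x hx hx3
      apply hc0 x
      intro _
      have h1 := hC3le x hx
      have h2 : nb G (CC G d B R) x ≠ 3 := fun h => hx3 (mem_C3 G hx h)
      omega
    have h2 : ∑ v ∈ CC G d B R, (PP G B R v).card ≤ R.card := by
      rw [← Finset.card_biUnion (fun a ha b hb hab => hR2 a ha b hb hab)]
      apply Finset.card_le_card
      intro x hx
      obtain ⟨a, ha, hxa⟩ := Finset.mem_biUnion.1 hx
      have haB : a ∈ Big G d B R := mem_Big G ha
      obtain ⟨-, -, -, h3, -⟩ := hHNG V G d B R hd hB hdeg a haB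
      exact mem_R G (h3 hxa)
    have h3 : ∑ v ∈ CC G d B R, ((PP G B R v).card : ℝ) ≤ (R.card : ℝ) := by
      exact_mod_cast h2
    rw [h1]
    have h4 := mul_le_mul_of_nonneg_left h3 hε.le
    linarith

end Pool.Agent.Lib.MP4d044e.UB
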