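import Pool.Agent.Lib.MP_4d044e_co.UB.Spec

section
/-!
# MP_4d044e_co, upper bound: module FAB (families of parts)
-/
open Classical Finset

namespace Pool.Agent.Lib.MP4d044e.UB

namespace FABM

variable {V : Type} {G : SimpleGraph V} {U : Finset V} {Q : Finset (Finset V)}

theorem mem_un (W : Finset (Finset V)) (x : V) : x ∈ un W ↔ ∃ P ∈ W, x ∈ P := by
  unfold un
  simp

theorem un_mono {W W' : Finset (Finset V)} (h : W ⊆ W') : un W ⊆ un W' := by
  intro x hx
  obtain ⟨P, hP, hx⟩ := (mem_un W x).1 hx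
  exact (mem_un W' x).2 ⟨P, h hP, hx⟩

/-- A vertex is in at most one part. -/
theorem uniq (h : Fam G U Q) {P P' : Finset V} (hP : P ∈ Q) (hP' : P' ∈ Q) {x : V} (hx : x ∈ P)
    (hx' : x ∈ P') : P = P' := by
  by_contra hne
  exact Finset.disjoint_left.1 (h.dis P hP P' hP' hne) hx hx'

end FABM

open FABM in
theorem specFAB (hCUT : SpecCUT) : SpecFAB := by
  intro V G U Q h
  have hsub : ∀ W ⊆ Q, un W ⊆ U := fun W hW => h.cov ▸ un_mono hW
  have hPU : ∀ P ∈ Q, P ⊆ U := by
    intro P hP x hx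
    exact h.cov ▸ (mem_un Q x).2 ⟨P, hP, hx⟩
  have hera : ∀ P ∈ Q, ∀ W ⊆ Q, un (W.erase P) = un W \ P := by
    intro P hP W hW
    ext x
    rw [mem_un, Finset.mem_sdiff, mem_un]
    constructor
    · rintro ⟨P', hP', hx⟩
      rw [Finset.mem_erase] at hP'
      refine ⟨⟨P', hP'.2, hx⟩, fun hxP => hP'.1 (uniq h (hW hP'.2) hP hx hxP)⟩
    · rintro ⟨⟨P', hP', hx⟩, hxP⟩
      exact ⟨P', Finset.mem_erase.2 ⟨fun he => hxP (he ▸ hx), hP'⟩, hx⟩
  refine ⟨?_, ?_, ?_⟩
  · intro W hW
    refine ⟨hsub W hW, ?_, ?_⟩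
    · rintro ⟨P, hP⟩
      obtain ⟨x, hx⟩ := h.ne P (hW hP)
      exact ⟨x, (mem_un W x).2 ⟨P, hP, hx⟩⟩
    · intro W' hW'
      refine ⟨?_, ?_, ?_⟩
      · ext x
        rw [Finset.mem_union, mem_un, mem_un, mem_un]
        constructor
        · rintro ⟨P, hP, hx⟩
          rcases Finset.mem_union.1 hP with hP | hP
          · exact Or.inl ⟨P, hP, hx⟩
          · exact Or.inr ⟨P, hP, hx⟩
        · rintro (⟨P, hP, hx⟩ | ⟨P, hP, hx⟩)
          · exact ⟨P, Finset.mem_union_left _ hP, hx⟩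
          · exact ⟨P, Finset.mem_union_right _ hP, hx⟩
      · ext x
        rw [Finset.mem_inter, mem_un, mem_un, mem_un]
        constructor
        · rintro ⟨P, hP, hx⟩
          rw [Finset.mem_inter] at hP
          exact ⟨⟨P, hP.1, hx⟩, ⟨P, hP.2, hx⟩⟩
        · rintro ⟨⟨P, hP, hx⟩, ⟨P', hP', hx'⟩⟩
          have := uniq h (hW hP) (hW' hP') hx hx'
          subst this
          exact ⟨P, Finset.mem_inter.2 ⟨hP, hP'⟩, hx⟩
      · ext x
        rw [Finset.mem_sdiff, mem_un, mem_un, mem_un]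
        constructor
        · rintro ⟨P, hP, hx⟩
          rw [Finset.mem_sdiff] at hP
          refine ⟨⟨P, hP.1, hx⟩, ?_⟩
          rintro ⟨P', hP', hx'⟩
          have := uniq h (hW hP.1) (hW' hP') hx hx'
          subst this
          exact hP.2 hP'
        · rintro ⟨⟨P, hP, hx⟩, hn⟩
          exact ⟨P, Finset.mem_sdiff.2 ⟨hP, fun hP' => hn ⟨P, hP', hx⟩⟩, hx⟩
  · intro P hP
    refine ⟨⟨?_, ?_, ?_, ?_⟩, hPU P hP, hera P hP⟩
    · intro P1 h1 P2 h2 hne
      exact h.dis P1 (Finset.mem_of_mem_erase h1) P2 (Finset.mem_of_mem_erase h2) hne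
    · exact fun P1 h1 => h.ne P1 (Finset.mem_of_mem_erase h1)
    · rw [hera P hP Q (Finset.Subset.refl Q), h.cov]
    · intro P1 h1
      rw [Finset.mem_erase] at h1
      have hd : Disjoint P1 P := h.dis P1 h1.2 P hP h1.1
      have := (hCUT V G U P1 P (hPU P1 h1.2) (hPU P hP)).2.2.2.2.1
      rw [Finset.sdiff_eq_self_of_disjoint hd] at this
      exact this.trans (h.le P1 h1.2)
  · intro W hW hne hle
    have hd : ∀ P ∈ Q \ W, Disjoint P (un W) := by
      intro P hP
      rw [Finset.mem_sdiff] at hP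
      rw [Finset.disjoint_left]
      intro x hx hx'
      obtain ⟨P', hP', hx'⟩ := (mem_un W x).1 hx'
      have := uniq h hP.1 (hW hP') hx hx'
      subst this
      exact hP.2 hP'
    have hunne : (un W).Nonempty := by
      obtain ⟨P, hP⟩ := hne
      obtain ⟨x, hx⟩ := h.ne P (hW hP)
      exact ⟨x, (mem_un W x).2 ⟨P, hP, hx⟩⟩
    have hnot : un W ∉ Q \ W := by
      intro hin
      obtain ⟨x, hx⟩ := hunne
      exact Finset.disjoint_left.1 (hd _ hin) hx hx
    refine ⟨⟨?_, ?_, ?_, ?_⟩, hnot, ?_⟩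
    · intro P1 h1 P2 h2 hne'
      rw [Finset.mem_insert] at h1 h2
      rcases h1 with h1 | h1 <;> rcases h2 with h2 | h2
      · exact absurd (h1.trans h2.symm) hne'
      · rw [h1]; exact (hd P2 h2).symm
      · rw [h2]; exact hd P1 h1
      · exact h.dis P1 (Finset.mem_sdiff.1 h1).1 P2 (Finset.mem_sdiff.1 h2).1 hne'
    · intro P1 h1
      rw [Finset.mem_insert] at h1
      rcases h1 with h1 | h1
      · rw [h1]; exact hunne
      · exact h.ne P1 (Finset.mem_sdiff.1 h1).1
    · apply Finset.Subset.antisymm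
      · intro x hx
        obtain ⟨P, hP, hx⟩ := (mem_un _ x).1 hx
        rw [Finset.mem_insert] at hP
        rcases hP with hP | hP
        · exact hsub W hW (hP ▸ hx)
        · exact hPU P (Finset.mem_sdiff.1 hP).1 hx
      · intro x hx
        rw [← h.cov] at hx
        obtain ⟨P, hP, hx⟩ := (mem_un _ x).1 hx
        rw [mem_un]
        by_cases hPW : P ∈ W
        · exact ⟨un W, Finset.mem_insert_self _ _, (mem_un W x).2 ⟨P, hPW, hx⟩⟩
        · exact ⟨P, Finset.mem_insert_of_mem (Finset.mem_sdiff.2 ⟨hP, hPW⟩), hx⟩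
    · intro P1 h1
      rw [Finset.mem_insert] at h1
      rcases h1 with h1 | h1
      · rw [h1]; exact hle
      · exact h.le P1 (Finset.mem_sdiff.1 h1).1
    · rw [Finset.card_insert_of_notMem hnot]
      have := Finset.card_sdiff_add_card_eq_card hW
      omega

end Pool.Agent.Lib.MP4d044e.UB
end

section
/-!
# MP_4d044e_co, upper bound: module FIN (the final theorem)
-/
open Classical Finset

namespace Pool.Agent.Lib.MP4d044e.UB

namespace FINM

theorem nb_eq {n : ℕ} (G : SimpleGraph (Fin n)) (v : Fin n) :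
    nb G univ v = (G.neighborSet v).ncard := by
  unfold nb
  rw [← Set.ncard_coe_finset]
  congr 1
  ext w
  simp

/-- Reachable vertices have the same label. -/
theorem label_eq {V α : Type} (H : SimpleGraph V) (l : V → α)
    (hl : ∀ v w, H.Adj v w → l v = l w) (v w : V) (h : H.Reachable v w) : l v = l w := by
  obtain ⟨p⟩ := h
  induction p with
  | nil => rfl
  | cons h _ ih => exact (hl _ _ h).trans ih

theorem frag (d : ℕ) (hd : 5 ≤ d) (hUBR : SpecUBR) (hREG : SpecREG) (ε : ℝ) (hε : 1 - lam d < ε) :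
    Fragmentable (ClassMD d) ε := by
  obtain ⟨C, hC⟩ := hUBR d hd (ε - (1 - lam d)) (by linarith)
  refine ⟨C, ?_⟩
  intro n G hG
  obtain ⟨S, ⟨α, l, hl, hlC⟩, hS⟩ := hREG d C (lam d - (ε - (1 - lam d))) hC (Fin n) G (fun v => by
    rw [nb_eq]; exact hG v)
  refine ⟨Sᶜ, ?_, ?_⟩
  · have h1 : S.card ≤ n := by
      have := Finset.card_le_univ S
      simpa using this
    rw [Finset.card_compl, Fintype.card_fin, Nat.cast_sub h1]
    rw [Fintype.card_fin] at hS
    nlinarith [hS]
  · intro c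
    obtain ⟨v0, hv0⟩ := c.exists_rep
    have hsub : (Subtype.val '' c.supp) ⊆ (↑(S.filter fun v => l v = l v0.1) : Set (Fin n)) := by
      rintro _ ⟨v, hv, rfl⟩
      have hvS : v.1 ∈ S := by
        have := v.2
        simpa using this
      have hreach : ((G.induce ((↑(Sᶜ) : Set (Fin n))ᶜ))).Reachable v v0 := by
        have h1 : (G.induce ((↑(Sᶜ) : Set (Fin n))ᶜ)).connectedComponentMk v = c := hv
        rw [← hv0] at h1
        exact SimpleGraph.ConnectedComponent.exact h1
      have h2 := label_eq (G.induce ((↑(Sᶜ) : Set (Fin n))ᶜ)) (fun u => l u.1) (by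
        intro a b hab
        have ha : a.1 ∈ S := by have := a.2; simpa using this
        have hb : b.1 ∈ S := by have := b.2; simpa using this
        exact hl a.1 ha b.1 hb hab) v v0 hreach
      simp only [Finset.coe_filter, Set.mem_ofPred_eq]
      exact ⟨hvS, h2⟩
    calc c.supp.ncard = (Subtype.val '' c.supp).ncard :=
          (Set.ncard_image_of_injective _ Subtype.val_injective).symm
      _ ≤ (↑(S.filter fun v => l v = l v0.1) : Set (Fin n)).ncard :=
          Set.ncard_le_ncard hsub (Finset.finite_toSet _)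
      _ = (S.filter fun v => l v = l v0.1).card := Set.ncard_coe_finset _
      _ ≤ C := hlC _

end FINM

open FINM in
theorem specFIN (hNUM : SpecNUM) (hUBR : SpecUBR) (hREG : SpecREG) : SpecFIN := by
  intro d hd
  obtain ⟨h1, h2, h3, -, -, -, -, h4, h5⟩ := hNUM d hd
  rw [h1]
  refine ⟨fun ε hε => frag d hd hUBR hREG ε hε, ?_, by linarith, h5⟩
  unfold coef
  have hbdd : BddBelow {ε : ℝ | 0 ≤ ε ∧ Fragmentable (ClassMD d) ε} := ⟨0, fun ε hε => hε.1⟩
  refine le_of_forall_gt_imp_ge_of_dense fun ε hε => ?_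
  exact csInf_le hbdd ⟨by linarith, frag d hd hUBR hREG ε hε⟩

end Pool.Agent.Lib.MP4d044e.UB
end
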