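import Pool.Agent.Lib.MP_4d044e_co.UB.Spec

open Classical Finset

namespace Pool.Agent.Lib.MP4d044e.UB

namespace HNGM

variable {V : Type} {G : SimpleGraph V}

theorem mem_Sh {B : ℕ} {S : Finset V} {a : V} {Y : Finset V} :
    Y ∈ Sh G B S a ↔ (IsC G (S.erase a) Y ∧ Y.card ≤ B ∧ ee G Y Y + 2 = 2 * Y.card) ∧ Tch G a Y := by
  unfold Sh ST
  simp only [Finset.mem_filter, Finset.mem_powerset]
  constructor
  · rintro ⟨⟨_, h⟩, h'⟩
    exact ⟨h, h'⟩
  · rintro ⟨h, h'⟩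
    exact ⟨⟨h.1.2.1, h⟩, h'⟩

theorem mem_ST {B : ℕ} {S : Finset V} {Y : Finset V} :
    Y ∈ ST G B S ↔ IsC G S Y ∧ Y.card ≤ B ∧ ee G Y Y + 2 = 2 * Y.card := by
  unfold ST
  simp only [Finset.mem_filter, Finset.mem_powerset]
  constructor
  · rintro ⟨_, h⟩
    exact h
  · intro h
    exact ⟨h.1.2.1, h⟩

theorem mem_Big {d B : ℕ} {R : Finset V} {a : V} :
    a ∈ Big G d B R ↔ a ∈ R ∧ ∃ K : Finset V, IsC G R K ∧ a ∈ K ∧ d * B + 1 < K.card := by
  unfold Big
  simp only [Finset.mem_filter]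

theorem mem_hg {B : ℕ} {R : Finset V} {a x : V} :
    x ∈ hg G B R a ↔ ∃ Y ∈ Sh G B R a, x ∈ Y := by
  unfold hg
  simp only [Finset.mem_biUnion, id]

theorem nb_pos {Y : Finset V} {a : V} (h : Tch G a Y) : 1 ≤ nb G Y a := by
  obtain ⟨y, hy, hay⟩ := h
  unfold nb
  exact Finset.card_pos.2 ⟨y, Finset.mem_filter.2 ⟨hy, hay⟩⟩

theorem cn_ins (hCNB : SpecCNB) (a : V) (F : Finset (Finset V)) :
    (∀ Y ∈ F, Cn G (insert a Y)) → Cn G (insert a (F.biUnion id)) := by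
  obtain ⟨hs, _, hu, _, _, _⟩ := hCNB V G
  induction F using Finset.induction_on with
  | empty =>
    intro _
    simpa using hs a
  | insert Y F hYF ih =>
    intro h
    have h1 : Cn G (insert a Y) := h Y (Finset.mem_insert_self _ _)
    have h2 : Cn G (insert a (F.biUnion id)) := ih fun Z hZ => h Z (Finset.mem_insert_of_mem hZ)
    have h3 := hu _ _ h1 h2 ⟨a, Finset.mem_inter.2 ⟨Finset.mem_insert_self _ _, Finset.mem_insert_self _ _⟩⟩
    have h4 : insert a ((insert Y F).biUnion id) = insert a Y ∪ insert a (F.biUnion id) := by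
      ext x
      simp only [Finset.biUnion_insert, Finset.mem_insert, Finset.mem_union, id]
      tauto
    rw [h4]
    exact h3

end HNGM

open HNGM

theorem specHNG (hEEB : SpecEEB) (hCNB : SpecCNB) (hCND : SpecCND) : SpecHNG := by
  intro V _ G d B R hd hB hdeg a ha
  have hBig := ha
  rw [mem_Big] at ha
  obtain ⟨haR, K, hK, haK, hKc⟩ := ha
  obtain ⟨_, hcl, _, _, _, huniq⟩ := hCNB V G
  obtain ⟨_, hmono, _, _, _, hins, _, hzero, _, hfam⟩ := hEEB V G
  -- facts on the members of Sh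
  have hsub : ∀ Y ∈ Sh G B R a, Y ⊆ R.erase a := fun Y hY => (mem_Sh.1 hY).1.1.2.1
  have hYK : ∀ Y ∈ Sh G B R a, Y ⊆ K := fun Y hY =>
    (hCND V G R K Y a hK haK (mem_Sh.1 hY).1.1).1.1 (mem_Sh.1 hY).2
  have haY : ∀ Y ∈ Sh G B R a, a ∉ Y := fun Y hY h => (Finset.mem_erase.1 (hsub Y hY h)).1 rfl
  have hdis : ∀ P ∈ Sh G B R a, ∀ P' ∈ Sh G B R a, P ≠ P' → Disjoint P P' := by
    intro P hP P' hP' hne
    rw [Finset.disjoint_iff_inter_eq_empty]
    by_contra h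
    exact hne (huniq _ _ _ (mem_Sh.1 hP).1.1 (mem_Sh.1 hP').1.1 (Finset.nonempty_iff_ne_empty.2 h))
  have hee0 : ∀ P ∈ Sh G B R a, ∀ P' ∈ Sh G B R a, P ≠ P' → ee G P P' = 0 := by
    intro P hP P' hP' hne
    rw [hzero]
    intro x hx y hy hxy
    have h1 := (mem_Sh.1 hP).1.1.2.2 x hx y (hsub P' hP' hy) hxy
    exact (Finset.disjoint_left.1 (hdis P hP P' hP' hne)) h1 hy
  have hun : un (Sh G B R a) = hg G B R a := rfl
  have hF0 := hfam (Sh G B R a) ∅ hdis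
  have hnbsum : nb G (hg G B R a) a = ∑ P ∈ Sh G B R a, nb G P a := by
    rw [← hun]
    exact hF0.2.1 a
  have hcard : (hg G B R a).card = ∑ P ∈ Sh G B R a, P.card := by
    rw [← hun]
    exact hF0.2.2.1
  have heesum : ee G (hg G B R a) (hg G B R a) = ∑ P ∈ Sh G B R a, ee G P P := by
    rw [← hun]
    exact hF0.2.2.2 hee0
  have h7 : (Sh G B R a).card ≤ nb G (hg G B R a) a := by
    rw [hnbsum, Finset.card_eq_sum_ones]
    exact Finset.sum_le_sum fun Y hY => nb_pos (mem_Sh.1 hY).2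
  have hnbd : nb G (hg G B R a) a ≤ d :=
    (hmono _ _ a (Finset.subset_univ (hg G B R a))).trans (hdeg a)
  have h2 : a ∉ hg G B R a := by
    rw [mem_hg]
    rintro ⟨Y, hY, h⟩
    exact haY Y hY h
  have hhgK : hg G B R a ⊆ K := by
    intro x hx
    obtain ⟨Y, hY, hxY⟩ := mem_hg.1 hx
    exact hYK Y hY hxY
  have hKBig : ∀ x ∈ K, x ∈ Big G d B R := fun x hx => mem_Big.2 ⟨hK.2.1 hx, K, hK, hx, hKc⟩
  refine ⟨?_, h2, ?_, ?_, ?_, ?_, h7, ?_, ?_⟩
  · rw [hcard]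
    calc ∑ P ∈ Sh G B R a, P.card ≤ ∑ _P ∈ Sh G B R a, B :=
          Finset.sum_le_sum fun Y hY => (mem_Sh.1 hY).1.2.1
      _ = (Sh G B R a).card * B := by rw [Finset.sum_const, smul_eq_mul]
      _ ≤ d * B := Nat.mul_le_mul_right B (h7.trans hnbd)
  · unfold PP hg
    refine cn_ins hCNB a _ fun Y hY => ?_
    exact ((hCND V G R K Y a hK haK (mem_Sh.1 hY).1.1).2 (hYK Y hY)).2
  · intro x hx
    unfold PP at hx
    rcases Finset.mem_insert.1 hx with rfl | hx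
    · exact hKBig _ haK
    · exact hKBig _ (hhgK hx)
  · intro x hx y hy hxy
    unfold PP
    by_cases hya : y = a
    · rw [hya]
      exact Finset.mem_insert_self _ _
    · obtain ⟨Y, hY, hxY⟩ := mem_hg.1 hx
      refine Finset.mem_insert_of_mem (mem_hg.2 ⟨Y, hY, ?_⟩)
      exact (mem_Sh.1 hY).1.1.2.2 x hxY y (Finset.mem_erase.2 ⟨hya, hy⟩) hxy
  · intro y hy hay
    exact hKBig y (hK.2.2 a haK y hy hay)
  · intro heq
    have h8 := hins (hg G B R a) a h2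
    have h9 : ∑ P ∈ Sh G B R a, (ee G P P + 2) = ∑ P ∈ Sh G B R a, 2 * P.card :=
      Finset.sum_congr rfl fun Y hY => (mem_Sh.1 hY).1.2.2
    rw [Finset.sum_add_distrib, Finset.sum_const, smul_eq_mul, ← Finset.mul_sum, ← hcard, ← heesum] at h9
    have h10 : (PP G B R a).card = (hg G B R a).card + 1 := by
      unfold PP
      exact Finset.card_insert_of_notMem h2
    have h11 : ee G (PP G B R a) (PP G B R a) =
        ee G (hg G B R a) (hg G B R a) + 2 * nb G (hg G B R a) a := h8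
    rw [h10, h11]
    omega
  · intro Q hQ haQ
    rw [mem_ST] at hQ
    have h12 : Q = K := huniq R Q K hQ.1 hK ⟨a, Finset.mem_inter.2 ⟨haQ, haK⟩⟩
    have h13 := hQ.2.1
    rw [h12] at h13
    have h14 : 1 * B ≤ d * B := Nat.mul_le_mul_right B (by omega)
    omega

end Pool.Agent.Lib.MP4d044e.UB
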