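import Pool.Agent.Lib.MP_4d044e_co.UB.Spec

open Classical Finset

namespace Pool.Agent.Lib.MP4d044e.UB

namespace LAMM

variable {V : Type} {G : SimpleGraph V}

theorem mem_Sh {B : ℕ} {S : Finset V} {a : V} {Y : Finset V} :
    Y ∈ Sh G B S a ↔ (IsC G (S.erase a) Y ∧ Y.card ≤ B ∧ ee G Y Y + 2 = 2 * Y.card) ∧ Tch G a Y := by
  unfold Sh ST
  simp only [Finset.mem_filter, Finset.mem_powerset]
  constructor
  · rintro ⟨⟨_, h⟩, h'⟩
    exact ⟨h, h'⟩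
  · rintro ⟨h, h'⟩
    exact ⟨⟨h.1.2.1, h⟩, h'⟩

theorem mem_Big {d B : ℕ} {R : Finset V} {a : V} :
    a ∈ Big G d B R ↔ a ∈ R ∧ ∃ K : Finset V, IsC G R K ∧ a ∈ K ∧ d * B + 1 < K.card := by
  unfold Big
  simp only [Finset.mem_filter]

end LAMM

open LAMM

theorem specLAM (hCNB : SpecCNB) (hCND : SpecCND) : SpecLAM := by
  intro V _ G d B R hd hB a ha Y hY b hb Z hZ
  obtain ⟨_, hCNB2, _, _, _, _⟩ := hCNB V G
  rw [mem_Big] at ha
  obtain ⟨haR, K, hK, haK, hKc⟩ := ha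
  rw [mem_Sh] at hY hZ
  obtain ⟨⟨hY1, hY2, _⟩, hY4⟩ := hY
  obtain ⟨⟨hZ1, hZ2, _⟩, hZ4⟩ := hZ
  have h1 := hCND V G R K Y a hK haK hY1
  have hYK : Y ⊆ K := h1.1.1 hY4
  have hbK : b ∈ K := hYK hb
  have h2 := hCND V G R K Z b hK hbK hZ1
  have hZK : Z ⊆ K := h2.1.1 hZ4
  have hYe : Y ⊆ R.erase a := hY1.2.1
  have hZe : Z ⊆ R.erase b := hZ1.2.1
  have haY : a ∉ Y := fun h => (Finset.mem_erase.1 (hYe h)).1 rfl
  have haZ : a ∉ Z := by
    intro haZ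
    have hsub : K \ Y ⊆ Z := by
      refine hCNB2 (R.erase b) (K \ Y) Z (h1.2 hYK).1 ?_ hZ1.2 ⟨a, ?_⟩
      · intro x hx
        rw [Finset.mem_sdiff] at hx
        rw [Finset.mem_erase]
        refine ⟨?_, hK.2.1 hx.1⟩
        rintro rfl
        exact hx.2 hb
      · rw [Finset.mem_inter, Finset.mem_sdiff]
        exact ⟨⟨haK, haY⟩, haZ⟩
    have h3 : K ⊆ Y ∪ Z := by
      intro x hx
      by_cases h : x ∈ Y
      · exact Finset.mem_union_left _ h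
      · exact Finset.mem_union_right _ (hsub (Finset.mem_sdiff.2 ⟨hx, h⟩))
    have h4 : K.card ≤ Y.card + Z.card := (Finset.card_le_card h3).trans (Finset.card_union_le _ _)
    have h5 : 3 * B ≤ d * B := Nat.mul_le_mul_right B hd
    omega
  refine ⟨haZ, ?_⟩
  refine hCNB2 (R.erase a) (insert b Z) Y (h2.2 hZK).2 ?_ hY1.2 ⟨b, ?_⟩
  · intro x hx
    rw [Finset.mem_insert] at hx
    rcases hx with rfl | hx
    · exact hYe hb
    · rw [Finset.mem_erase]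
      refine ⟨?_, (Finset.mem_erase.1 (hZe hx)).2⟩
      rintro rfl
      exact haZ hx
  · rw [Finset.mem_inter]
    exact ⟨Finset.mem_insert_self _ _, hb⟩

end Pool.Agent.Lib.MP4d044e.UB
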