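import Pool.Agent.Lib.MP_4d044e_co.UB.Spec

section
/-!
# MP_4d044e_co, upper bound: module LBM (labels and masses after the removal of a part)
-/
open Classical Finset

namespace Pool.Agent.Lib.MP4d044e.UB

namespace LBMM

variable {V : Type} {G : SimpleGraph V} {U P X : Finset V} {g : V → Option V} {m : V → ℕ}

theorem mem_fil {α : Type} (S : Finset V) (l : V → α) (x : α) (z : V)
    (h : z ∈ S.filter (fun v => l v = x)) : z ∈ S ∧ l z = x := Finset.mem_filter.1 h

/-- Sum of the extra masses over a subset. -/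
theorem extra (S : Finset V) : ∑ y ∈ S, ∑ z ∈ (P \ X).filter (fun z => g z = some y), m z =
    ∑ z ∈ (P \ X).filter (fun z => ∃ y ∈ S, g z = some y), m z := by
  rw [← Finset.sum_biUnion]
  · refine Finset.sum_congr ?_ fun _ _ => rfl
    ext z
    simp only [Finset.mem_biUnion, Finset.mem_filter]
    constructor
    · rintro ⟨y, hy, hz, hg⟩
      exact ⟨hz, y, hy, hg⟩
    · rintro ⟨hz, y, hy, hg⟩
      exact ⟨y, hy, hz, hg⟩
  · intro y _ y' _ hne
    rw [Function.onFun, Finset.disjoint_left]
    intro z hz hz'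
    rw [Finset.mem_filter] at hz hz'
    apply hne
    have := hz.2.symm.trans hz'.2
    exact Option.some.inj this

theorem extra_le (S : Finset V) : ∑ y ∈ S, ∑ z ∈ (P \ X).filter (fun z => g z = some y), m z ≤
    ∑ z ∈ P, m z := by
  rw [extra]
  exact Finset.sum_le_sum_of_subset ((Finset.filter_subset _ _).trans Finset.sdiff_subset)

end LBMM

open LBMM in
theorem specLBM : SpecLBM := by
  intro V G U P X g m hPU hcut
  have h2 : ∀ P' ⊆ U \ P, ∑ v ∈ P', mv P X g m v ≤ ∑ v ∈ P', m v + ∑ v ∈ P, m v := by
    intro P' _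
    unfold mv
    rw [Finset.sum_add_distrib]
    exact Nat.add_le_add_left (extra_le P') _
  refine ⟨?_, h2, ?_⟩
  · refine (h2 (U \ P) (Finset.Subset.refl _)).trans ?_
    rw [Finset.sum_sdiff hPU]
  · intro D M hD hM hlab
    obtain ⟨α, l, hl, hlM⟩ := hlab
    let l' : V → Option α := fun z =>
      if z ∈ P then
        match g z with
        | none => none
        | some y => if y ∈ D then none else some (l y)
      else some (l z)
    have hin : ∀ z ∈ P, ∀ y, g z = some y → l' z = if y ∈ D then none else some (l y) := by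
      intro z hz y hy
      simp only [l', if_pos hz, hy]
    have hinn : ∀ z ∈ P, g z = none → l' z = none := by
      intro z hz hy
      simp only [l', if_pos hz, hy]
    have hout : ∀ z, z ∉ P → l' z = some (l z) := by
      intro z hz
      simp only [l', if_neg hz]
    have hcong : ∀ z ∈ P, ∀ w ∈ P, g z = g w → l' z = l' w := by
      intro z hz w hw h
      cases hg : g w with
      | none => rw [hinn w hw hg, hinn z hz (h.trans hg)]
      | some y => rw [hin w hw y hg, hin z hz y (h.trans hg)]
    have hmem : ∀ z ∈ U \ (D ∪ X), (z ∈ P ∧ z ∉ X) ∨ (z ∉ P ∧ z ∈ (U \ P) \ D) := by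
      intro z hz
      rw [Finset.mem_sdiff, Finset.mem_union] at hz
      by_cases hzP : z ∈ P
      · exact Or.inl ⟨hzP, fun h => hz.2 (Or.inr h)⟩
      · exact Or.inr ⟨hzP, Finset.mem_sdiff.2 ⟨Finset.mem_sdiff.2 ⟨hz.1, hzP⟩, fun h => hz.2 (Or.inl h)⟩⟩
    have hmix : ∀ z ∈ P, z ∉ X → ∀ w, w ∉ P → w ∈ (U \ P) \ D → G.Adj z w → l' z = l' w := by
      intro z hz hzX w hw hwU hzw
      rw [Finset.mem_sdiff, Finset.mem_sdiff] at hwU
      rw [hout w hw, hin z hz w (hcut.out z hz hzX w hwU.1.1 hw hzw), if_neg hwU.2]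
    refine ⟨Option α, l', ?_, ?_⟩
    · intro v hv w hw hvw
      rcases hmem v hv with ⟨h1, h2⟩ | ⟨h1, h2⟩ <;> rcases hmem w hw with ⟨h3, h4⟩ | ⟨h3, h4⟩
      · exact hcong v h1 w h3 (hcut.con v h1 h2 w h3 h4 hvw)
      · exact hmix v h1 h2 w h3 h4 hvw
      · exact (hmix w h3 h4 v h1 h2 hvw.symm).symm
      · rw [hout v h1, hout w h3, hl v h2 w h4 hvw]
    · intro x
      cases x with
      | none =>
        refine le_trans (Finset.sum_le_sum_of_subset ?_) hM
        intro z hz
        replace hz := mem_fil _ _ _ _ hz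
        by_contra hzP
        rw [hout z hzP] at hz
        exact absurd hz.2 (by simp)
      | some x =>
        refine le_trans ?_ (hlM x)
        unfold mv
        rw [Finset.sum_add_distrib, extra, ← Finset.sum_union]
        · refine Finset.sum_le_sum_of_subset ?_
          intro z hz
          replace hz := mem_fil _ _ _ _ hz
          rw [Finset.mem_union, Finset.mem_filter, Finset.mem_filter]
          rcases hmem z hz.1 with ⟨h1, h2⟩ | ⟨h1, h2⟩
          · right
            refine ⟨Finset.mem_sdiff.2 ⟨h1, h2⟩, ?_⟩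
            cases hg : g z with
            | none =>
              rw [hinn z h1 hg] at hz
              exact absurd hz.2 (by simp)
            | some y =>
              have h5 := hz.2
              rw [hin z h1 y hg] at h5
              by_cases hyD : y ∈ D
              · rw [if_pos hyD] at h5
                exact absurd h5 (by simp)
              · rw [if_neg hyD] at h5
                have hy := hcut.mem z h1 h2 y hg
                refine ⟨y, ?_, rfl⟩
                rw [Finset.mem_filter]
                exact ⟨Finset.mem_sdiff.2 ⟨Finset.mem_sdiff.2 hy, hyD⟩, Option.some.inj h5⟩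
          · left
            refine ⟨h2, ?_⟩
            have h5 := hz.2
            rw [hout z h1] at h5
            exact Option.some.inj h5
        · rw [Finset.disjoint_left]
          intro z h1 h2
          rw [Finset.mem_filter, Finset.mem_sdiff, Finset.mem_sdiff] at h1
          rw [Finset.mem_filter, Finset.mem_sdiff] at h2
          exact h1.1.1.2 h2.1.1

end Pool.Agent.Lib.MP4d044e.UB
end

section
/-!
# MP_4d044e_co, upper bound: module MGA (merging a family with at most two outgoing edges)
-/
open Classical Finset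

namespace Pool.Agent.Lib.MP4d044e.UB

theorem specMGA (hCUT : SpecCUT) (hCUK : SpecCUK) (hFAB : SpecFAB) : SpecMGA := by
  intro V G b ε M U Q m W0 hb1 hF hW0 h2 h2b hd2 hmin hres
  obtain ⟨c, D, hD, hc0, hc2, hc4, hz, ht, hcard, hlab⟩ := hres
  obtain ⟨hf1, hf2, hf3⟩ := hFAB V G U Q hF
  have hne0 : W0.Nonempty := Finset.card_pos.1 (by omega)
  obtain ⟨hF', hnot, -⟩ := hf3 W0 hW0 hne0 (by omega)
  obtain ⟨hk1, -, -, -⟩ := hCUK V G U
  have hU0 : un W0 ⊆ U := (hf1 W0 hW0).1
  have hlight0 : Light G U (un W0) := by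
    obtain ⟨X, g, hc, hcut⟩ := hk1 (un W0) 1 hU0 (by omega)
    exact ⟨X, g, hc, hcut⟩
  have hP0 : un W0 ∈ insert (un W0) (Q \ W0) := Finset.mem_insert_self _ _
  have hc00 : c (un W0) = 0 := by
    have h1 := hz {un W0} (Finset.singleton_subset_iff.2 hP0) (by simpa using hb1) (by
      have : un ({un W0} : Finset (Finset V)) = un W0 := by simp [un]
      rw [this]; exact hd2)
    simpa using h1
  let c' : Finset V → ℝ := fun P => if P ∈ W0 then 0 else c P
  have hsum : ∀ W : Finset (Finset V), ∑ P ∈ W, c' P = ∑ P ∈ W \ W0, c P := by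
    intro W
    have e : W \ W0 = W.filter fun P => P ∉ W0 := by
      ext P; simp only [Finset.mem_sdiff, Finset.mem_filter]
    rw [e, Finset.sum_filter]
    refine Finset.sum_congr rfl fun P _ => ?_
    by_cases h : P ∈ W0
    · simp [c', h]
    · simp [c', h]
  -- the family `W'`
  have hsub' : ∀ W ⊆ Q, insert (un W0) (W \ W0) ⊆ insert (un W0) (Q \ W0) := fun W hW =>
    Finset.insert_subset_insert _ (Finset.sdiff_subset_sdiff hW (Finset.Subset.refl _))
  have hun : ∀ W ⊆ Q, un (insert (un W0) (W \ W0)) = un W ∪ un W0 := by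
    intro W hW
    have h1 := ((hf1 W hW).2.2 W0 hW0).2.2
    have h3 : un (insert (un W0) (W \ W0)) = un W0 ∪ un (W \ W0) := by
      unfold un
      rw [Finset.biUnion_insert]
      rfl
    rw [h3, h1]
    ext x
    simp only [Finset.mem_union, Finset.mem_sdiff]
    tauto
  have hdd : ∀ W ⊆ Q, W.card ≤ b → (W ∩ W0).Nonempty →
      dd G U (un (insert (un W0) (W \ W0))) ≤ dd G U (un W) ∧
        (insert (un W0) (W \ W0)).card ≤ W.card := by
    intro W hW hb hI
    constructor
    · rw [hun W hW]
      have h1 := (hCUT V G U (un W) (un W0) (hf1 W hW).1 hU0).1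
      rw [← ((hf1 W hW).2.2 W0 hW0).2.1] at h1
      have h3 := hmin (W ∩ W0) (Finset.inter_subset_left.trans hW) hI
        ((Finset.card_le_card Finset.inter_subset_left).trans (by omega))
      omega
    · have h1 : (insert (un W0) (W \ W0)).card ≤ (W \ W0).card + 1 := Finset.card_insert_le _ _
      have h3 : (W \ W0).card + (W ∩ W0).card = W.card := Finset.card_sdiff_add_card_inter W W0
      have h4 : 0 < (W ∩ W0).card := Finset.card_pos.2 hI
      omega
  have hle : ∀ W ⊆ Q, ∑ P ∈ W \ W0, c P ≤ ∑ P ∈ insert (un W0) (W \ W0), c P := fun W _ =>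
    Finset.sum_le_sum_of_subset_of_nonneg (Finset.subset_insert _ _) fun P _ _ => hc0 P
  have hdis : ∀ W ⊆ Q, ¬ (W ∩ W0).Nonempty → W \ W0 = W ∧ W ⊆ insert (un W0) (Q \ W0) := by
    intro W hW hI
    have h1 : W \ W0 = W := by
      rw [Finset.sdiff_eq_self_iff_disjoint, Finset.disjoint_iff_inter_eq_empty]
      exact Finset.not_nonempty_iff_eq_empty.1 hI
    refine ⟨h1, ?_⟩
    rw [← h1]
    exact (Finset.sdiff_subset_sdiff hW (Finset.Subset.refl _)).trans (Finset.subset_insert _ _)
  refine ⟨c', D, hD, ?_, ?_, ?_, ?_, ?_, ?_, hlab⟩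
  · intro P
    by_cases h : P ∈ W0
    · simp [c', h]
    · simp only [c', if_neg h]
      exact hc0 P
  · intro P hP
    by_cases h : P ∈ W0
    · simp [c', h]
    · simp only [c', if_neg h]
      exact hc2 P (Finset.mem_insert_of_mem (Finset.mem_sdiff.2 ⟨hP, h⟩))
  · intro P hP hl
    by_cases h : P ∈ W0
    · simp [c', h]
    · simp only [c', if_neg h]
      exact hc4 P (Finset.mem_insert_of_mem (Finset.mem_sdiff.2 ⟨hP, h⟩)) hl
  · intro W hW hb hd
    rw [hsum]
    by_cases hI : (W ∩ W0).Nonempty
    · obtain ⟨h1, h3⟩ := hdd W hW hb hI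
      have h4 := hz (insert (un W0) (W \ W0)) (hsub' W hW) (h3.trans hb) (h1.trans hd)
      have h5 := hle W hW
      rw [h4] at h5
      exact le_antisymm h5 (Finset.sum_nonneg fun P _ => hc0 P)
    · obtain ⟨h1, h3⟩ := hdis W hW hI
      rw [h1]
      exact hz W h3 hb hd
  · intro W hW hl hb hd
    rw [hsum]
    by_cases hI : (W ∩ W0).Nonempty
    · obtain ⟨h1, h3⟩ := hdd W hW hb hI
      refine (hle W hW).trans (ht (insert (un W0) (W \ W0)) (hsub' W hW) ?_ (h3.trans hb) (h1.trans hd))
      intro P hP
      rw [Finset.mem_insert] at hP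
      rcases hP with hP | hP
      · rw [hP]; exact hlight0
      · exact hl P (Finset.mem_sdiff.1 hP).1
    · obtain ⟨h1, h3⟩ := hdis W hW hI
      rw [h1]
      exact ht W h3 hl hb hd
  · rw [hsum]
    rw [Finset.sum_insert hnot, hc00, zero_add] at hcard
    exact hcard

end Pool.Agent.Lib.MP4d044e.UB
end

section
/-!
# MP_4d044e_co, upper bound: module MGB (merging a part with two outgoing edges into a neighbour)
-/
open Classical Finset

namespace Pool.Agent.Lib.MP4d044e.UB

theorem specMGB (hEEB : SpecEEB) (hCUT : SpecCUT) (hCUK : SpecCUK) (hFAB : SpecFAB) : SpecMGB := by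
  intro V G b ε M U Q m s x hb1 hF hs hx hsx hs2 hsx1 hmin hres
  obtain ⟨c, D, hD, hc0, hc2, hc4, hz, ht, hcard, hlab⟩ := hres
  obtain ⟨-, -, hcomm, hadd, hmono, -, -, -, -, -⟩ := hEEB V G
  obtain ⟨hf1, hf2, hf3⟩ := hFAB V G U Q hF
  have hsU : s ⊆ U := (hf2 s hs).2.1
  have hxU : x ⊆ U := (hf2 x hx).2.1
  have hdj : Disjoint s x := hF.dis s hs x hx hsx
  -- the merged family
  have hW0 : ({s, x} : Finset (Finset V)) ⊆ Q := by
    intro P hP
    rw [Finset.mem_insert, Finset.mem_singleton] at hP
    rcases hP with rfl | rfl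
    · exact hs
    · exact hx
  have hunW0 : un ({s, x} : Finset (Finset V)) = s ∪ x := by
    simp [un]
  have hQW0 : Q \ {s, x} = (Q.erase s).erase x := by
    ext P
    simp only [Finset.mem_sdiff, Finset.mem_insert, Finset.mem_singleton, Finset.mem_erase]
    tauto
  have hddP0 : dd G U (s ∪ x) = dd G U x := by
    have := (hCUT V G U s x hsU hxU).2.2.2.1 hdj
    omega
  obtain ⟨hF', hnot, -⟩ := hf3 {s, x} hW0 (Finset.insert_nonempty _ _) (by
    rw [hunW0, hddP0]; exact hF.le x hx)
  rw [hunW0, hQW0] at hF' hnot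
  set P0 := s ∪ x with hP0
  set R := (Q.erase s).erase x with hR
  have hP0mem : P0 ∈ insert P0 R := Finset.mem_insert_self _ _
  have hRmem : ∀ P ∈ Q, P ≠ s → P ≠ x → P ∈ R := fun P hP h1 h2 =>
    Finset.mem_erase.2 ⟨h2, Finset.mem_erase.2 ⟨h1, hP⟩⟩
  have hlight0 : Light G U x → Light G U P0 := (hCUK V G U).2.2.2 s x hsU hxU hdj hs2 hsx1
  let c' : Finset V → ℝ := fun P => if P = s then 0 else if P = x then c P0 else c P
  have c's : c' s = 0 := by simp [c']
  have c'x : c' x = c P0 := by simp [c', hsx.symm]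
  have c'o : ∀ P, P ≠ s → P ≠ x → c' P = c P := by
    intro P h1 h2
    simp [c', h1, h2]
  have un1 : ∀ P : Finset V, un ({P} : Finset (Finset V)) = P := by
    intro P
    simp [un]
  have hsmall : ∀ W ⊆ Q, W.card ≤ b → dd G U (un W) ≤ 2 → W.card ≤ 1 := by
    intro W hW hb hd
    by_contra hc
    have := hmin W hW (by omega) (by omega)
    omega
  refine ⟨c', D, hD, ?_, ?_, ?_, ?_, ?_, ?_, hlab⟩
  · intro P
    by_cases h : P = s
    · rw [h, c's]
    · by_cases h' : P = x
      · rw [h', c'x]; exact hc0 _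
      · rw [c'o P h h']; exact hc0 _
  · intro P hP
    by_cases h : P = s
    · rw [h, c's]; norm_num
    · by_cases h' : P = x
      · rw [h', c'x]; exact hc2 _ hP0mem
      · rw [c'o P h h']; exact hc2 P (Finset.mem_insert_of_mem (hRmem P hP h h'))
  · intro P hP hl
    by_cases h : P = s
    · rw [h, c's]; norm_num
    · by_cases h' : P = x
      · rw [h', c'x]; exact hc4 _ hP0mem (hlight0 (h' ▸ hl))
      · rw [c'o P h h']; exact hc4 P (Finset.mem_insert_of_mem (hRmem P hP h h')) hl
  · intro W hW hb hd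
    have h1 := hsmall W hW hb hd
    refine Finset.sum_eq_zero fun P hP => ?_
    have hWP : W = {P} := Finset.eq_singleton_iff_unique_mem.2
      ⟨hP, fun P' hP' => Finset.card_le_one.1 h1 P' hP' P hP⟩
    rw [hWP, un1] at hd
    by_cases h : P = s
    · rw [h, c's]
    · by_cases h' : P = x
      · rw [h', c'x]
        have := hz {P0} (Finset.singleton_subset_iff.2 hP0mem) (by simpa using hb1) (by
          rw [un1, hddP0, ← h']; exact hd)
        simpa using this
      · rw [c'o P h h']
        have := hz {P} (Finset.singleton_subset_iff.2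
          (Finset.mem_insert_of_mem (hRmem P (hW hP) h h'))) (by simpa using hb1) (by
          rw [un1]; exact hd)
        simpa using this
  · intro W hW hl hb hd
    by_cases hsW : s ∈ W
    · by_cases hxW : x ∈ W
      · -- both
        set W1 := (W.erase s).erase x with hW1
        have hW1R : W1 ⊆ R := Finset.erase_subset_erase _ (Finset.erase_subset_erase _ hW)
        have hP0W1 : P0 ∉ W1 := fun h => hnot (hW1R h)
        have hxe : x ∈ W.erase s := Finset.mem_erase.2 ⟨hsx.symm, hxW⟩
        have e1 : ∑ P ∈ W, c' P = ∑ P ∈ insert P0 W1, c P := by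
          rw [← Finset.add_sum_erase W c' hsW, c's, zero_add, ← Finset.add_sum_erase _ c' hxe, c'x,
            Finset.sum_insert hP0W1]
          congr 1
          refine Finset.sum_congr rfl fun P hP => ?_
          rw [Finset.mem_erase, Finset.mem_erase] at hP
          exact c'o P hP.2.1 hP.1
        rw [e1]
        refine ht _ (Finset.insert_subset_insert _ hW1R) ?_ ?_ ?_
        · intro P hP
          rw [Finset.mem_insert] at hP
          rcases hP with rfl | hP
          · exact hlight0 (hl x hxW)
          · exact hl P (Finset.mem_of_mem_erase (Finset.mem_of_mem_erase hP))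
        · rw [Finset.card_insert_of_notMem hP0W1]
          have h3 : W1.card + 1 = (W.erase s).card := Finset.card_erase_add_one hxe
          have h4 : (W.erase s).card + 1 = W.card := Finset.card_erase_add_one hsW
          omega
        · have : un (insert P0 W1) = un W := by
            have h3 : W = insert s (insert x W1) := by
              rw [hW1, Finset.insert_erase hxe, Finset.insert_erase hsW]
            rw [h3]
            unfold un
            rw [Finset.biUnion_insert, Finset.biUnion_insert, Finset.biUnion_insert, ← Finset.union_assoc]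
            rfl
          rw [this]
          exact hd
      · -- `s ∈ W`, `x ∉ W`
        set W1 := W.erase s with hW1
        have hW1Q : W1 ⊆ Q := (Finset.erase_subset _ _).trans hW
        have hW1R : W1 ⊆ R := by
          intro P hP
          rw [hW1, Finset.mem_erase] at hP
          exact hRmem P (hW hP.2) hP.1 fun h => hxW (h ▸ hP.2)
        have e1 : ∑ P ∈ W, c' P = ∑ P ∈ W1, c P := by
          rw [← Finset.add_sum_erase W c' hsW, c's, zero_add]
          refine Finset.sum_congr rfl fun P hP => ?_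
          rw [Finset.mem_erase] at hP
          exact c'o P hP.1 fun h => hxW (h ▸ hP.2)
        rw [e1]
        have hunW1 : un W1 = un W \ s := (hf2 s hs).2.2 W hW
        have hdj1 : Disjoint (un W1) s := by
          rw [hunW1]; exact Finset.sdiff_disjoint
        have hunW : un W = un W1 ∪ s := by
          rw [hunW1]
          have : s ⊆ un W := by
            intro v hv
            unfold un
            exact Finset.mem_biUnion.2 ⟨s, hsW, hv⟩
          exact (Finset.sdiff_union_of_subset this).symm
        have hun1U : un W1 ⊆ U := (hf1 W1 hW1Q).1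
        have h3 := (hCUT V G U (un W1) s hun1U hsU).2.2.2.1 hdj1
        rw [← hunW] at h3
        -- `ee (un W1) s ≤ 1`
        have h4 : ee G (un W1) s ≤ 1 := by
          have h5 : Disjoint (un W1) x := by
            rw [hunW1, Finset.disjoint_left]
            intro v hv hvx
            rw [Finset.mem_sdiff] at hv
            unfold un at hv
            obtain ⟨P, hP, hvP⟩ := Finset.mem_biUnion.1 hv.1
            have : P ≠ x := fun h => hxW (h ▸ hP)
            exact Finset.disjoint_left.1 (hF.dis P (hW hP) x hx this) hvP hvx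
          have h6 : un W1 ∪ x ⊆ U \ s := by
            intro v hv
            rw [Finset.mem_sdiff]
            rcases Finset.mem_union.1 hv with hv | hv
            · exact ⟨hun1U hv, fun hvs => Finset.disjoint_left.1 hdj1 hv hvs⟩
            · exact ⟨hxU hv, fun hvs => Finset.disjoint_left.1 hdj hvs hv⟩
          have h7 : ee G s (un W1 ∪ x) ≤ ee G s (U \ s) := hmono _ _ _ _ (Finset.Subset.refl _) h6
          rw [(hadd (un W1) x s h5).2] at h7
          have h8 : ee G s (U \ s) = 2 := hs2
          rw [hcomm (un W1) s]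
          omega
        refine ht _ (hW1R.trans (Finset.subset_insert _ _)) ?_ ?_ (by omega)
        · exact fun P hP => hl P (Finset.mem_of_mem_erase hP)
        · exact (Finset.card_le_card (Finset.erase_subset _ _)).trans hb
    · by_cases hxW : x ∈ W
      · -- `x ∈ W`, `s ∉ W`
        set W1 := W.erase x with hW1
        have hW1R : W1 ⊆ R := by
          intro P hP
          rw [hW1, Finset.mem_erase] at hP
          exact hRmem P (hW hP.2) (fun h => hsW (h ▸ hP.2)) hP.1
        have hP0W1 : P0 ∉ W1 := fun h => hnot (hW1R h)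
        have e1 : ∑ P ∈ W, c' P = ∑ P ∈ insert P0 W1, c P := by
          rw [← Finset.add_sum_erase W c' hxW, c'x, Finset.sum_insert hP0W1]
          congr 1
          refine Finset.sum_congr rfl fun P hP => ?_
          rw [Finset.mem_erase] at hP
          exact c'o P (fun h => hsW (h ▸ hP.2)) hP.1
        rw [e1]
        refine ht _ (Finset.insert_subset_insert _ hW1R) ?_ ?_ ?_
        · intro P hP
          rw [Finset.mem_insert] at hP
          rcases hP with rfl | hP
          · exact hlight0 (hl x hxW)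
          · exact hl P (Finset.mem_of_mem_erase hP)
        · rw [Finset.card_insert_of_notMem hP0W1]
          have h4 : W1.card + 1 = W.card := Finset.card_erase_add_one hxW
          omega
        · have hunW : un (insert P0 W1) = un W ∪ s := by
            have h3 : W = insert x W1 := by
              rw [hW1, Finset.insert_erase hxW]
            rw [h3]
            unfold un
            rw [Finset.biUnion_insert, Finset.biUnion_insert]
            simp only [id]
            rw [hP0]
            ext v
            simp only [Finset.mem_union]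
            tauto
          rw [hunW]
          have hUW : un W ⊆ U := (hf1 W hW).1
          have hdj2 : Disjoint (un W) s := by
            rw [Finset.disjoint_left]
            intro v hv hvs
            unfold un at hv
            obtain ⟨P, hP, hvP⟩ := Finset.mem_biUnion.1 hv
            have : P ≠ s := fun h => hsW (h ▸ hP)
            exact Finset.disjoint_left.1 (hF.dis P (hW hP) s hs this) hvP hvs
          have h3 := (hCUT V G U (un W) s hUW hsU).2.2.2.1 hdj2
          have hxun : x ⊆ un W := by
            intro v hv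
            unfold un
            exact Finset.mem_biUnion.2 ⟨x, hxW, hv⟩
          have h4 : ee G x s ≤ ee G (un W) s := hmono _ _ _ _ hxun (Finset.Subset.refl _)
          rw [hcomm x s, hsx1] at h4
          omega
      · -- neither
        have e1 : ∑ P ∈ W, c' P = ∑ P ∈ W, c P := by
          refine Finset.sum_congr rfl fun P hP => ?_
          exact c'o P (fun h => hsW (h ▸ hP)) (fun h => hxW (h ▸ hP))
        rw [e1]
        refine ht W ?_ hl hb hd
        intro P hP
        exact Finset.mem_insert_of_mem (hRmem P (hW hP) (fun h => hsW (h ▸ hP)) (fun h => hxW (h ▸ hP)))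
  · have hxe : x ∈ Q.erase s := Finset.mem_erase.2 ⟨hsx.symm, hx⟩
    have e1 : ∑ P ∈ Q, c' P = ∑ P ∈ insert P0 R, c P := by
      rw [← Finset.add_sum_erase Q c' hs, c's, zero_add, ← Finset.add_sum_erase _ c' hxe, c'x,
        Finset.sum_insert hnot]
      congr 1
      refine Finset.sum_congr rfl fun P hP => ?_
      rw [Finset.mem_erase, Finset.mem_erase] at hP
      exact c'o P hP.2.1 hP.1
    rw [e1]
    exact hcard

end Pool.Agent.Lib.MP4d044e.UB
end

section
/-!
# MP_4d044e_co, upper bound: module MGC (merging a maximal family of light parts)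
-/
open Classical Finset

namespace Pool.Agent.Lib.MP4d044e.UB

theorem specMGC (hCUT : SpecCUT) (hFAB : SpecFAB) : SpecMGC := by
  intro V G b ε M U Q m W0 hF hW0 h2 hbW hlW hd3 hmax hmin hres
  obtain ⟨c, D, hD, hc0, hc2, hc4, hz, ht, hcard, hlab⟩ := hres
  obtain ⟨hf1, hf2, hf3⟩ := hFAB V G U Q hF
  have hne0 : W0.Nonempty := Finset.card_pos.1 (by omega)
  obtain ⟨hF', hnot, -⟩ := hf3 W0 hW0 hne0 (by omega)
  have hU0 : un W0 ⊆ U := (hf1 W0 hW0).1
  have hP0 : un W0 ∈ insert (un W0) (Q \ W0) := Finset.mem_insert_self _ _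
  have hn : (2 : ℝ) ≤ (W0.card : ℝ) := by exact_mod_cast h2
  have hn0 : (0 : ℝ) < (W0.card : ℝ) := by linarith
  have hcP0 := hc2 _ hP0
  have hcP00 := hc0 (un W0)
  let c' : Finset V → ℝ := fun P => if P ∈ W0 then c (un W0) / W0.card else c P
  have hq : c (un W0) / W0.card ≤ 1 / 4 := by
    rw [div_le_iff₀ hn0]
    nlinarith
  have hq0 : 0 ≤ c (un W0) / W0.card := div_nonneg hcP00 hn0.le
  have hsum : ∀ W : Finset (Finset V),
      ∑ P ∈ W, c' P = ∑ P ∈ W \ W0, c P + (W ∩ W0).card * (c (un W0) / W0.card) := by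
    intro W
    rw [← Finset.sum_sdiff (Finset.inter_subset_left : W ∩ W0 ⊆ W), Finset.sdiff_inter_self_left]
    congr 1
    · refine Finset.sum_congr rfl fun P hP => ?_
      simp only [c', if_neg (Finset.mem_sdiff.1 hP).2]
    · rw [Finset.sum_congr rfl (g := fun _ => c (un W0) / W0.card), Finset.sum_const, nsmul_eq_mul]
      intro P hP
      simp only [c', if_pos (Finset.mem_inter.1 hP).2]
  have hsubs : ∀ W ⊆ Q, W \ W0 ⊆ insert (un W0) (Q \ W0) := fun W hW =>
    (Finset.sdiff_subset_sdiff hW (Finset.Subset.refl _)).trans (Finset.subset_insert _ _)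
  refine ⟨c', D, hD, ?_, ?_, ?_, ?_, ?_, ?_, hlab⟩
  · intro P
    by_cases h : P ∈ W0
    · simp only [c', if_pos h]; exact hq0
    · simp only [c', if_neg h]
      exact hc0 P
  · intro P hP
    by_cases h : P ∈ W0
    · simp only [c', if_pos h]; linarith
    · simp only [c', if_neg h]
      exact hc2 P (Finset.mem_insert_of_mem (Finset.mem_sdiff.2 ⟨hP, h⟩))
  · intro P hP hl
    by_cases h : P ∈ W0
    · simp only [c', if_pos h]; exact hq
    · simp only [c', if_neg h]
      exact hc4 P (Finset.mem_insert_of_mem (Finset.mem_sdiff.2 ⟨hP, h⟩)) hl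
  · intro W hW hb hd
    have hW0' : W = ∅ := by
      by_contra hne
      have := hmin W hW (Finset.nonempty_iff_ne_empty.2 hne) (by omega)
      omega
    rw [hW0']
    simp
  · intro W hW hl hb hd
    by_cases hWe : W = ∅
    · rw [hWe]; norm_num
    have hWne := Finset.nonempty_iff_ne_empty.2 hWe
    have hWd : dd G U (un W) = 3 := by
      have := hmin W hW hWne (by omega)
      omega
    by_cases hI : (W ∩ W0).Nonempty
    · by_cases hs : W ⊆ W0
      · have e1 : W \ W0 = ∅ := Finset.sdiff_eq_empty_iff_subset.2 hs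
        have e2 : W ∩ W0 = W := Finset.inter_eq_left.2 hs
        rw [hsum, e1, e2, Finset.sum_empty, zero_add]
        have h5 : (W.card : ℝ) ≤ W0.card := by exact_mod_cast Finset.card_le_card hs
        calc (W.card : ℝ) * (c (un W0) / W0.card) ≤ W0.card * (c (un W0) / W0.card) :=
              mul_le_mul_of_nonneg_right h5 hq0
          _ = c (un W0) := by field_simp
          _ ≤ 1 / 2 := hcP0
      · exfalso
        have h6 := hmax W hW hl hb hWd
        have hn1 : (W \ W0).Nonempty := Finset.sdiff_nonempty.2 hs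
        have hn2 : (W0 \ W).Nonempty := by
          rw [Finset.sdiff_nonempty]
          intro h7
          exact hs ((Finset.eq_of_subset_of_card_le h7 h6).symm.subset)
        obtain ⟨e1, e2, e3⟩ := (hf1 W hW).2.2 W0 hW0
        have e4 := ((hf1 W0 hW0).2.2 W hW).2.2
        have hu := hmin (W ∪ W0) (Finset.union_subset hW hW0) (hWne.mono Finset.subset_union_left)
          ((Finset.card_union_le W W0).trans (by omega))
        have hi := hmin (W ∩ W0) (Finset.inter_subset_left.trans hW) hI
          ((Finset.card_le_card Finset.inter_subset_left).trans (by omega))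
        have h7 := hmin (W \ W0) (Finset.sdiff_subset.trans hW) hn1
          ((Finset.card_le_card Finset.sdiff_subset).trans (by omega))
        have h8 := hmin (W0 \ W) (Finset.sdiff_subset.trans hW0) hn2
          ((Finset.card_le_card Finset.sdiff_subset).trans (by omega))
        rw [e1] at hu
        rw [e2] at hi
        rw [e3] at h7
        rw [e4] at h8
        exact (hCUT V G U (un W) (un W0) (hf1 W hW).1 hU0).2.2.1 ⟨hWd, hd3, hu, hi, h7, h8⟩
    · have hI' := Finset.not_nonempty_iff_eq_empty.1 hI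
      have e1 : W \ W0 = W := by
        rw [Finset.sdiff_eq_self_iff_disjoint, Finset.disjoint_iff_inter_eq_empty]
        exact hI'
      rw [hsum, e1, hI']
      have := ht W (e1 ▸ hsubs W hW) hl hb hd
      simpa using this
  · rw [hsum]
    rw [Finset.sum_insert hnot] at hcard
    have e2 : Q ∩ W0 = W0 := Finset.inter_eq_right.2 hW0
    rw [e2]
    have e3 : (W0.card : ℝ) * (c (un W0) / W0.card) = c (un W0) := by field_simp
    rw [e3]
    linarith

end Pool.Agent.Lib.MP4d044e.UB
end

section
/-!
# MP_4d044e_co, upper bound: module MXK (maximizers)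
-/
open Classical Finset

namespace Pool.Agent.Lib.MP4d044e.UB

theorem specMXK (hDEL : SpecDEL) (hADD : SpecADD) : SpecMXK := by
  intro V _ G B
  refine ⟨?_, ?_⟩
  · obtain ⟨R0, -, h0⟩ := Finset.exists_max_image (Finset.univ : Finset (Finset V))
      (psi G B) ⟨∅, Finset.mem_univ _⟩
    obtain ⟨R, hR, h1⟩ := Finset.exists_max_image
      ((Finset.univ : Finset (Finset V)).filter fun S => psi G B S = psi G B R0)
      Finset.card ⟨R0, Finset.mem_filter.2 ⟨Finset.mem_univ _, rfl⟩⟩
    rw [Finset.mem_filter] at hR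
    refine ⟨R, ⟨fun S => ?_, fun S hS => ?_⟩⟩
    · rw [hR.2]
      exact h0 S (Finset.mem_univ S)
    · exact h1 S (Finset.mem_filter.2 ⟨Finset.mem_univ S, hS.trans hR.2⟩)
  · intro R hR
    refine ⟨fun u hu => ?_, fun a ha hQ => ?_⟩
    · by_contra hc
      have h1 := hADD V G B R u hu
      have h2 := hR.max (insert u R)
      have h3 : (R.card : ℕ) < (insert u R).card := by
        rw [Finset.card_insert_of_notMem hu]; omega
      by_cases he : psi G B (insert u R) = psi G B R
      · have := hR.big (insert u R) he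
        omega
      · have h4 : psi G B (insert u R) < psi G B R := lt_of_le_of_ne h2 he
        have h5 : (0 : ℤ) ≤ min (6 - 2 * kap G B R u) 4 := by
          apply le_min
          · omega
          · norm_num
        omega
    · obtain ⟨-, -, h1⟩ := hDEL V G B R a ha
      have h2 := hR.max (R.erase a)
      have h3 : ((ST G B R).filter fun Q => a ∈ Q) = ∅ := by
        rw [Finset.filter_eq_empty_iff]
        exact fun Q hQ' => hQ Q hQ'
      rw [h3] at h1
      simp at h1
      omega

end Pool.Agent.Lib.MP4d044e.UB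
end

section
/-!
# MP_4d044e_co, upper bound: module NUM
-/
open Classical Finset

namespace Pool.Agent.Lib.MP4d044e.UB

namespace NUMM

theorem dpos {x : ℝ} (hx : 4 ≤ x) : 0 < x ^ 2 - x - 4 := by nlinarith

/-- The step. -/
theorem step {x : ℝ} (hx : 4 ≤ x) :
    x * ((7 * (x + 1) - 18) / (2 * ((x + 1) ^ 2 - (x + 1) - 4))) +
      (7 * x - 18) / (2 * (x ^ 2 - x - 4)) <
    (x + 2) * ((7 * (x + 2) - 18) / (2 * ((x + 2) ^ 2 - (x + 2) - 4))) := by
  have h0 : 0 < x ^ 2 - x - 4 := dpos hx
  have h1 : 0 < (x + 1) ^ 2 - (x + 1) - 4 := dpos (by linarith)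
  have h2 : 0 < (x + 2) ^ 2 - (x + 2) - 4 := dpos (by linarith)
  have hN : 0 < 16 - 60 * x + 62 * x ^ 2 - 26 * x ^ 3 + 4 * x ^ 4 := by
    obtain ⟨y, rfl⟩ : ∃ y, x = y + 4 := ⟨x - 4, by ring⟩
    have hy : 0 ≤ y := by linarith
    have : 16 - 60 * (y + 4) + 62 * (y + 4) ^ 2 - 26 * (y + 4) ^ 3 + 4 * (y + 4) ^ 4 =
      128 + 212 * y + 134 * y ^ 2 + 38 * y ^ 3 + 4 * y ^ 4 := by ring
    rw [this]
    positivity
  obtain ⟨D0, hD0⟩ : ∃ D, D = x ^ 2 - x - 4 := ⟨_, rfl⟩
  obtain ⟨D1, hD1⟩ : ∃ D, D = (x + 1) ^ 2 - (x + 1) - 4 := ⟨_, rfl⟩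
  obtain ⟨D2, hD2⟩ : ∃ D, D = (x + 2) ^ 2 - (x + 2) - 4 := ⟨_, rfl⟩
  rw [← hD0] at h0 ⊢
  rw [← hD1] at h1 ⊢
  rw [← hD2] at h2 ⊢
  rw [← sub_pos]
  have e : (x + 2) * ((7 * (x + 2) - 18) / (2 * D2)) -
      (x * ((7 * (x + 1) - 18) / (2 * D1)) + (7 * x - 18) / (2 * D0)) =
      (16 - 60 * x + 62 * x ^ 2 - 26 * x ^ 3 + 4 * x ^ 4) / (2 * D0 * D1 * D2) := by
    have h0' := h0.ne'
    have h1' := h1.ne'
    have h2' := h2.ne'
    field_simp
    rw [hD0, hD1, hD2]
    ring
  rw [e]
  positivity

theorem lam_one_sub {d : ℕ} (hd : 5 ≤ d) :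
    ((d : ℝ) - 2) * (2 * d - 5) / (2 * ((d : ℝ) ^ 2 - d - 4)) = 1 - lam d := by
  have hx : (5 : ℝ) ≤ d := by exact_mod_cast hd
  have h0 : 0 < (d : ℝ) ^ 2 - d - 4 := dpos (by linarith)
  unfold lam
  obtain ⟨D0, hD0⟩ : ∃ D, D = (d : ℝ) ^ 2 - d - 4 := ⟨_, rfl⟩
  rw [← hD0] at h0 ⊢
  have h0' := h0.ne'
  field_simp
  rw [hD0]
  ring

theorem rr_eq {d : ℕ} (hd : 5 ≤ d) :
    rr d = (2 * (d : ℝ) - 5) / (2 * ((d : ℝ) ^ 2 - d - 4)) := by
  have hx : (5 : ℝ) ≤ d := by exact_mod_cast hd
  have h2 : (d : ℝ) - 2 ≠ 0 := by linarith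
  unfold rr
  rw [← lam_one_sub hd]
  have h0 : 0 < (d : ℝ) ^ 2 - d - 4 := dpos (by linarith)
  field_simp

theorem ind (g : ℕ → ℝ) (g2 : g 2 = 0) (g3 : g 3 = 1 / 4)
    (hg : ∀ k : ℕ, 4 ≤ k → (k : ℝ) * g k = ((k : ℝ) - 2) * g (k - 1) + g (k - 2) + 1) :
    ∀ t : ℕ, 1 - lam (t + 4) ≤ g (t + 4) ∧ 1 - lam (t + 5) < g (t + 5) := by
  have g4 : g 4 = 3 / 8 := by
    have := hg 4 le_rfl
    norm_num [g2, g3] at this
    linarith
  have g5 : g 5 = 19 / 40 := by
    have := hg 5 (by norm_num)
    norm_num [g3, g4] at this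
    linarith
  intro t
  induction t with
  | zero =>
    constructor
    · show 1 - lam 4 ≤ g 4
      rw [g4]
      unfold lam
      norm_num
    · show 1 - lam 5 < g 5
      rw [g5]
      unfold lam
      norm_num
  | succ t ih =>
    refine ⟨?_, ?_⟩
    · have e : t + 1 + 4 = t + 5 := by ring
      rw [e]
      exact ih.2.le
    · have e : t + 1 + 5 = t + 6 := by ring
      rw [e]
      have h := hg (t + 6) (by omega)
      have e1 : t + 6 - 1 = t + 5 := by omega
      have e2 : t + 6 - 2 = t + 4 := by omega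
      rw [e1, e2] at h
      push_cast at h
      have hs := step (x := (t : ℝ) + 4) (by
        have : (0 : ℝ) ≤ t := Nat.cast_nonneg t
        linarith)
      have l4 : lam (t + 4) = (7 * ((t : ℝ) + 4) - 18) / (2 * (((t : ℝ) + 4) ^ 2 - ((t : ℝ) + 4) - 4)) := by
        unfold lam
        push_cast
        rfl
      have l5 : lam (t + 5) = (7 * ((t : ℝ) + 4 + 1) - 18) /
          (2 * (((t : ℝ) + 4 + 1) ^ 2 - ((t : ℝ) + 4 + 1) - 4)) := by
        unfold lam
        push_cast
        ring_nf
      have l6 : lam (t + 6) = (7 * ((t : ℝ) + 4 + 2) - 18) /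
          (2 * (((t : ℝ) + 4 + 2) ^ 2 - ((t : ℝ) + 4 + 2) - 4)) := by
        unfold lam
        push_cast
        ring_nf
      rw [← l4, ← l5, ← l6] at hs
      have ht : (0 : ℝ) ≤ t := Nat.cast_nonneg t
      have i1 : ((t : ℝ) + 4) * (1 - lam (t + 5)) < ((t : ℝ) + 4) * g (t + 5) :=
        mul_lt_mul_of_pos_left ih.2 (by linarith)
      have i0 := ih.1
      have hlt : ((t : ℝ) + 6) * (1 - lam (t + 6)) < ((t : ℝ) + 6) * g (t + 6) := by
        nlinarith
      exact lt_of_mul_lt_mul_left hlt (by linarith)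

end NUMM

theorem specNUM : SpecNUM := by
  intro d hd
  have hx : (5 : ℝ) ≤ d := by exact_mod_cast hd
  have h0 : 0 < (d : ℝ) ^ 2 - d - 4 := NUMM.dpos (by linarith)
  have hr := NUMM.rr_eq hd
  refine ⟨NUMM.lam_one_sub hd, ?_, ?_, ?_, ?_, ?_, ?_, ?_, ?_⟩
  · unfold lam
    apply div_pos <;> linarith
  · unfold lam
    rw [div_lt_one (by positivity)]
    nlinarith
  · rw [hr]
    apply div_pos <;> linarith
  · rw [hr, div_lt_div_iff₀ (by positivity) (by norm_num)]
    nlinarith
  · rw [hr, div_le_div_iff₀ (by positivity) (by positivity)]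
    nlinarith
  · rw [hr]
    unfold lam
    have h3 : (d : ℝ) - 3 ≠ 0 := by linarith
    obtain ⟨D0, hD0⟩ : ∃ D, D = (d : ℝ) ^ 2 - d - 4 := ⟨_, rfl⟩
    rw [← hD0] at h0 ⊢
    have h0' := h0.ne'
    rw [eq_div_iff h3]
    field_simp
    rw [hD0]
    ring
  · unfold lam
    rw [div_lt_div_iff₀ (by positivity) (by positivity)]
    nlinarith
  · intro g g2 g3 hg
    have h := (NUMM.ind g g2 g3 hg (d - 5)).2
    have e : d - 5 + 5 = d := by omega
    rw [e] at h
    exact h

end Pool.Agent.Lib.MP4d044e.UB
end
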