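import Pool.Agent.Lib.MP_4d044e_co.UB.Spec

/-!
# MP_4d044e_co, upper bound: module PRA
-/

open Classical Finset

namespace Pool.Agent.Lib.MP4d044e.UB

namespace PRAM

variable {V : Type} {G : SimpleGraph V} {d B : ℕ} {R : Finset V}

theorem cc_big {a : V} (h : a ∈ CC G d B R) : a ∈ Big G d B R := (Finset.mem_filter.1 h).1

theorem big_mem {a : V} (h : a ∈ Big G d B R) : a ∈ R := (Finset.mem_filter.1 h).1

theorem mem_ST {S Q : Finset V} :
    Q ∈ ST G B S ↔ IsC G S Q ∧ Q.card ≤ B ∧ ee G Q Q + 2 = 2 * Q.card := by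
  unfold ST
  rw [Finset.mem_filter, Finset.mem_powerset]
  constructor
  · rintro ⟨_, h⟩
    exact h
  · intro h
    exact ⟨h.1.2.1, h⟩

theorem mem_Sh {S Y : Finset V} {a : V} :
    Y ∈ Sh G B S a ↔ Y ∈ ST G B (S.erase a) ∧ Tch G a Y := by
  unfold Sh
  rw [Finset.mem_filter]

/-- no element of `CC` is in a set of `Sh b`. -/
theorem cc_sh {a b : V} (ha : a ∈ CC G d B R) (hb : b ∈ CC G d B R) {Y : Finset V}
    (hY : Y ∈ Sh G B R b) : a ∉ Y := by
  intro h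
  refine (Finset.mem_filter.1 ha).2 b (cc_big hb) ?_
  unfold hg
  exact Finset.mem_biUnion.2 ⟨Y, hY, h⟩

/-- shrinking the ambient set. -/
theorem st_shrink {S S' Q : Finset V} (h : Q ∈ ST G B S) (h1 : S' ⊆ S) (h2 : Q ⊆ S') :
    Q ∈ ST G B S' := by
  rw [mem_ST] at h ⊢
  refine ⟨⟨h.1.1, h2, fun x hx y hy hxy => h.1.2.2 x hx y (h1 hy) hxy⟩, h.2⟩

/-- enlarging the ambient set by a vertex which is not touched. -/
theorem st_grow {S Q : Finset V} {a : V} (h : Q ∈ ST G B (S.erase a)) (h1 : ¬ Tch G a Q) :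
    Q ∈ ST G B S := by
  rw [mem_ST] at h ⊢
  refine ⟨⟨h.1.1, h.1.2.1.trans (Finset.erase_subset _ _), fun x hx y hy hxy => ?_⟩, h.2⟩
  by_cases hya : y = a
  · subst hya
    exact absurd ⟨x, hx, hxy.symm⟩ h1
  · exact h.1.2.2 x hx y (Finset.mem_erase.2 ⟨hya, hy⟩) hxy

theorem not_tch {S Q : Finset V} {a : V} (h : Q ∈ ST G B S) (ha : a ∈ S) (haQ : a ∉ Q) :
    ¬ Tch G a Q := by
  rintro ⟨y, hy, hay⟩
  exact haQ ((mem_ST.1 h).1.2.2 y hy a ha hay.symm)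

end PRAM

open PRAM in
theorem specPRA (hHNG : SpecHNG) : SpecPRA := by
  intro V _ G d B R hd hB hdeg a ha b hb hab
  have haBig : a ∈ Big G d B R := cc_big ha
  have hbBig : b ∈ Big G d B R := cc_big hb
  have haR : a ∈ R := big_mem haBig
  have hbR : b ∈ R := big_mem hbBig
  have hS : (R.erase a).erase b = (R.erase b).erase a := Finset.erase_right_comm
  have h9 : ∀ Q ∈ ST G B R, a ∉ Q := by
    obtain ⟨_, _, _, _, _, _, _, _, h9⟩ := hHNG V G d B R hd hB hdeg a haBig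
    exact h9
  have h9' : ∀ Q ∈ ST G B R, b ∉ Q := by
    obtain ⟨_, _, _, _, _, _, _, _, h9⟩ := hHNG V G d B R hd hB hdeg b hbBig
    exact h9
  have key : ∀ (p q : V), p ∈ CC G d B R → q ∈ CC G d B R → p ≠ q → ∀ Y ∈ Sh G B R p,
      Y ∈ ST G B ((R.erase p).erase q) ∧ ¬ Tch G q Y := by
    intro p q hp hq hpq Y hY
    have hqY : q ∉ Y := cc_sh hq hp hY
    have h1 := mem_Sh.1 hY
    refine ⟨st_shrink h1.1 (Finset.erase_subset _ _) ?_, ?_⟩
    · intro x hx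
      refine Finset.mem_erase.2 ⟨?_, (mem_ST.1 h1.1).1.2.1 hx⟩
      rintro rfl
      exact hqY hx
    · exact not_tch h1.1 (Finset.mem_erase.2 ⟨hpq.symm, big_mem (cc_big hq)⟩) hqY
  refine ⟨?_, ?_, ?_, ?_, ?_⟩
  · intro Q hQ
    refine ⟨st_shrink hQ ((Finset.erase_subset _ _).trans (Finset.erase_subset _ _)) ?_,
      not_tch hQ haR (h9 Q hQ), not_tch hQ hbR (h9' Q hQ)⟩
    intro x hx
    refine Finset.mem_erase.2 ⟨?_, Finset.mem_erase.2 ⟨?_, (mem_ST.1 hQ).1.2.1 hx⟩⟩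
    · rintro rfl
      exact h9' Q hQ hx
    · rintro rfl
      exact h9 Q hQ hx
  · exact key a b ha hb hab
  · intro Y hY
    rw [hS]
    exact key b a hb ha hab.symm Y hY
  · intro Y hY h1 h2
    rw [hS] at hY
    exact mem_Sh.2 ⟨st_grow hY h1, h2⟩
  · intro Q hQ hbQ
    by_cases h : Tch G a Q
    · exact cc_sh hb ha (mem_Sh.2 ⟨hQ, h⟩) hbQ
    · exact h9' Q (st_grow hQ h) hbQ

end Pool.Agent.Lib.MP4d044e.UB
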