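import Pool.Agent.Lib.MP_4d044e_co.UB.Spec

section
/-!
# MP_4d044e_co, upper bound: module DEL (the potential after the removal of a vertex)
-/
open Classical Finset

namespace Pool.Agent.Lib.MP4d044e.UB

namespace DELM

variable {V : Type} (G : SimpleGraph V)

theorem mem_ST (B : ℕ) (S Q : Finset V) :
    Q ∈ ST G B S ↔ IsC G S Q ∧ Q.card ≤ B ∧ ee G Q Q + 2 = 2 * Q.card := by
  unfold ST
  rw [Finset.mem_filter, Finset.mem_powerset]
  exact ⟨fun h => h.2, fun h => ⟨h.1.2.1, h⟩⟩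

/-- A component of `S - a` which does not touch `a` is a component of `S`. -/
theorem up (S Q : Finset V) (a : V) (hQ : IsC G (S.erase a) Q) (ht : ¬ Tch G a Q) : IsC G S Q := by
  refine ⟨hQ.1, hQ.2.1.trans (Finset.erase_subset a S), ?_⟩
  intro x hx y hy hxy
  by_cases hya : y = a
  · exact absurd ⟨x, hx, hya ▸ hxy.symm⟩ ht
  · exact hQ.2.2 x hx y (Finset.mem_erase.2 ⟨hya, hy⟩) hxy

/-- A component of `S` which does not contain `a` is a component of `S - a`. -/
theorem down (S Q : Finset V) (a : V) (hQ : IsC G S Q) (ha : a ∉ Q) : IsC G (S.erase a) Q := by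
  refine ⟨hQ.1, fun x hx => Finset.mem_erase.2 ⟨fun h => ha (h ▸ hx), hQ.2.1 hx⟩, ?_⟩
  intro x hx y hy hxy
  exact hQ.2.2 x hx y (Finset.mem_of_mem_erase hy) hxy

theorem not_tch (S Q : Finset V) (a : V) (haS : a ∈ S) (hQ : IsC G S Q) (ha : a ∉ Q) :
    ¬ Tch G a Q := by
  rintro ⟨y, hy, hay⟩
  exact ha (hQ.2.2 y hy a haS hay.symm)

end DELM

open DELM in
theorem specDEL (hEEB : SpecEEB) (hCNB : SpecCNB) : SpecDEL := by
  intro V G B S a haS
  obtain ⟨-, -, -, -, -, -, -, -, hera, -⟩ := hEEB V G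
  obtain ⟨-, -, -, -, -, huniq⟩ := hCNB V G
  have h1 : ∀ Q, Q ∈ ST G B (S.erase a) ↔ Q ∈ Sh G B S a ∨ (Q ∈ ST G B S ∧ a ∉ Q) := by
    intro Q
    constructor
    · intro h
      by_cases ht : Tch G a Q
      · exact Or.inl (Finset.mem_filter.2 ⟨h, ht⟩)
      · have h2 := (mem_ST G B _ Q).1 h
        refine Or.inr ⟨(mem_ST G B _ Q).2 ⟨up G S Q a h2.1 ht, h2.2⟩, fun haQ => ?_⟩
        exact Finset.notMem_erase a S (h2.1.2.1 haQ)
    · rintro (h | ⟨h, ha⟩)
      · exact (Finset.mem_filter.1 h).1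
      · have h2 := (mem_ST G B _ Q).1 h
        exact (mem_ST G B _ Q).2 ⟨down G S Q a h2.1 ha, h2.2⟩
  have h2 : ((ST G B S).filter fun Q => a ∈ Q).card ≤ 1 := by
    rw [Finset.card_le_one]
    intro Q hQ Q' hQ'
    rw [Finset.mem_filter] at hQ hQ'
    exact huniq S Q Q' ((mem_ST G B S Q).1 hQ.1).1 ((mem_ST G B S Q').1 hQ'.1).1
      ⟨a, Finset.mem_inter.2 ⟨hQ.2, hQ'.2⟩⟩
  refine ⟨h1, h2, ?_⟩
  have h3 : (ST G B (S.erase a)).card =
      (Sh G B S a).card + ((ST G B S).filter fun Q => a ∉ Q).card := by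
    rw [← Finset.card_union_of_disjoint]
    · congr 1
      ext Q
      rw [h1 Q, Finset.mem_union, Finset.mem_filter]
    · rw [Finset.disjoint_left]
      intro Q hQ hQ'
      rw [Finset.mem_filter] at hQ'
      exact not_tch G S Q a haS ((mem_ST G B S Q).1 hQ'.1).1 hQ'.2 (Finset.mem_filter.1 hQ).2
  have h4 : ((ST G B S).filter fun Q => a ∈ Q).card + ((ST G B S).filter fun Q => a ∉ Q).card =
      (ST G B S).card := Finset.card_filter_add_card_filter_not _
  have h5 := (hera S a haS).1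
  have h6 : (S.erase a).card + 1 = S.card := Finset.card_erase_add_one haS
  unfold psi
  rw [h3, h5, ← h4, ← h6]
  push_cast
  ring

end Pool.Agent.Lib.MP4d044e.UB
end

section
/-!
# MP_4d044e_co, upper bound: module ADD (the potential after the addition of a vertex)
-/
open Classical Finset

namespace Pool.Agent.Lib.MP4d044e.UB

open DELM in
theorem specADD (hEEB : SpecEEB) (hCNB : SpecCNB) (hCNC : SpecCNC) (hDEL : SpecDEL) : SpecADD := by
  intro V G B S u hu
  obtain ⟨-, -, -, -, -, hins, -⟩ := hEEB V G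
  obtain ⟨-, hsub, -, -, hex, -⟩ := hCNB V G
  have huI : u ∈ insert u S := Finset.mem_insert_self u S
  have hE : (insert u S).erase u = S := Finset.erase_insert hu
  obtain ⟨-, hle, hpsi⟩ := hDEL V G B (insert u S) u huI
  rw [hE] at hpsi
  have hSh : Sh G B (insert u S) u = (ST G B S).filter fun Y => Tch G u Y := by
    unfold Sh
    rw [hE]
  rw [hSh] at hpsi
  have hnb : nb G (insert u S) u = nb G S u := by
    unfold nb
    rw [Finset.filter_insert, if_neg (G.loopless.irrefl u)]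
  rw [hnb] at hpsi
  unfold kap
  by_cases h0 : ((ST G B (insert u S)).filter fun Q => u ∈ Q).card = 0
  · rw [h0] at hpsi
    push_cast at hpsi
    have := min_le_left (6 - 2 * ((nb G S u : ℤ) - (((ST G B S).filter fun Y => Tch G u Y).card : ℤ))) 4
    linarith
  · have h1 : ((ST G B (insert u S)).filter fun Q => u ∈ Q).card = 1 := by omega
    rw [h1] at hpsi
    push_cast at hpsi
    -- claim: `nb S u ≤ #touched`
    have hcl : nb G S u ≤ ((ST G B S).filter fun Y => Tch G u Y).card := by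
      obtain ⟨Q, hQ⟩ := Finset.card_pos.1 (by omega : 0 < ((ST G B (insert u S)).filter fun Q => u ∈ Q).card)
      rw [Finset.mem_filter] at hQ
      obtain ⟨hQ1, huQ⟩ := hQ
      have hQ2 := (mem_ST G B _ Q).1 hQ1
      obtain ⟨hg1, -, hg3, -⟩ := hCNC V G Q hQ2.1.1
      choose! F hF using hex S
      unfold nb
      refine Finset.card_le_card_of_injOn F ?_ ?_
      · intro y hy
        rw [Finset.coe_filter] at hy
        obtain ⟨hyS, huy⟩ := hy
        obtain ⟨hY, hyY⟩ := hF y hyS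
        have hyQ : y ∈ Q := hQ2.1.2.2 u huQ y (Finset.mem_insert_of_mem hyS) huy
        have hYQ : F y ⊆ Q := hsub (insert u S) (F y) Q hY.1
          (hY.2.1.trans (Finset.subset_insert u S)) hQ2.1.2 ⟨y, Finset.mem_inter.2 ⟨hyY, hyQ⟩⟩
        have : F y ∈ (ST G B S).filter fun Y => Tch G u Y := by
          refine Finset.mem_filter.2 ⟨(mem_ST G B S _).2 ⟨hY, ?_, hg3 hQ2.2.2 (F y) hYQ hY.1⟩,
            ⟨y, hyY, huy⟩⟩
          exact (Finset.card_le_card hYQ).trans hQ2.2.1
        exact_mod_cast this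
      · intro y hy y' hy' he
        rw [Finset.coe_filter] at hy hy'
        obtain ⟨hyS, huy⟩ := hy
        obtain ⟨hyS', huy'⟩ := hy'
        by_contra hne
        obtain ⟨hY, hyY⟩ := hF y hyS
        obtain ⟨hY', hyY'⟩ := hF y' hyS'
        rw [← he] at hyY'
        have hyQ : y ∈ Q := hQ2.1.2.2 u huQ y (Finset.mem_insert_of_mem hyS) huy
        have hYQ : F y ⊆ Q := hsub (insert u S) (F y) Q hY.1
          (hY.2.1.trans (Finset.subset_insert u S)) hQ2.1.2 ⟨y, Finset.mem_inter.2 ⟨hyY, hyQ⟩⟩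
        have huY : u ∉ F y := fun h => hu (hY.2.1 h)
        have h3 := hg1 (insert u (F y)) (Finset.insert_subset huQ hYQ) (Finset.insert_nonempty _ _)
        rw [hins (F y) u huY, Finset.card_insert_of_notMem huY] at h3
        have h4 := (hCNC V G (F y) hY.1).2.1
        have h5 : 2 ≤ nb G (F y) u := by
          unfold nb
          have : ({y, y'} : Finset V) ⊆ (F y).filter fun w => G.Adj u w := by
            intro z hz
            rw [Finset.mem_insert, Finset.mem_singleton] at hz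
            rcases hz with rfl | rfl
            · exact Finset.mem_filter.2 ⟨hyY, huy⟩
            · exact Finset.mem_filter.2 ⟨hyY', huy'⟩
          have h6 := Finset.card_le_card this
          rwa [Finset.card_pair hne] at h6
        have h7 := hQ2.2.2
        omega
    have := min_le_right (6 - 2 * ((nb G S u : ℤ) - (((ST G B S).filter fun Y => Tch G u Y).card : ℤ))) 4
    have h8 : (nb G S u : ℤ) ≤ (((ST G B S).filter fun Y => Tch G u Y).card : ℤ) := by exact_mod_cast hcl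
    linarith

end Pool.Agent.Lib.MP4d044e.UB
end

section
/-!
# MP_4d044e_co, upper bound: module BGP
-/
open Classical Finset

namespace Pool.Agent.Lib.MP4d044e.UB

namespace BGPM

variable {V : Type} {G : SimpleGraph V} {d B : ℕ} {R : Finset V}

theorem cc_big {a : V} (h : a ∈ CC G d B R) : a ∈ Big G d B R := (Finset.mem_filter.1 h).1

theorem cc_hg {w a : V} (h : w ∈ CC G d B R) (ha : a ∈ Big G d B R) : w ∉ hg G B R a :=
  (Finset.mem_filter.1 h).2 a ha

theorem nb_le {a : V} (ha : a ∈ CC G d B R) :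
    nb G (CC G d B R) a ≤ nb G (Big G d B R \ PP G B R a) a := by
  generalize hC : CC G d B R = C
  have h1 : ∀ w ∈ C, w ∈ Big G d B R ∧ w ∉ hg G B R a := by
    intro w hw
    rw [← hC] at hw
    exact ⟨cc_big hw, cc_hg hw (cc_big ha)⟩
  unfold nb
  refine Finset.card_le_card ?_
  intro w hw
  obtain ⟨hw1, hw2⟩ := Finset.mem_filter.1 hw
  refine Finset.mem_filter.2 ⟨Finset.mem_sdiff.2 ⟨(h1 w hw1).1, ?_⟩, hw2⟩
  intro h
  rcases Finset.mem_insert.1 h with h | h
  · subst h
    exact G.irrefl hw2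
  · exact (h1 w hw1).2 h

/-- the arithmetic for one root. -/
theorem arith (B p e n : ℕ) (h1 : 2 * p ≤ e + 2) (h2 : n ≤ 1 → B < p ∨ 2 * p ≤ e) :
    (if n = 3 then B else 0) + 2 * B * p ≤ B * (e + n) + 2 * p := by
  by_cases hn : n ≤ 1
  · rw [if_neg (by omega)]
    rcases h2 hn with h | h
    · have h3 : B * (2 * p) ≤ B * (e + 2) := Nat.mul_le_mul_left B h1
      have h4 : B * (e + 2) = B * e + 2 * B := by ring
      have h5 : B * (2 * p) = 2 * B * p := by ring
      have h6 : B * e ≤ B * (e + n) := Nat.mul_le_mul_left B (by omega)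
      omega
    · have h3 : B * (2 * p) ≤ B * (e + n) := Nat.mul_le_mul_left B (by omega)
      have h5 : B * (2 * p) = 2 * B * p := by ring
      omega
  · by_cases h3 : n = 3
    · rw [if_pos h3]
      have h4 : B * (2 * p + 1) ≤ B * (e + n) := Nat.mul_le_mul_left B (by omega)
      have h5 : B * (2 * p + 1) = 2 * B * p + B := by ring
      omega
    · rw [if_neg h3]
      have h4 : B * (2 * p) ≤ B * (e + n) := Nat.mul_le_mul_left B (by omega)
      have h5 : B * (2 * p) = 2 * B * p := by ring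
      omega

end BGPM

open BGPM in
theorem specBGP (hEEB : SpecEEB) (hCNC : SpecCNC) (hHNG : SpecHNG) (hROO : SpecROO)
    (hCLO : SpecCLO) : SpecBGP := by
  intro V _ G d B R hd hB hdeg
  obtain ⟨r1, r2, _, _⟩ := hROO V G d B R hd hB hdeg
  obtain ⟨_, _, _, e4, _⟩ := hEEB V G
  -- the decomposition
  have hU : Big G d B R = (CC G d B R).biUnion (fun a => PP G B R a) := by
    ext v
    constructor
    · intro hv
      obtain ⟨a, ha, hva⟩ := r1 v hv
      exact Finset.mem_biUnion.2 ⟨a, ha, hva⟩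
    · intro hv
      obtain ⟨a, ha, hva⟩ := Finset.mem_biUnion.1 hv
      obtain ⟨_, _, _, h4, _⟩ := hHNG V G d B R hd hB hdeg a (cc_big ha)
      exact h4 hva
  have hD : Set.PairwiseDisjoint (↑(CC G d B R) : Set V) (fun a => PP G B R a) := by
    intro a ha b hb hab
    exact r2 a ha b hb hab
  have hcard : (Big G d B R).card = ∑ a ∈ CC G d B R, (PP G B R a).card := by
    conv_lhs => rw [hU]
    exact Finset.card_biUnion (fun a ha b hb hab => r2 a ha b hb hab)
  have hee : ee G (Big G d B R) (Big G d B R)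
      = ∑ a ∈ CC G d B R, ee G (PP G B R a) (Big G d B R) := by
    have : ee G (Big G d B R) (Big G d B R)
        = ∑ v ∈ (CC G d B R).biUnion (fun a => PP G B R a), nb G (Big G d B R) v := by
      rw [← hU]
      rfl
    rw [this, Finset.sum_biUnion hD]
    rfl
  have hC3 : (C3 G d B R).card = ∑ a ∈ CC G d B R, (if nb G (CC G d B R) a = 3 then 1 else 0) := by
    unfold C3
    rw [Finset.card_filter]
  -- for every root
  have hroot : ∀ a ∈ CC G d B R,
      ee G (PP G B R a) (PP G B R a) + nb G (CC G d B R) a ≤ ee G (PP G B R a) (Big G d B R) := by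
    intro a ha
    obtain ⟨_, _, _, h4, _⟩ := hHNG V G d B R hd hB hdeg a (cc_big ha)
    have s1 : Big G d B R = PP G B R a ∪ (Big G d B R \ PP G B R a) :=
      (Finset.union_sdiff_of_subset h4).symm
    have s2 : ee G (PP G B R a) (Big G d B R) = ee G (PP G B R a) (PP G B R a)
        + ee G (PP G B R a) (Big G d B R \ PP G B R a) := by
      conv_lhs => rw [s1]
      exact (e4 _ _ _ Finset.disjoint_sdiff).2
    have s3 : nb G (CC G d B R) a ≤ nb G (Big G d B R \ PP G B R a) a := nb_le ha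
    have s4 : nb G (Big G d B R \ PP G B R a) a ≤ ee G (PP G B R a) (Big G d B R \ PP G B R a) := by
      unfold ee
      exact Finset.single_le_sum (f := fun v => nb G (Big G d B R \ PP G B R a) v)
        (fun _ _ => Nat.zero_le _) (Finset.mem_insert_self a (hg G B R a))
    omega
  have hloc : ∀ a ∈ CC G d B R,
      B * (if nb G (CC G d B R) a = 3 then 1 else 0) + 2 * B * (PP G B R a).card
        ≤ B * ee G (PP G B R a) (Big G d B R) + 2 * (PP G B R a).card := by
    intro a ha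
    obtain ⟨_, _, h3, _, _⟩ := hHNG V G d B R hd hB hdeg a (cc_big ha)
    have t1 := (hCNC V G (PP G B R a) h3).2.1
    have t2 := hCLO V G d B R hd hB hdeg a ha
    have t3 := arith B (PP G B R a).card (ee G (PP G B R a) (PP G B R a)) (nb G (CC G d B R) a) t1 t2
    have t4 := Nat.mul_le_mul_left B (hroot a ha)
    have t5 : B * (if nb G (CC G d B R) a = 3 then 1 else 0)
        = (if nb G (CC G d B R) a = 3 then B else 0) := by
      split_ifs <;> simp
    rw [t5]
    omega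
  have hsum := Finset.sum_le_sum hloc
  rw [Finset.sum_add_distrib, Finset.sum_add_distrib, ← Finset.mul_sum, ← Finset.mul_sum,
    ← Finset.mul_sum, ← Finset.mul_sum, ← hC3, ← hcard, ← hee] at hsum
  exact hsum

end Pool.Agent.Lib.MP4d044e.UB
end

section
/-!
# MP_4d044e_co, upper bound: membership lemmas

Stated without `[Fintype V]`, so that the decidability instances are those of `Defs.lean`. Use these lemmas
instead of unfolding the definitions and rewriting with `Finset.mem_filter`.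
-/
open Classical Finset

namespace Pool.Agent.Lib.MP4d044e.UB

section
variable {V : Type} (G : SimpleGraph V) (d B : ℕ) (R : Finset V)

theorem mem_ST (S Q : Finset V) :
    Q ∈ ST G B S ↔ IsC G S Q ∧ Q.card ≤ B ∧ ee G Q Q + 2 = 2 * Q.card := by
  unfold ST
  rw [Finset.mem_filter, Finset.mem_powerset]
  exact ⟨fun h => h.2, fun h => ⟨h.1.2.1, h⟩⟩

theorem mem_Sh (S Y : Finset V) (a : V) :
    Y ∈ Sh G B S a ↔ Y ∈ ST G B (S.erase a) ∧ Tch G a Y := by
  unfold Sh
  rw [Finset.mem_filter]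

theorem mem_Big (a : V) :
    a ∈ Big G d B R ↔ a ∈ R ∧ ∃ K : Finset V, IsC G R K ∧ a ∈ K ∧ d * B + 1 < K.card := by
  unfold Big
  rw [Finset.mem_filter]

theorem mem_hg (a x : V) : x ∈ hg G B R a ↔ ∃ Y ∈ Sh G B R a, x ∈ Y := by
  unfold hg
  simp

theorem mem_CC (a : V) :
    a ∈ CC G d B R ↔ a ∈ Big G d B R ∧ ∀ b ∈ Big G d B R, a ∉ hg G B R b := by
  unfold CC
  rw [Finset.mem_filter]

theorem mem_PP (a x : V) : x ∈ PP G B R a ↔ x = a ∨ x ∈ hg G B R a := by
  unfold PP
  rw [Finset.mem_insert]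

theorem mem_C3 (a : V) :
    a ∈ C3 G d B R ↔ a ∈ CC G d B R ∧ nb G (CC G d B R) a = 3 := by
  unfold C3
  rw [Finset.mem_filter]

theorem mem_TT (u a : V) :
    a ∈ TT G d B R u ↔ a ∈ C3 G d B R ∧ Tch G u (PP G B R a) := by
  unfold TT
  rw [Finset.mem_filter]

theorem mem_Sr (a b : V) (Y : Finset V) :
    Y ∈ Sr G B R a b ↔ Y ∈ ST G B ((R.erase a).erase b) ∧ Tch G a Y ∧ Tch G b Y := by
  unfold Sr
  rw [Finset.mem_filter]

theorem mem_un (W : Finset (Finset V)) (x : V) : x ∈ un W ↔ ∃ P ∈ W, x ∈ P := by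
  unfold un
  simp

theorem mem_nbf (S : Finset V) (v w : V) :
    w ∈ (S.filter fun w => G.Adj v w) ↔ w ∈ S ∧ G.Adj v w := Finset.mem_filter

theorem mem_CC_R {a : V} (h : a ∈ CC G d B R) : a ∈ R :=
  ((mem_Big G d B R a).1 ((mem_CC G d B R a).1 h).1).1

/-- The sets touched by `u` in a family (the filter of `kap`). -/
theorem mem_tch (F : Finset (Finset V)) (u : V) (Y : Finset V) :
    Y ∈ (F.filter fun Y => Tch G u Y) ↔ Y ∈ F ∧ Tch G u Y := Finset.mem_filter

end

end Pool.Agent.Lib.MP4d044e.UB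
end

section
/-!
# MP_4d044e_co, upper bound: module CLO
-/
open Classical Finset

namespace Pool.Agent.Lib.MP4d044e.UB

theorem specCLO (hEEB : SpecEEB) (hCNB : SpecCNB) (hCNC : SpecCNC) (hHNG : SpecHNG)
    (hROO : SpecROO) : SpecCLO := by
  intro V _ G d B R hd hB hdeg a ha hnb
  obtain ⟨_, _, _, _, _, huniq⟩ := hCNB V G
  obtain ⟨_, _, _, _, _, _, heven, _⟩ := hEEB V G
  obtain ⟨r1, r2, r3, r4⟩ := hROO V G d B R hd hB hdeg
  have haCC := (mem_CC G d B R a).1 ha
  have haB := haCC.1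
  obtain ⟨_, _, hcn, hsubB, hcl, hnbBig, _, _, _⟩ := hHNG V G d B R hd hB hdeg a haB
  have hBigR : ∀ x ∈ Big G d B R, x ∈ R := fun x hx => ((mem_Big G d B R x).1 hx).1
  have haPP : a ∈ PP G B R a := (mem_PP G B R a a).2 (Or.inl rfl)
  by_contra hcon
  push Not at hcon
  obtain ⟨hc1, hc2⟩ := hcon
  have htree : ee G (PP G B R a) (PP G B R a) + 2 = 2 * (PP G B R a).card := by
    have h1 := (hCNC V G (PP G B R a) hcn).2.1
    obtain ⟨k, hk⟩ := heven (PP G B R a)
    omega
  -- the edges leaving `PP a`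
  have hleave : ∀ x ∈ PP G B R a, ∀ y ∈ R, G.Adj x y → y ∉ PP G B R a →
      x = a ∧ y ∈ CC G d B R ∧ G.Adj a y := by
    intro x hx y hy hxy hyn
    have hxa : x = a := by
      rcases (mem_PP G B R a x).1 hx with h | h
      · exact h
      · exact absurd (hcl x h y hy hxy) hyn
    subst hxa
    have hyB := hnbBig y hy hxy
    obtain ⟨b, hb, hyb⟩ := r1 y hyB
    have hne : x ≠ b := by
      rintro rfl
      exact hyn hyb
    have h3 := r3 x ha b hb hne x hx y hyb hxy
    refine ⟨rfl, ?_, hxy⟩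
    rw [h3.2]
    exact hb
  by_cases hex : ∃ x ∈ PP G B R a, ∃ y ∈ R, G.Adj x y ∧ y ∉ PP G B R a
  · obtain ⟨x, hx, b, hbR, hxb, hbn⟩ := hex
    obtain ⟨rfl, hbCC, hab⟩ := hleave x hx b hbR hxb hbn
    have hbBig := ((mem_CC G d B R b).1 hbCC).1
    apply haCC.2 b hbBig
    rw [mem_hg]
    refine ⟨PP G B R x, ?_, haPP⟩
    rw [mem_Sh, mem_ST]
    refine ⟨⟨⟨hcn, ?_, ?_⟩, hc1, htree⟩, ⟨x, haPP, hab.symm⟩⟩
    · intro z hz
      rw [Finset.mem_erase]
      refine ⟨?_, hBigR z (hsubB hz)⟩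
      rintro rfl
      exact hbn hz
    · intro z hz w hw hzw
      obtain ⟨hwb, hwR⟩ := Finset.mem_erase.1 hw
      by_contra hwn
      obtain ⟨_, hwCC, haw⟩ := hleave z hz w hwR hzw hwn
      have h5 : ({b, w} : Finset V) ⊆ (CC G d B R).filter fun w => G.Adj x w := by
        intro t ht
        rw [Finset.mem_insert, Finset.mem_singleton] at ht
        rcases ht with rfl | rfl
        · exact Finset.mem_filter.2 ⟨hbCC, hab⟩
        · exact Finset.mem_filter.2 ⟨hwCC, haw⟩
      have h6 := Finset.card_le_card h5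
      rw [Finset.card_pair (fun h => hwb h.symm)] at h6
      unfold nb at hnb
      omega
  · have hcomp : IsC G R (PP G B R a) := by
      refine ⟨hcn, fun x hx => hBigR x (hsubB hx), ?_⟩
      intro x hx y hy hxy
      by_contra hyn
      exact hex ⟨x, hx, y, hy, hxy, hyn⟩
    obtain ⟨_, K, hK, haK, hKc⟩ := (mem_Big G d B R a).1 haB
    have h7 := huniq R (PP G B R a) K hcomp hK ⟨a, Finset.mem_inter.2 ⟨haPP, haK⟩⟩
    rw [h7] at hc1
    have h8 : 1 * B ≤ d * B := Nat.mul_le_mul_right B (by omega)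
    omega

end Pool.Agent.Lib.MP4d044e.UB
end

section
/-!
# MP_4d044e_co, upper bound: module CNB (basic connectivity)
-/
open Classical Finset

namespace Pool.Agent.Lib.MP4d044e.UB

namespace CNBM

variable {V : Type} (G : SimpleGraph V)

theorem single (a : V) : Cn G {a} := by
  refine ⟨Finset.singleton_nonempty a, ?_⟩
  intro B hB hne hBa
  exfalso
  rcases Finset.subset_singleton_iff.1 hB with h | h
  · exact hne.ne_empty h
  · exact hBa h

theorem sub (S A Q : Finset V) (hA : Cn G A) (hAS : A ⊆ S) (hQ : Cl G S Q) (h : (A ∩ Q).Nonempty) :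
    A ⊆ Q := by
  by_contra hc
  have hne : A ∩ Q ≠ A := fun he => hc (Finset.inter_eq_left.1 he)
  obtain ⟨x, hx, y, hy, hyn, hxy⟩ := hA.2 (A ∩ Q) Finset.inter_subset_left h hne
  rw [Finset.mem_inter] at hx
  exact hyn (Finset.mem_inter.2 ⟨hy, hQ.2 x hx.2 y (hAS hy) hxy⟩)

/-- The union of two connected sets is connected if no proper subset separates them. -/
theorem join (A B : Finset V) (hA : Cn G A) (hB : Cn G B)
    (h : ∀ D : Finset V, D ⊆ A ∪ B → D.Nonempty → D ≠ A ∪ B →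
      ((D ∩ A = ∅ ∧ D ∩ B = B) ∨ (D ∩ A = A ∧ D ∩ B = ∅)) →
      ∃ x ∈ D, ∃ y ∈ A ∪ B, y ∉ D ∧ G.Adj x y) : Cn G (A ∪ B) := by
  refine ⟨hA.1.mono Finset.subset_union_left, ?_⟩
  intro D hD hne hDn
  by_cases hA0 : (D ∩ A).Nonempty
  · by_cases hA1 : D ∩ A = A
    · by_cases hB0 : (D ∩ B).Nonempty
      · by_cases hB1 : D ∩ B = B
        · exfalso
          apply hDn
          apply Finset.Subset.antisymm hD
          intro z hz
          rcases Finset.mem_union.1 hz with hz | hz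
          · exact (Finset.mem_inter.1 (hA1.symm ▸ hz : z ∈ D ∩ A)).1
          · exact (Finset.mem_inter.1 (hB1.symm ▸ hz : z ∈ D ∩ B)).1
        · obtain ⟨x, hx, y, hy, hyn, hxy⟩ := hB.2 (D ∩ B) Finset.inter_subset_right hB0 hB1
          exact ⟨x, (Finset.mem_inter.1 hx).1, y, Finset.mem_union_right _ hy,
            fun hyD => hyn (Finset.mem_inter.2 ⟨hyD, hy⟩), hxy⟩
      · exact h D hD hne hDn (Or.inr ⟨hA1, Finset.not_nonempty_iff_eq_empty.1 hB0⟩)
    · obtain ⟨x, hx, y, hy, hyn, hxy⟩ := hA.2 (D ∩ A) Finset.inter_subset_right hA0 hA1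
      exact ⟨x, (Finset.mem_inter.1 hx).1, y, Finset.mem_union_left _ hy,
        fun hyD => hyn (Finset.mem_inter.2 ⟨hyD, hy⟩), hxy⟩
  · have hA0' := Finset.not_nonempty_iff_eq_empty.1 hA0
    have hB0 : (D ∩ B).Nonempty := by
      obtain ⟨z, hz⟩ := hne
      rcases Finset.mem_union.1 (hD hz) with h1 | h1
      · exact absurd ⟨z, Finset.mem_inter.2 ⟨hz, h1⟩⟩ hA0
      · exact ⟨z, Finset.mem_inter.2 ⟨hz, h1⟩⟩
    by_cases hB1 : D ∩ B = B
    · exact h D hD hne hDn (Or.inl ⟨hA0', hB1⟩)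
    · obtain ⟨x, hx, y, hy, hyn, hxy⟩ := hB.2 (D ∩ B) Finset.inter_subset_right hB0 hB1
      exact ⟨x, (Finset.mem_inter.1 hx).1, y, Finset.mem_union_right _ hy,
        fun hyD => hyn (Finset.mem_inter.2 ⟨hyD, hy⟩), hxy⟩

theorem union (A B : Finset V) (hA : Cn G A) (hB : Cn G B) (h : (A ∩ B).Nonempty) :
    Cn G (A ∪ B) := by
  apply join G A B hA hB
  intro D hD hne hDn hc
  exfalso
  obtain ⟨z, hz⟩ := h
  rw [Finset.mem_inter] at hz
  rcases hc with ⟨h1, h2⟩ | ⟨h1, h2⟩
  · have hzD : z ∈ D := (Finset.mem_inter.1 (h2.symm ▸ hz.2 : z ∈ D ∩ B)).1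
    have : z ∈ D ∩ A := Finset.mem_inter.2 ⟨hzD, hz.1⟩
    rw [h1] at this
    simp at this
  · have hzD : z ∈ D := (Finset.mem_inter.1 (h1.symm ▸ hz.1 : z ∈ D ∩ A)).1
    have : z ∈ D ∩ B := Finset.mem_inter.2 ⟨hzD, hz.2⟩
    rw [h2] at this
    simp at this

theorem union' (A B : Finset V) (a b : V) (hA : Cn G A) (hB : Cn G B) (ha : a ∈ A) (hb : b ∈ B)
    (hab : G.Adj a b) : Cn G (A ∪ B) := by
  apply join G A B hA hB
  intro D hD hne hDn hc
  rcases hc with ⟨h1, h2⟩ | ⟨h1, h2⟩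
  · have hbD : b ∈ D := (Finset.mem_inter.1 (h2.symm ▸ hb : b ∈ D ∩ B)).1
    refine ⟨b, hbD, a, Finset.mem_union_left _ ha, ?_, hab.symm⟩
    intro haD
    have : a ∈ D ∩ A := Finset.mem_inter.2 ⟨haD, ha⟩
    rw [h1] at this
    simp at this
  · have haD : a ∈ D := (Finset.mem_inter.1 (h1.symm ▸ ha : a ∈ D ∩ A)).1
    refine ⟨a, haD, b, Finset.mem_union_right _ hb, ?_, hab⟩
    intro hbD
    have : b ∈ D ∩ B := Finset.mem_inter.2 ⟨hbD, hb⟩
    rw [h2] at this
    simp at this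

theorem exist (S : Finset V) (a : V) (ha : a ∈ S) : ∃ Q, IsC G S Q ∧ a ∈ Q := by
  let Q : Finset V := S.filter fun w => ∀ P : Finset V, Cl G S P → a ∈ P → w ∈ P
  have hQS : Q ⊆ S := Finset.filter_subset _ _
  have haQ : a ∈ Q := Finset.mem_filter.2 ⟨ha, fun P _ h => h⟩
  have hcl : Cl G S Q := by
    refine ⟨hQS, ?_⟩
    intro x hx y hy hxy
    refine Finset.mem_filter.2 ⟨hy, fun P hP haP => ?_⟩
    exact hP.2 x ((Finset.mem_filter.1 hx).2 P hP haP) y hy hxy
  refine ⟨Q, ⟨⟨⟨a, haQ⟩, ?_⟩, hcl⟩, haQ⟩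
  intro D hD hne hDn
  by_contra hc
  push Not at hc
  -- both `D` and `Q \ D` are closed
  have h1 : Cl G S D := by
    refine ⟨hD.trans hQS, ?_⟩
    intro x hx y hy hxy
    have hyQ : y ∈ Q := hcl.2 x (hD hx) y hy hxy
    by_contra hyD
    exact hc x hx y hyQ hyD hxy
  have h2 : Cl G S (Q \ D) := by
    refine ⟨Finset.sdiff_subset.trans hQS, ?_⟩
    intro x hx y hy hxy
    rw [Finset.mem_sdiff] at hx
    have hyQ : y ∈ Q := hcl.2 x hx.1 y hy hxy
    refine Finset.mem_sdiff.2 ⟨hyQ, fun hyD => ?_⟩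
    exact hc y hyD x hx.1 hx.2 hxy.symm
  by_cases haD : a ∈ D
  · apply hDn
    apply Finset.Subset.antisymm hD
    intro w hw
    exact (Finset.mem_filter.1 hw).2 D h1 haD
  · obtain ⟨z, hz⟩ := hne
    have := (Finset.mem_filter.1 (hD hz)).2 (Q \ D) h2 (Finset.mem_sdiff.2 ⟨haQ, haD⟩)
    exact (Finset.mem_sdiff.1 this).2 hz

end CNBM

open CNBM in
theorem specCNB : SpecCNB := by
  intro V G
  refine ⟨single G, sub G, union G, fun A B a b hA hB ha hb hab => union' G A B a b hA hB ha hb hab,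
    exist G, ?_⟩
  intro S Q Q' hQ hQ' h
  apply Finset.Subset.antisymm
  · exact sub G S Q Q' hQ.1 hQ.2.1 hQ'.2 h
  · exact sub G S Q' Q hQ'.1 hQ'.2.1 hQ.2 (by rwa [Finset.inter_comm])

end Pool.Agent.Lib.MP4d044e.UB
end

section
/-!
# MP_4d044e_co, upper bound: module CNC (edges of connected sets)
-/
open Classical Finset

namespace Pool.Agent.Lib.MP4d044e.UB

namespace CNCM

variable {V : Type} (G : SimpleGraph V)

theorem nb_pos (A : Finset V) (a x : V) (hx : x ∈ A) (hax : G.Adj a x) : 1 ≤ nb G A a := by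
  unfold nb
  exact Finset.card_pos.2 ⟨x, Finset.mem_filter.2 ⟨hx, hax⟩⟩

theorem grow (hEEB : SpecEEB) (Q : Finset V) (hQ : Cn G Q) (A : Finset V) (hA : A ⊆ Q)
    (hne : A.Nonempty) : ee G A A + 2 * Q.card ≤ ee G Q Q + 2 * A.card := by
  obtain ⟨-, -, -, -, -, hins, -⟩ := hEEB V G
  -- induction on the number of missing elements
  suffices H : ∀ n : ℕ, ∀ A' : Finset V, A' ⊆ Q → A'.Nonempty → Q.card ≤ A'.card + n →
      ee G A' A' + 2 * Q.card ≤ ee G Q Q + 2 * A'.card from
    H Q.card A hA hne (by omega)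
  intro n
  induction n with
  | zero =>
    intro A' hA' _ hc
    have : A' = Q := Finset.eq_of_subset_of_card_le hA' (by omega)
    subst this
    exact le_refl _
  | succ n ih =>
    intro A' hA' hne' hc
    by_cases he : A' = Q
    · subst he
      exact le_refl _
    obtain ⟨x, hx, y, hy, hyn, hxy⟩ := hQ.2 A' hA' hne' he
    have h1 := ih (insert y A') (Finset.insert_subset hy hA') (Finset.insert_nonempty _ _)
      (by rw [Finset.card_insert_of_notMem hyn]; omega)
    rw [hins A' y hyn, Finset.card_insert_of_notMem hyn] at h1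
    have h2 := nb_pos G A' y x hx hxy.symm
    omega

end CNCM

open CNCM in
theorem specCNC (hEEB : SpecEEB) : SpecCNC := by
  intro V G Q hQ
  have h1 := grow G hEEB Q hQ
  have h2 : ∀ A : Finset V, Cn G A → 2 * A.card ≤ ee G A A + 2 := by
    intro A hA
    obtain ⟨a, ha⟩ := hA.1
    have := grow G hEEB A hA {a} (Finset.singleton_subset_iff.2 ha) (Finset.singleton_nonempty a)
    have h0 : ee G {a} {a} = 0 := by
      rw [(hEEB V G).2.2.2.2.2.2.2.1]
      intro x hx y hy
      rw [Finset.mem_singleton] at hx hy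
      rw [hx, hy]
      exact G.loopless.irrefl a
    rw [h0, Finset.card_singleton] at this
    omega
  refine ⟨h1, h2 Q hQ, ?_, ?_⟩
  · intro ht A hA hc
    have h3 := h1 A hA hc.1
    have h4 := h2 A hc
    omega
  · intro ht
    by_contra hc
    push Not at hc
    have h3 : ∑ v ∈ Q, 2 ≤ ee G Q Q := by
      unfold ee
      exact Finset.sum_le_sum fun v hv => hc v hv
    rw [Finset.sum_const, smul_eq_mul] at h3
    omega

end Pool.Agent.Lib.MP4d044e.UB
end

section
/-!
# MP_4d044e_co, upper bound: module CND (components after the removal of a vertex)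
-/
open Classical Finset

namespace Pool.Agent.Lib.MP4d044e.UB

theorem specCND (hCNB : SpecCNB) : SpecCND := by
  intro V G S K Y a hK ha hY
  obtain ⟨hsing, hsub, -, huni', -, -⟩ := hCNB V G
  have hYS : Y ⊆ S := hY.2.1.trans (Finset.erase_subset a S)
  have haY : a ∉ Y := fun h => (Finset.notMem_erase a S) (hY.2.1 h)
  have haS : a ∈ S := hK.2.1 ha
  have hins : Tch G a Y → Cn G (insert a Y) := by
    rintro ⟨y, hy, hay⟩
    have := huni' {a} Y a y (hsing a) hY.1 (Finset.mem_singleton_self a) hy hay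
    rwa [← Finset.insert_eq] at this
  have hT : Y ⊆ K → Tch G a Y := by
    intro h
    have hne : Y ≠ K := fun he => haY (he ▸ ha)
    obtain ⟨x, hx, y, hy, hyn, hxy⟩ := hK.1.2 Y h hY.1.1 hne
    by_cases hya : y = a
    · exact ⟨x, hx, hya ▸ hxy.symm⟩
    · exact absurd (hY.2.2 x hx y (Finset.mem_erase.2 ⟨hya, hK.2.1 hy⟩) hxy) hyn
  refine ⟨⟨fun h => ?_, hT⟩, fun h => ⟨?_, hins (hT h)⟩⟩
  · have h1 := hsub S (insert a Y) K (hins h) (Finset.insert_subset haS hYS) hK.2
      ⟨a, Finset.mem_inter.2 ⟨Finset.mem_insert_self a Y, ha⟩⟩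
    exact (Finset.subset_insert a Y).trans h1
  · -- `K \ Y` is connected
    have haKY : a ∈ K \ Y := Finset.mem_sdiff.2 ⟨ha, haY⟩
    refine ⟨⟨a, haKY⟩, ?_⟩
    -- a set `D` without `a` always has an edge to the rest
    have key : ∀ D : Finset V, D ⊆ K \ Y → D.Nonempty → a ∉ D →
        ∃ x ∈ D, ∃ y ∈ K \ Y, y ∉ D ∧ G.Adj x y := by
      intro D hD hne haD
      have hDK : D ⊆ K := hD.trans Finset.sdiff_subset
      have hDn : D ≠ K := fun he => haD (he ▸ ha)
      obtain ⟨x, hx, y, hy, hyn, hxy⟩ := hK.1.2 D hDK hne hDn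
      have hxY : x ∉ Y := (Finset.mem_sdiff.1 (hD hx)).2
      have hxa : x ≠ a := fun he => haD (he ▸ hx)
      refine ⟨x, hx, y, Finset.mem_sdiff.2 ⟨hy, fun hyY => hxY ?_⟩, hyn, hxy⟩
      exact hY.2.2 y hyY x (Finset.mem_erase.2 ⟨hxa, hK.2.1 (hDK hx)⟩) hxy.symm
    intro D hD hne hDn
    by_cases haD : a ∈ D
    · have h1 : ((K \ Y) \ D).Nonempty := by
        by_contra hc
        rw [Finset.not_nonempty_iff_eq_empty, Finset.sdiff_eq_empty_iff_subset] at hc
        exact hDn (Finset.Subset.antisymm hD hc)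
      obtain ⟨x, hx, y, hy, hyn, hxy⟩ := key ((K \ Y) \ D) Finset.sdiff_subset h1
        (fun h => (Finset.mem_sdiff.1 h).2 haD)
      rw [Finset.mem_sdiff] at hx
      have hyD : y ∈ D := by
        by_contra hc
        exact hyn (Finset.mem_sdiff.2 ⟨hy, hc⟩)
      exact ⟨y, hyD, x, hx.1, hx.2, hxy.symm⟩
    · exact key D hD hne haD

end Pool.Agent.Lib.MP4d044e.UB
end

section
/-!
# MP_4d044e_co, upper bound: module CNT (the count)
-/
open Classical Finset

namespace Pool.Agent.Lib.MP4d044e.UB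

namespace CNTM

variable {V : Type} (G : SimpleGraph V)

theorem Big_sub {d B : ℕ} {R : Finset V} : Big G d B R ⊆ R := by
  unfold Big
  exact Finset.filter_subset _ _

theorem sum_nb [Fintype V] (hEEB : SpecEEB) (d : ℕ) (R : Finset V) (h : ∀ v, nb G univ v = d) :
    ∑ u ∈ Rᶜ, nb G R u + ee G R R = d * R.card := by
  obtain ⟨-, -, e3, e4, -⟩ := hEEB V G
  have hu : Rᶜ ∪ R = univ := by
    ext x
    simp only [Finset.mem_union, Finset.mem_compl, Finset.mem_univ, iff_true]
    exact (Classical.em (x ∈ R)).symm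
  have h1 : ee G Rᶜ R + ee G R R = ee G univ R := by
    rw [← hu]
    exact ((e4 Rᶜ R R disjoint_compl_left).1).symm
  have h2 : ee G univ R = ee G R univ := e3 _ _
  have h3 : ee G R univ = d * R.card := by
    unfold ee
    rw [Finset.sum_congr rfl (fun v _ => h v), Finset.sum_const, smul_eq_mul, mul_comm]
  have h4 : ∑ u ∈ Rᶜ, nb G R u = ee G Rᶜ R := rfl
  omega

theorem two_le [Fintype V] (hEEB : SpecEEB) (hCNC : SpecCNC) (d B : ℕ) (R : Finset V)
    (hd : 3 ≤ d) (h : ∀ v, nb G univ v = d) (Q : Finset V) (hQ : Q ∈ ST G B R) :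
    2 ≤ (Rᶜ.filter fun u => Tch G u Q).card := by
  obtain ⟨e1, -⟩ := hEEB V G
  unfold ST at hQ
  obtain ⟨hQR, ⟨hcn, hcl⟩, -, htree⟩ := Finset.mem_filter.1 hQ
  obtain ⟨-, -, -, h4⟩ := hCNC V G Q hcn
  obtain ⟨v, hv, hv1⟩ := h4 htree
  have hnb : nb G R v = nb G Q v := by
    unfold nb
    congr 1
    ext w
    simp only [Finset.mem_filter]
    constructor
    · rintro ⟨h1, h2⟩
      exact ⟨hcl.2 v hv w h1 h2, h2⟩
    · rintro ⟨h1, h2⟩
      exact ⟨hcl.1 h1, h2⟩
  have hu : Rᶜ ∪ R = univ := by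
    ext x
    simp only [Finset.mem_union, Finset.mem_compl, Finset.mem_univ, iff_true]
    exact (Classical.em (x ∈ R)).symm
  have h5 : nb G Rᶜ v + nb G R v = d := by
    rw [← e1 Rᶜ R v disjoint_compl_left, hu]
    exact h v
  have h6 : nb G Rᶜ v ≤ (Rᶜ.filter fun u => Tch G u Q).card := by
    unfold nb
    apply Finset.card_le_card
    intro w hw
    obtain ⟨h1, h2⟩ := Finset.mem_filter.1 hw
    exact Finset.mem_filter.2 ⟨h1, ⟨v, hv, h2.symm⟩⟩
  omega

theorem sum_st [Fintype V] (hEEB : SpecEEB) (hCNC : SpecCNC) (d B : ℕ) (R : Finset V)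
    (hd : 3 ≤ d) (h : ∀ v, nb G univ v = d) :
    2 * (ST G B R).card ≤ ∑ u ∈ Rᶜ, ((ST G B R).filter fun Y => Tch G u Y).card := by
  have h1 : ∑ u ∈ Rᶜ, ((ST G B R).filter fun Y => Tch G u Y).card =
      ∑ Q ∈ ST G B R, (Rᶜ.filter fun u => Tch G u Q).card :=
    Finset.sum_card_bipartiteAbove_eq_sum_card_bipartiteBelow (fun u Y => Tch G u Y)
  rw [h1, mul_comm, ← smul_eq_mul, ← Finset.sum_const]
  exact Finset.sum_le_sum fun Q hQ => two_le G hEEB hCNC d B R hd h Q hQ

end CNTM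

open CNTM in
theorem specCNT (hEEB : SpecEEB) (hCNC : SpecCNC) (hSMP : SpecSMP) (hBGP : SpecBGP) :
    SpecCNT := by
  intro V _ G d B R hd hB hdeg
  have hle : ∀ v, nb G univ v ≤ d := fun v => (hdeg v).le
  obtain ⟨s1, s2⟩ := hSMP V G d B R hd hB
  have b1 := hBGP V G d B R hd hB hle
  have n1 := sum_nb G hEEB d R hdeg
  have n2 := sum_st G hEEB hCNC d B R hd hdeg
  have hsub : Big G d B R ⊆ R := Big_sub G
  have hc : (R \ Big G d B R).card + (Big G d B R).card = R.card :=
    Finset.card_sdiff_add_card_eq_card hsub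
  have hk : ∑ u ∈ Rᶜ, kap G B R u = ((∑ u ∈ Rᶜ, nb G R u : ℕ) : ℤ) -
      ((∑ u ∈ Rᶜ, ((ST G B R).filter fun Y => Tch G u Y).card : ℕ) : ℤ) := by
    unfold kap
    rw [Finset.sum_sub_distrib]
    push_cast
    rfl
  rw [hk]
  set K1 := ∑ u ∈ Rᶜ, nb G R u
  set K2 := ∑ u ∈ Rᶜ, ((ST G B R).filter fun Y => Tch G u Y).card
  set x := ee G R R
  set y := ee G (Big G d B R) (Big G d B R)
  set z := ee G (R \ Big G d B R) (R \ Big G d B R)
  set s := (R \ Big G d B R).card
  set t := (Big G d B R).card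
  set q := (ST G B R).card
  set r := R.card
  set c := (C3 G d B R).card
  have s1' : 2 * (B : ℤ) * s ≤ B * z + 2 * B * q + 2 * s := by exact_mod_cast s1
  have s2' : (x : ℤ) = y + z := by exact_mod_cast s2
  have b1' : (B : ℤ) * c + 2 * B * t ≤ B * y + 2 * t := by exact_mod_cast b1
  have n1' : (K1 : ℤ) + x = d * r := by exact_mod_cast n1
  have n2' : 2 * (q : ℤ) ≤ K2 := by exact_mod_cast n2
  have hc' : (s : ℤ) + t = r := by exact_mod_cast hc
  have hB0 : (0 : ℤ) ≤ B := Int.natCast_nonneg B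
  have h2 : (B : ℤ) * (2 * q) ≤ B * K2 := mul_le_mul_of_nonneg_left n2' hB0
  have h3 : (B : ℤ) * K1 = B * (d * r) - B * (y + z) := by
    rw [← s2', ← n1']
    ring
  rw [← hc'] at h3 ⊢
  nlinarith [h2, h3, s1', b1']

end Pool.Agent.Lib.MP4d044e.UB
end
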