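import Pool.Agent.Lib.MP_4d044e_co.UB.Spec
import Pool.Agent.Lib.MP_4d044e_co.UB.CNT

section
/-!
# MP_4d044e_co, upper bound: module PRB
-/
open Classical Finset

namespace Pool.Agent.Lib.MP4d044e.UB

namespace PRBM

theorem cc_big {V : Type} {G : SimpleGraph V} {d B : ℕ} {R : Finset V} {a : V}
    (h : a ∈ CC G d B R) : a ∈ Big G d B R := (Finset.mem_filter.1 h).1

theorem big_mem {V : Type} {G : SimpleGraph V} {d B : ℕ} {R : Finset V} {a : V}
    (h : a ∈ Big G d B R) : a ∈ R := (Finset.mem_filter.1 h).1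

end PRBM

theorem specPRB (hEEB : SpecEEB) (hDEL : SpecDEL) (hHNG : SpecHNG) (hPRA : SpecPRA) : SpecPRB := by
  intro V _ G d B R hd hB hdeg a ha b hb hab hna hnb
  have haBig : a ∈ Big G d B R := PRBM.cc_big ha
  have hbBig : b ∈ Big G d B R := PRBM.cc_big hb
  have haR : a ∈ R := PRBM.big_mem haBig
  have hbR : b ∈ R := PRBM.big_mem hbBig
  have hbR' : b ∈ R.erase a := Finset.mem_erase.2 ⟨hab.symm, hbR⟩
  obtain ⟨_, _, h1⟩ := hDEL V G B R a haR
  obtain ⟨_, _, h2⟩ := hDEL V G B (R.erase a) b hbR'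
  obtain ⟨_, _, _, _, _, _, _, _, h9⟩ := hHNG V G d B R hd hB hdeg a haBig
  obtain ⟨p1, p2, p3, p4, p5⟩ := hPRA V G d B R hd hB hdeg a ha b hb hab
  obtain ⟨_, _, _, _, _, _, _, _, e9, _⟩ := hEEB V G
  have f1 : ((ST G B R).filter fun Q => a ∈ Q).card = 0 := by
    rw [Finset.card_eq_zero, Finset.filter_eq_empty_iff]
    intro Q hQ
    exact h9 Q hQ
  have f2 : ((ST G B (R.erase a)).filter fun Q => b ∈ Q).card = 0 := by
    rw [Finset.card_eq_zero, Finset.filter_eq_empty_iff]
    intro Q hQ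
    exact p5 Q hQ
  have f3 : nb G R b = nb G (R.erase a) b + (if G.Adj b a then 1 else 0) := (e9 R a haR).2 b
  have f4 : (Sh G B (R.erase a) b).card = (Sr G B R a b).card + (Sh G B R b).card := by
    have g1 : Sh G B (R.erase a) b = Sr G B R a b ∪ Sh G B R b := by
      ext Y
      constructor
      · intro hY
        obtain ⟨hY1, hY2⟩ := Finset.mem_filter.1 hY
        by_cases h : Tch G a Y
        · exact Finset.mem_union_left _ (Finset.mem_filter.2 ⟨hY1, h, hY2⟩)
        · exact Finset.mem_union_right _ (p4 Y hY1 h hY2)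
      · intro hY
        rcases Finset.mem_union.1 hY with h | h
        · obtain ⟨hY1, hY2⟩ := Finset.mem_filter.1 h
          exact Finset.mem_filter.2 ⟨hY1, hY2.2⟩
        · exact Finset.mem_filter.2 ⟨(p3 Y h).1, (Finset.mem_filter.1 h).2⟩
    rw [g1, Finset.card_union_of_disjoint]
    rw [Finset.disjoint_left]
    intro Y hY1 hY2
    exact (p3 Y hY2).2 (Finset.mem_filter.1 hY1).2.1
  have f5 : (if G.Adj b a then 1 else 0 : ℕ) = (if G.Adj a b then 1 else 0) := by
    simp only [G.adj_comm]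
  rw [h2, h1, f1, f2, f4, hna]
  unfold EE
  rw [hnb, f5] at f3
  have f6 : (nb G (R.erase a) b : ℤ) = 3 + (Sh G B R b).card - (if G.Adj a b then 1 else 0 : ℕ) := by
    have : (3 + (Sh G B R b).card : ℤ) = ((nb G (R.erase a) b + (if G.Adj a b then 1 else 0) : ℕ) : ℤ) := by
      exact_mod_cast f3
    rw [this]
    push_cast
    ring
  rw [f6]
  push_cast
  ring

end Pool.Agent.Lib.MP4d044e.UB
end

section
/-!
# MP_4d044e_co, upper bound: module PRC (pairs)
-/
open Classical Finset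

namespace Pool.Agent.Lib.MP4d044e.UB

namespace PRCM

variable {V : Type} (G : SimpleGraph V)

/-- The members of a family which touch `u`. -/
noncomputable def tf (Q : Finset (Finset V)) (u : V) : Finset (Finset V) :=
  Q.filter fun Y => Tch G u Y

theorem tch_PP {B : ℕ} {R : Finset V} {a u : V} (h : Tch G u (PP G B R a)) :
    1 ≤ (if G.Adj u a then 1 else 0) + (tf G (Sh G B R a) u).card := by
  obtain ⟨y, hy, huy⟩ := h
  unfold PP at hy
  rcases Finset.mem_insert.1 hy with h1 | h1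
  · rw [h1] at huy
    rw [if_pos huy]
    omega
  · unfold hg at h1
    obtain ⟨Y, hY, hyY⟩ := Finset.mem_biUnion.1 h1
    have : 0 < (tf G (Sh G B R a) u).card :=
      Finset.card_pos.2 ⟨Y, Finset.mem_filter.2 ⟨hY, y, hyY, huy⟩⟩
    omega

theorem CC_sub {d B : ℕ} {R : Finset V} {x : V} (hx : x ∈ CC G d B R) : x ∈ R := by
  unfold CC at hx
  have := (Finset.mem_filter.1 hx).1
  unfold Big at this
  exact (Finset.mem_filter.1 this).1

theorem C3_sub {d B : ℕ} {R : Finset V} {x : V} (hx : x ∈ C3 G d B R) : x ∈ CC G d B R := by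
  unfold C3 at hx
  exact (Finset.mem_filter.1 hx).1

theorem four {α : Type} (A B C D E : Finset α) (hA : A ⊆ E) (hB : B ⊆ E) (hC : C ⊆ E)
    (hD : D ⊆ E) (hAB : Disjoint A B) (hAC : Disjoint A C) (hAD : Disjoint A D)
    (hBC : Disjoint B C) (hBD : Disjoint B D) (hCD : Disjoint C D) :
    A.card + B.card + C.card + D.card ≤ E.card := by
  have h1 : (A ∪ B).card = A.card + B.card := Finset.card_union_of_disjoint hAB
  have h2 : (C ∪ D).card = C.card + D.card := Finset.card_union_of_disjoint hCD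
  have h3 : Disjoint (A ∪ B) (C ∪ D) := by
    rw [Finset.disjoint_union_left, Finset.disjoint_union_right, Finset.disjoint_union_right]
    exact ⟨⟨hAC, hAD⟩, hBC, hBD⟩
  have h4 : ((A ∪ B) ∪ (C ∪ D)).card = (A ∪ B).card + (C ∪ D).card :=
    Finset.card_union_of_disjoint h3
  have h5 : ((A ∪ B) ∪ (C ∪ D)).card ≤ E.card :=
    Finset.card_le_card (Finset.union_subset (Finset.union_subset hA hB)
      (Finset.union_subset hC hD))
  omega

theorem count [Fintype V] (hPRA : SpecPRA) (d B : ℕ) (R : Finset V) (hd : 3 ≤ d) (hB : 1 ≤ B)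
    (hdeg : ∀ v, nb G univ v ≤ d) (u a b : V) (ha : a ∈ CC G d B R) (hb : b ∈ CC G d B R)
    (hab : a ≠ b) :
    (tf G (ST G B R) u).card + (tf G (Sh G B R a) u).card + (tf G (Sh G B R b) u).card +
      (tf G (Sr G B R a b) u).card ≤ (tf G (ST G B ((R.erase a).erase b)) u).card := by
  obtain ⟨p1, p2, p3, -, -⟩ := hPRA V G d B R hd hB hdeg a ha b hb hab
  have q2 : ∀ Y ∈ Sh G B R a, Tch G a Y := fun Y hY => by
    unfold Sh at hY
    exact (Finset.mem_filter.1 hY).2
  have q3 : ∀ Y ∈ Sh G B R b, Tch G b Y := fun Y hY => by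
    unfold Sh at hY
    exact (Finset.mem_filter.1 hY).2
  have q4 : ∀ Y ∈ Sr G B R a b, Y ∈ ST G B ((R.erase a).erase b) ∧ Tch G a Y ∧ Tch G b Y :=
    fun Y hY => by
      unfold Sr at hY
      exact Finset.mem_filter.1 hY
  have m : ∀ (Q : Finset (Finset V)) (Y : Finset V), Y ∈ tf G Q u ↔ Y ∈ Q ∧ Tch G u Y :=
    fun Q Y => by
      unfold tf
      exact Finset.mem_filter
  apply four
  · intro Y hY
    rw [m] at hY ⊢
    exact ⟨(p1 Y hY.1).1, hY.2⟩
  · intro Y hY
    rw [m] at hY ⊢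
    exact ⟨(p2 Y hY.1).1, hY.2⟩
  · intro Y hY
    rw [m] at hY ⊢
    exact ⟨(p3 Y hY.1).1, hY.2⟩
  · intro Y hY
    rw [m] at hY ⊢
    exact ⟨(q4 Y hY.1).1, hY.2⟩
  · rw [Finset.disjoint_left]
    intro Y h1 h2
    rw [m] at h1 h2
    exact (p1 Y h1.1).2.1 (q2 Y h2.1)
  · rw [Finset.disjoint_left]
    intro Y h1 h2
    rw [m] at h1 h2
    exact (p1 Y h1.1).2.2 (q3 Y h2.1)
  · rw [Finset.disjoint_left]
    intro Y h1 h2
    rw [m] at h1 h2
    exact (p1 Y h1.1).2.1 (q4 Y h2.1).2.1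
  · rw [Finset.disjoint_left]
    intro Y h1 h2
    rw [m] at h1 h2
    exact (p2 Y h1.1).2 (q3 Y h2.1)
  · rw [Finset.disjoint_left]
    intro Y h1 h2
    rw [m] at h1 h2
    exact (p2 Y h1.1).2 (q4 Y h2.1).2.2
  · rw [Finset.disjoint_left]
    intro Y h1 h2
    rw [m] at h1 h2
    exact (p3 Y h1.1).2 (q4 Y h2.1).2.1

end PRCM

theorem specPRC (hEEB : SpecEEB) (hADD : SpecADD) (hCOR : SpecCOR) (hPRA : SpecPRA)
    (hPRB : SpecPRB) : SpecPRC := by
  intro V _ G d B R hd hB hdeg hmax u hu hkap a ha b hb hab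
  obtain ⟨-, -, -, -, -, -, -, -, e9, -⟩ := hEEB V G
  unfold TT at ha hb
  obtain ⟨ha3, hua⟩ := Finset.mem_filter.1 ha
  obtain ⟨hb3, hub⟩ := Finset.mem_filter.1 hb
  obtain ⟨-, hcor⟩ := hCOR V G d B R hd hB hdeg hmax
  have ea := (hcor a ha3).1
  have eb := (hcor b hb3).1
  have haC : a ∈ CC G d B R := PRCM.C3_sub G ha3
  have hbC : b ∈ CC G d B R := PRCM.C3_sub G hb3
  have hCR : ∀ x ∈ CC G d B R, x ∈ R := fun x hx => PRCM.CC_sub G hx
  have hpsi := hPRB V G d B R hd hB hdeg a haC b hbC hab ea eb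
  have hcnt := PRCM.count G hPRA d B R hd hB hdeg u a b haC hbC hab
  have t1 := PRCM.tch_PP G hua
  have t2 := PRCM.tch_PP G hub
  have n1 := (e9 R a (hCR a haC)).2 u
  have n2 := (e9 (R.erase a) b (Finset.mem_erase.2 ⟨fun h => hab h.symm, hCR b hbC⟩)).2 u
  have huS : u ∉ (R.erase a).erase b := fun h =>
    hu (Finset.mem_of_mem_erase (Finset.mem_of_mem_erase h))
  have hadd := hADD V G B ((R.erase a).erase b) u huS
  have hle := hmax.max (insert u ((R.erase a).erase b))
  have hk1 : kap G B R u = (nb G R u : ℤ) - ((PRCM.tf G (ST G B R) u).card : ℤ) := rfl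
  have hk2 : kap G B ((R.erase a).erase b) u = (nb G ((R.erase a).erase b) u : ℤ) -
      ((PRCM.tf G (ST G B ((R.erase a).erase b)) u).card : ℤ) := rfl
  have hkey : kap G B ((R.erase a).erase b) u ≤ 2 - ((PRCM.tf G (Sr G B R a b) u).card : ℤ) := by
    rw [hk2]
    rw [hk1] at hkap
    omega
  have hmin : ∀ s : ℤ, s ≤ ((PRCM.tf G (Sr G B R a b) u).card : ℤ) →
      min (2 + 2 * s) 4 ≤ 2 * (EE G B R a b : ℤ) := by
    intro s hs
    have h1 : min (2 + 2 * s) 4 ≤ min (6 - 2 * kap G B ((R.erase a).erase b) u) 4 :=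
      min_le_min_right _ (by omega)
    omega
  constructor
  · have := hmin 0 (by positivity)
    norm_num at this
    omega
  · rintro ⟨Y, hY, huY⟩
    have hpos : 0 < (PRCM.tf G (Sr G B R a b) u).card :=
      Finset.card_pos.2 ⟨Y, Finset.mem_filter.2 ⟨hY, huY⟩⟩
    have := hmin 1 (by omega)
    norm_num at this
    omega

end Pool.Agent.Lib.MP4d044e.UB
end

section
/-!
# MP_4d044e_co, upper bound: module REG
-/
open Classical Finset

namespace Pool.Agent.Lib.MP4d044e.UB

namespace REGM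

/-- `2^d` copies of `G`, with the edges of `k v` directions of a cube at `v`. -/
def prodG {V : Type} (G : SimpleGraph V) (d : ℕ) (k : V → ℕ) :
    SimpleGraph (V × (Fin d → ZMod 2)) where
  Adj p q := (G.Adj p.1 q.1 ∧ p.2 = q.2) ∨
    (p.1 = q.1 ∧ ∃ t : Fin d, (t : ℕ) < k p.1 ∧ q.2 = p.2 + Pi.single t 1)
  symm := ⟨by
    rintro ⟨v, i⟩ ⟨w, j⟩ h
    rcases h with ⟨h1, h2⟩ | ⟨h1, t, h2, h3⟩
    · exact Or.inl ⟨h1.symm, h2.symm⟩
    · refine Or.inr ⟨h1.symm, t, ?_, ?_⟩
      · have h1' : v = w := h1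
        show (t : ℕ) < k w
        rw [← h1']
        exact h2
      · have h3' : j = i + Pi.single t 1 := h3
        show i = j + Pi.single t 1
        rw [h3', add_assoc, ← Pi.single_add]
        have : (1 : ZMod 2) + 1 = 0 := by decide
        rw [this]
        simp⟩
  loopless := ⟨by
    rintro ⟨v, i⟩ h
    rcases h with ⟨h1, _⟩ | ⟨_, t, _, h3⟩
    · exact G.loopless.irrefl v h1
    · have h3' : i = i + Pi.single t 1 := h3
      have h4 : (Pi.single t 1 : Fin d → ZMod 2) = 0 := by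
        have := congrArg (fun z => z - i) h3'
        simp only [sub_self, add_sub_cancel_left] at this
        exact this.symm
      have h5 := congrFun h4 t
      rw [Pi.single_eq_same, Pi.zero_apply] at h5
      exact absurd h5 (by decide)⟩

theorem card_lt {d k : ℕ} (h : k ≤ d) :
    ((Finset.univ : Finset (Fin d)).filter fun t : Fin d => (t : ℕ) < k).card = k := by
  rw [← Fintype.card_subtype]
  have e : {t : Fin d // (t : ℕ) < k} ≃ Fin k :=
    { toFun := fun t => ⟨t.1.1, t.2⟩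
      invFun := fun t => ⟨⟨t.1, lt_of_lt_of_le t.2 h⟩, t.2⟩
      left_inv := fun t => rfl
      right_inv := fun t => rfl }
  rw [Fintype.card_congr e, Fintype.card_fin]

theorem nb_prod {V : Type} [Fintype V] (G : SimpleGraph V) (d : ℕ) (k : V → ℕ)
    (v : V) (hk : k v ≤ d) (i : Fin d → ZMod 2) :
    nb (prodG G d k) Finset.univ (v, i) = nb G Finset.univ v + k v := by
  have hset : (Finset.univ.filter fun q => (prodG G d k).Adj (v, i) q) =
      ((Finset.univ.filter fun w => G.Adj v w).image fun w => (w, i)) ∪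
      (((Finset.univ : Finset (Fin d)).filter fun t : Fin d => (t : ℕ) < k v).image
        fun t : Fin d => ((v, i + (Pi.single t 1 : Fin d → ZMod 2)) : V × (Fin d → ZMod 2))) := by
    ext ⟨w, j⟩
    rw [Finset.mem_filter, Finset.mem_union, Finset.mem_image, Finset.mem_image]
    constructor
    · rintro ⟨-, h⟩
      rcases h with ⟨h1, h2⟩ | ⟨h1, t, h2, h3⟩
      · left
        refine ⟨w, Finset.mem_filter.2 ⟨Finset.mem_univ _, h1⟩, ?_⟩
        have h2' : i = j := h2
        rw [h2']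
      · right
        refine ⟨t, Finset.mem_filter.2 ⟨Finset.mem_univ _, h2⟩, ?_⟩
        have h1' : v = w := h1
        have h3' : j = i + Pi.single t 1 := h3
        rw [h1', h3']
    · intro h
      refine ⟨Finset.mem_univ _, ?_⟩
      rcases h with ⟨w', hw', h⟩ | ⟨t, ht, h⟩
      · left
        rw [Prod.mk.injEq] at h
        obtain ⟨h1, h2⟩ := h
        rw [← h1, ← h2]
        exact ⟨(Finset.mem_filter.1 hw').2, rfl⟩
      · right
        rw [Prod.mk.injEq] at h
        obtain ⟨h1, h2⟩ := h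
        rw [← h1, ← h2]
        exact ⟨rfl, t, (Finset.mem_filter.1 ht).2, rfl⟩
  have hne : ∀ t : Fin d, (i + Pi.single t 1 : Fin d → ZMod 2) ≠ i := by
    intro t h
    have h5 := congrFun h t
    rw [Pi.add_apply, Pi.single_eq_same] at h5
    have : (1 : ZMod 2) = 0 := by
      calc (1 : ZMod 2) = (i t + 1) - i t := by ring
        _ = 0 := by rw [h5]; ring
    exact absurd this (by decide)
  unfold nb
  rw [hset, Finset.card_union_of_disjoint, Finset.card_image_of_injective,
    Finset.card_image_of_injective, card_lt hk]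
  · intro t t' h
    have h' : (i + Pi.single t 1 : Fin d → ZMod 2) = i + Pi.single t' 1 := (Prod.mk.inj h).2
    have h2 : (Pi.single t 1 : Fin d → ZMod 2) = Pi.single t' 1 := add_left_cancel h'
    by_contra hne'
    have h5 := congrFun h2 t
    rw [Pi.single_eq_same, Pi.single_eq_of_ne hne'] at h5
    exact absurd h5 (by decide)
  · intro w w' h
    exact (Prod.mk.inj h).1
  · rw [Finset.disjoint_left]
    rintro ⟨w, j⟩ h1 h2
    obtain ⟨w', -, h3⟩ := Finset.mem_image.1 h1
    obtain ⟨t, -, h4⟩ := Finset.mem_image.1 h2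
    have e1 : i = j := (Prod.mk.inj h3).2
    have e2 : i + Pi.single t 1 = j := (Prod.mk.inj h4).2
    exact hne t (e2.trans e1.symm)

end REGM

theorem specREG : SpecREG := by
  intro d C μ hreg V _ G hdeg
  let k : V → ℕ := fun v => d - nb G Finset.univ v
  have hH := hreg (V × (Fin d → ZMod 2)) (REGM.prodG G d k) (by
    rintro ⟨v, i⟩
    rw [REGM.nb_prod G d k v (Nat.sub_le _ _) i]
    have := hdeg v
    show nb G Finset.univ v + (d - nb G Finset.univ v) = d
    omega)
  obtain ⟨S', ⟨α, l, hl, hC⟩, hS'⟩ := hH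
  let Sl : (Fin d → ZMod 2) → Finset V := fun i => Finset.univ.filter fun v => (v, i) ∈ S'
  have hsum : (S'.card : ℝ) = ∑ i : Fin d → ZMod 2, ((Sl i).card : ℝ) := by
    have h1 : S'.card = ∑ i : Fin d → ZMod 2, (S'.filter fun p => p.2 = i).card := by
      rw [← Finset.card_eq_sum_card_fiberwise]
      intro p _
      exact Finset.mem_coe.2 (Finset.mem_univ _)
    have h2 : ∀ i : Fin d → ZMod 2, (S'.filter fun p => p.2 = i).card = (Sl i).card := by
      intro i
      symm
      apply Finset.card_bij (fun v _ => (v, i))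
      · intro v hv
        exact Finset.mem_filter.2 ⟨(Finset.mem_filter.1 hv).2, rfl⟩
      · intro v _ w _ h
        exact (Prod.mk.inj h).1
      · rintro ⟨v, j⟩ hp
        obtain ⟨hp1, hp2⟩ := Finset.mem_filter.1 hp
        have hp2' : j = i := hp2
        subst hp2'
        exact ⟨v, Finset.mem_filter.2 ⟨Finset.mem_univ _, hp1⟩, rfl⟩
    rw [h1]
    push_cast
    exact Finset.sum_congr rfl fun i _ => by rw [h2 i]
  have hex : ∃ i : Fin d → ZMod 2, μ * (Fintype.card V : ℝ) ≤ ((Sl i).card : ℝ) := by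
    by_contra hcon
    push Not at hcon
    have h1 : ∑ i : Fin d → ZMod 2, ((Sl i).card : ℝ) <
        ∑ _i : Fin d → ZMod 2, μ * (Fintype.card V : ℝ) :=
      Finset.sum_lt_sum_of_nonempty Finset.univ_nonempty fun i _ => hcon i
    rw [← hsum, Finset.sum_const, nsmul_eq_mul, Finset.card_univ] at h1
    rw [Fintype.card_prod] at hS'
    push_cast at hS' h1
    have h2 : μ * ((Fintype.card V : ℝ) * (Fintype.card (Fin d → ZMod 2) : ℝ)) =
      (Fintype.card (Fin d → ZMod 2) : ℝ) * (μ * (Fintype.card V : ℝ)) := by ring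
    rw [h2] at hS'
    linarith
  obtain ⟨i, hi⟩ := hex
  refine ⟨Sl i, ⟨α, fun v => l (v, i), ?_, ?_⟩, hi⟩
  · intro v hv w hw hvw
    exact hl (v, i) (Finset.mem_filter.1 hv).2 (w, i) (Finset.mem_filter.1 hw).2
      (Or.inl ⟨hvw, rfl⟩)
  · intro x
    refine le_trans (Finset.card_le_card_of_injOn (fun v => (v, i)) ?_ ?_) (hC x)
    · intro v hv
      obtain ⟨hv1, hv2⟩ := Finset.mem_filter.1 hv
      exact Finset.mem_filter.2 ⟨(Finset.mem_filter.1 hv1).2, hv2⟩
    · intro v _ w _ h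
      exact (Prod.mk.inj h).1

end Pool.Agent.Lib.MP4d044e.UB
end

section
/-!
# MP_4d044e_co, upper bound: module RMF (removal of a part with payment)
-/
open Classical Finset

namespace Pool.Agent.Lib.MP4d044e.UB

theorem specRMF (hEEB : SpecEEB) (hCUT : SpecCUT) (hCUK : SpecCUK) (hFAB : SpecFAB)
    (hLBM : SpecLBM) : SpecRMF := by
  intro V G b ε M U Q m P X g hb1 hε hF hP hcut hmP hmin hno hlX hres
  obtain ⟨c, D, hD, hc0, hc2, hc4, hz, ht, hcard, hlab⟩ := hres
  obtain ⟨-, -, hcomm, hadd, hmono, -, -, -, -, hfam⟩ := hEEB V G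
  obtain ⟨hf1, hf2, -⟩ := hFAB V G U Q hF
  obtain ⟨hF', hPU, hera⟩ := hf2 P hP
  obtain ⟨hl1, -, hl3⟩ := hLBM V G U P X g m hPU hcut
  obtain ⟨-, -, hlight, -⟩ := hCUK V G U
  have hXU : X ⊆ U := hcut.sub.trans hPU
  have un1 : ∀ P : Finset V, un ({P} : Finset (Finset V)) = P := by
    intro P
    simp [un]
  -- singletons have exactly three outgoing edges
  have hd3 : ∀ P' ∈ Q, dd G U P' = 3 := by
    intro P' hP'
    have h1 := hmin {P'} (Finset.singleton_subset_iff.2 hP') (Finset.singleton_nonempty _)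
      (by rw [Finset.card_singleton]; omega)
    rw [un1] at h1
    have h2 := hF.le P' hP'
    omega
  -- pairs
  have hdj : ∀ P' ∈ Q.erase P, Disjoint P' P := by
    intro P' hP'
    rw [Finset.mem_erase] at hP'
    exact hF.dis P' hP'.2 P hP hP'.1
  have hpair : ∀ P' ∈ Q.erase P, ee G P' P ≤ 1 := by
    intro P' hP'
    have hP'2 := Finset.mem_of_mem_erase hP'
    have h1 := hmin {P', P} (by
      intro T hT
      rw [Finset.mem_insert, Finset.mem_singleton] at hT
      rcases hT with rfl | rfl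
      · exact hP'2
      · exact hP) (Finset.insert_nonempty _ _) (by
        rw [Finset.card_pair (Finset.ne_of_mem_erase hP')]; omega)
    have h2 : un ({P', P} : Finset (Finset V)) = P' ∪ P := by simp [un]
    rw [h2] at h1
    have h3 := (hCUT V G U P' P (hf2 P' hP'2).2.1 hPU).2.2.2.1 (hdj P' hP')
    have h4 := hd3 P' hP'2
    have h5 := hd3 P hP
    omega
  -- the three neighbours
  set N := (Q.erase P).filter fun P' => ee G P' P = 1 with hN
  have hNsub : N ⊆ Q.erase P := Finset.filter_subset _ _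
  have hNcard : N.card = 3 := by
    have h1 : ee G (un (Q.erase P)) P = ∑ P' ∈ Q.erase P, ee G P' P :=
      (hfam (Q.erase P) P hF'.dis).1
    have h2 : un (Q.erase P) = U \ P := hF'.cov
    rw [h2, hcomm] at h1
    have h3 : ee G P (U \ P) = 3 := hd3 P hP
    rw [h3] at h1
    rw [hN, Finset.card_filter, h1]
    refine Finset.sum_congr rfl fun P' hP' => ?_
    have := hpair P' hP'
    by_cases he : ee G P' P = 1
    · rw [if_pos he, he]
    · rw [if_neg he]; omega
  have hcN : ∀ P' ∈ N, c P' = 0 := by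
    intro P' hP'
    rw [hN, Finset.mem_filter] at hP'
    have hP'2 := Finset.mem_of_mem_erase hP'.1
    have h1 := hz {P'} (Finset.singleton_subset_iff.2 hP'.1) (by simpa using hb1) (by
      rw [un1]
      have h3 := (hCUT V G U P' P (hf2 P' hP'2).2.1 hPU).2.2.2.2.2 (hdj P' hP'.1)
      have h4 := hd3 P' hP'2
      omega)
    simpa using h1
  -- light parts stay light
  have hL : ∀ P' ∈ Q.erase P, Light G U P' → Light G (U \ P) P' := by
    intro P' hP' hl
    refine hlight P' (U \ P) ?_ Finset.sdiff_subset hl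
    intro x hx
    refine Finset.mem_sdiff.2 ⟨(hf2 P' (Finset.mem_of_mem_erase hP')).2.1 hx, fun hxP => ?_⟩
    exact Finset.disjoint_left.1 (hdj P' hP') hx hxP
  -- the weight
  obtain ⟨w, hw0, hw2, hXw, hwl⟩ : ∃ w : ℝ, 0 ≤ w ∧ w ≤ 2 ∧ (X.card : ℝ) ≤ w ∧
      (∀ P' ∈ Q, Light G U P' → w ≤ 1) := by
    rcases hlX with ⟨h1, h2⟩ | ⟨h1, h2⟩
    · exact ⟨1, by norm_num, by norm_num, by exact_mod_cast h2, fun _ _ _ => le_refl _⟩
    · exact ⟨2, by norm_num, le_refl _, by exact_mod_cast h2, fun P' hP' hl => absurd hl (h1 P' hP')⟩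
  let c' : Finset V → ℝ := fun P' => if P' = P ∨ P' ∈ N then w / 4 else c P'
  have c'1 : ∀ P', P' = P ∨ P' ∈ N → c' P' = w / 4 := fun P' h => by simp only [c', if_pos h]
  have c'2 : ∀ P', ¬ (P' = P ∨ P' ∈ N) → c' P' = c P' := fun P' h => by simp only [c', if_neg h]
  have hnotP : ∀ P', ¬ (P' = P ∨ P' ∈ N) → P' ∈ Q → P' ∈ Q.erase P := fun P' h hP' =>
    Finset.mem_erase.2 ⟨fun he => h (Or.inl he), hP'⟩
  have hc'4 : ∀ P' ∈ Q, Light G U P' → c' P' ≤ 1 / 4 := by
    intro P' hP' hl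
    by_cases h : P' = P ∨ P' ∈ N
    · rw [c'1 P' h]
      have := hwl P' hP' hl
      linarith
    · rw [c'2 P' h]
      exact hc4 P' (hnotP P' h hP') (hL P' (hnotP P' h hP') hl)
  refine ⟨c', D ∪ X, ?_, ?_, ?_, hc'4, ?_, ?_, ?_, ?_⟩
  · exact Finset.union_subset (hD.trans Finset.sdiff_subset) hXU
  · intro P'
    by_cases h : P' = P ∨ P' ∈ N
    · rw [c'1 P' h]; linarith
    · rw [c'2 P' h]; exact hc0 P'
  · intro P' hP'
    by_cases h : P' = P ∨ P' ∈ N
    · rw [c'1 P' h]; linarith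
    · rw [c'2 P' h]; exact hc2 P' (hnotP P' h hP')
  · intro W hW hb hd
    have : W = ∅ := by
      by_contra hne
      have := hmin W hW (Finset.nonempty_iff_ne_empty.2 hne) (by omega)
      omega
    rw [this]; simp
  · intro W hW hl hb hd
    have h1 : W.card ≤ 1 := by
      by_contra hc
      have := hno W hW hl (by omega) hb
      omega
    rcases Nat.le_one_iff_eq_zero_or_eq_one.1 h1 with h0 | h0
    · rw [Finset.card_eq_zero.1 h0]; norm_num
    · obtain ⟨P', hP'⟩ := Finset.card_eq_one.1 h0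
      have hPW : P' ∈ W := by rw [hP']; exact Finset.mem_singleton_self _
      have := hc'4 P' (hW hPW) (hl P' hPW)
      rw [hP', Finset.sum_singleton]
      linarith
  · have hPN : P ∉ N := fun h => (Finset.notMem_erase P Q) (hNsub h)
    have e1 : ∑ P' ∈ Q, c' P' = w + ∑ P' ∈ Q.erase P, c P' := by
      rw [← Finset.add_sum_erase Q c' hP, c'1 P (Or.inl rfl), ← Finset.sum_sdiff hNsub,
        ← Finset.sum_sdiff (f := c) hNsub]
      have e2 : ∑ P' ∈ N, c' P' = 3 * (w / 4) := by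
        rw [Finset.sum_congr rfl fun P' hP' => c'1 P' (Or.inr hP'), Finset.sum_const, hNcard]
        simp
      have e3 : ∑ P' ∈ N, c P' = 0 := Finset.sum_eq_zero hcN
      have e4 : ∑ P' ∈ Q.erase P \ N, c' P' = ∑ P' ∈ Q.erase P \ N, c P' := by
        refine Finset.sum_congr rfl fun P' hP' => c'2 P' ?_
        rw [Finset.mem_sdiff, Finset.mem_erase] at hP'
        rintro (h | h)
        · exact hP'.1.1 h
        · exact hP'.2 h
      rw [e2, e3, e4]
      ring
    rw [e1]
    have h1 : ((D ∪ X).card : ℝ) ≤ D.card + X.card := by exact_mod_cast Finset.card_union_le D X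
    have h2 : ε * ∑ v ∈ U \ P, (mv P X g m v : ℝ) ≤ ε * ∑ v ∈ U, (m v : ℝ) := by
      apply mul_le_mul_of_nonneg_left _ hε
      exact_mod_cast hl1
    linarith
  · exact hl3 D M hD hmP hlab

end Pool.Agent.Lib.MP4d044e.UB
end

section
/-!
# MP_4d044e_co, upper bound: module RMP (removal of a part)
-/
open Classical Finset

namespace Pool.Agent.Lib.MP4d044e.UB

theorem specRMP (hCUT : SpecCUT) (hCUK : SpecCUK) (hFAB : SpecFAB) (hLBM : SpecLBM) : SpecRMP := by
  intro V G b ε M U Q m P X g hε hF hP hcut hmP hmass hres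
  obtain ⟨c, D, hD, hc0, hc2, hc4, hz, ht, hcard, hlab⟩ := hres
  obtain ⟨hf1, hf2, -⟩ := hFAB V G U Q hF
  obtain ⟨-, hPU, hera⟩ := hf2 P hP
  obtain ⟨-, -, hl3⟩ := hLBM V G U P X g m hPU hcut
  obtain ⟨-, -, hlight, -⟩ := hCUK V G U
  have hXU : X ⊆ U := hcut.sub.trans hPU
  -- light parts stay light
  have hL : ∀ P' ∈ Q.erase P, Light G U P' → Light G (U \ P) P' := by
    intro P' hP' hl
    rw [Finset.mem_erase] at hP'
    refine hlight P' (U \ P) ?_ Finset.sdiff_subset hl
    intro x hx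
    refine Finset.mem_sdiff.2 ⟨(hf2 P' hP'.2).2.1 hx, fun hxP => ?_⟩
    exact Finset.disjoint_left.1 (hF.dis P' hP'.2 P hP hP'.1) hx hxP
  -- the number of edges
  have hdd : ∀ W ⊆ Q, dd G (U \ P) (un (W.erase P)) ≤ dd G U (un W) := by
    intro W hW
    rw [hera W hW]
    exact (hCUT V G U (un W) P (hf1 W hW).1 hPU).2.2.2.2.1
  have hsub : ∀ W ⊆ Q, W.erase P ⊆ Q.erase P := fun W hW => Finset.erase_subset_erase P hW
  let c' : Finset V → ℝ := fun P' => if P' = P then 0 else c P'
  have hsum : ∀ W : Finset (Finset V), ∑ P' ∈ W, c' P' = ∑ P' ∈ W.erase P, c P' := by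
    intro W
    by_cases hPW : P ∈ W
    · rw [← Finset.add_sum_erase W c' hPW]
      have h1 : c' P = 0 := by simp [c']
      rw [h1, zero_add]
      refine Finset.sum_congr rfl fun P' hP' => ?_
      simp only [c', if_neg (Finset.ne_of_mem_erase hP')]
    · rw [Finset.erase_eq_of_notMem hPW]
      refine Finset.sum_congr rfl fun P' hP' => ?_
      have : P' ≠ P := fun h => hPW (h ▸ hP')
      simp only [c', if_neg this]
  refine ⟨c', D ∪ X, ?_, ?_, ?_, ?_, ?_, ?_, ?_, ?_⟩
  · exact Finset.union_subset (hD.trans Finset.sdiff_subset) hXU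
  · intro P'
    by_cases h : P' = P
    · simp [c', h]
    · simp only [c', if_neg h]
      exact hc0 P'
  · intro P' hP'
    by_cases h : P' = P
    · simp [c', h]
    · simp only [c', if_neg h]
      exact hc2 P' (Finset.mem_erase.2 ⟨h, hP'⟩)
  · intro P' hP' hl
    by_cases h : P' = P
    · simp [c', h]
    · simp only [c', if_neg h]
      exact hc4 P' (Finset.mem_erase.2 ⟨h, hP'⟩) (hL P' (Finset.mem_erase.2 ⟨h, hP'⟩) hl)
  · intro W hW hb hd
    rw [hsum]
    exact hz (W.erase P) (hsub W hW) ((Finset.card_le_card (Finset.erase_subset P W)).trans hb)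
      ((hdd W hW).trans hd)
  · intro W hW hl hb hd
    rw [hsum]
    refine ht (W.erase P) (hsub W hW) ?_
      ((Finset.card_le_card (Finset.erase_subset P W)).trans hb) ((hdd W hW).trans hd)
    intro P' hP'
    exact hL P' (hsub W hW hP') (hl P' (Finset.mem_of_mem_erase hP'))
  · rw [hsum]
    have h1 : ((D ∪ X).card : ℝ) ≤ D.card + X.card := by exact_mod_cast Finset.card_union_le D X
    linarith
  · exact hl3 D M hD hmP hlab

end Pool.Agent.Lib.MP4d044e.UB
end

section
/-!
# MP_4d044e_co, upper bound: module UBR (the regular case)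
-/
open Classical Finset

namespace Pool.Agent.Lib.MP4d044e.UB

theorem specUBR (hNUM : SpecNUM) (hMXK : SpecMXK) (hEXT : SpecEXT) (hFRS : SpecFRS)
    (hWSM : SpecWSM) : SpecUBR := by
  intro d hd ε hε
  obtain ⟨-, -, -, hr0, -, -, -, -, -⟩ := hNUM d hd
  obtain ⟨B0, hB0⟩ := exists_nat_ge (4 * rr d / ε)
  set B := B0 + 1 with hB
  have hB1 : 1 ≤ B := by omega
  have hBr : 4 * rr d / ε ≤ (B : ℝ) := by
    refine hB0.trans ?_
    rw [hB]; push_cast; linarith
  have hBpos : (0 : ℝ) < (B : ℝ) := by exact_mod_cast hB1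
  obtain ⟨M, hM⟩ := hEXT d B (ε / 2) (by omega) hB1 (by linarith)
  refine ⟨M + d * B + 1, ?_⟩
  intro V _ G hG
  have hG' : ∀ v, nb G univ v ≤ d := fun v => (hG v).le
  obtain ⟨⟨R, hR⟩, -⟩ := hMXK V G B
  obtain ⟨c, D, hD, hc, -, hcu, hcard, hlab⟩ := hM V G hG' R hR
  refine ⟨R \ D, hFRS V G d B M R D (by omega) hB1 hG' hD hlab, ?_⟩
  have h1 := hWSM V G d B R c hd hB1 hG hR hc hcu
  have hDR : D ⊆ R := fun x hx => mem_CC_R G d B R (hD hx)
  have h2 : ((R \ D).card : ℝ) = R.card - D.card := by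
    have := Finset.card_sdiff_add_card_eq_card hDR
    have h3 : ((R \ D).card : ℝ) + D.card = R.card := by exact_mod_cast this
    linarith
  have h3 : (R.card : ℝ) ≤ Fintype.card V := by exact_mod_cast Finset.card_le_univ R
  have h4 : 2 * rr d * R.card / B ≤ ε / 2 * R.card := by
    rw [div_le_iff₀ hBpos]
    have h5 : 4 * rr d ≤ B * ε := by
      rw [div_le_iff₀ hε] at hBr
      linarith
    have h6 : (0 : ℝ) ≤ R.card := Nat.cast_nonneg _
    nlinarith [mul_le_mul_of_nonneg_right h5 h6]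
  have h7 : ε * (R.card : ℝ) ≤ ε * Fintype.card V := mul_le_mul_of_nonneg_left h3 hε.le
  rw [h2]
  linarith

end Pool.Agent.Lib.MP4d044e.UB
end
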