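import Pool.Agent.Lib.MP_4d044e_co.UB.Spec

section
/-!
# MP_4d044e_co, upper bound: module SMP (the small components)
-/
open Classical Finset

namespace Pool.Agent.Lib.MP4d044e.UB

namespace SMPM

variable {V : Type} (G : SimpleGraph V)

/-- The components with at most `d B + 1` vertices. -/
noncomputable def KK (d B : ℕ) (R : Finset V) : Finset (Finset V) :=
  R.powerset.filter fun K => IsC G R K ∧ K.card ≤ d * B + 1

theorem mem_KK {d B : ℕ} {R K : Finset V} :
    K ∈ KK G d B R ↔ IsC G R K ∧ K.card ≤ d * B + 1 := by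
  unfold KK
  rw [Finset.mem_filter, Finset.mem_powerset]
  exact ⟨fun h => h.2, fun h => ⟨h.1.2.1, h⟩⟩

theorem un_KK (hCNB : SpecCNB) (d B : ℕ) (R : Finset V) :
    un (KK G d B R) = R \ Big G d B R := by
  obtain ⟨-, -, -, -, c5, c6⟩ := hCNB V G
  ext v
  unfold un
  rw [Finset.mem_biUnion, Finset.mem_sdiff]
  constructor
  · rintro ⟨K, hK, hv⟩
    rw [mem_KK] at hK
    simp only [id] at hv
    refine ⟨hK.1.2.1 hv, fun hB => ?_⟩
    unfold Big at hB
    obtain ⟨-, K', hK', hv', hc⟩ := Finset.mem_filter.1 hB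
    have : K = K' := c6 R K K' hK.1 hK' ⟨v, Finset.mem_inter.2 ⟨hv, hv'⟩⟩
    rw [← this] at hc
    omega
  · rintro ⟨hR, hB⟩
    obtain ⟨Q, hQ, hv⟩ := c5 R v hR
    refine ⟨Q, ?_, hv⟩
    rw [mem_KK]
    refine ⟨hQ, ?_⟩
    by_contra hc
    push Not at hc
    apply hB
    unfold Big
    exact Finset.mem_filter.2 ⟨hR, Q, hQ, hv, hc⟩

theorem no_edge {R K K' : Finset V} (hCNB : SpecCNB) (hK : IsC G R K) (hK' : IsC G R K')
    (hne : K ≠ K') : ∀ a ∈ K, ∀ b ∈ K', ¬ G.Adj a b := by
  obtain ⟨-, -, -, -, -, c6⟩ := hCNB V G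
  intro a ha b hb hab
  have hb' : b ∈ K := hK.2.2 a ha b (hK'.2.1 hb) hab
  exact hne (c6 R K K' hK hK' ⟨b, Finset.mem_inter.2 ⟨hb', hb⟩⟩)

theorem disj {R K K' : Finset V} (hCNB : SpecCNB) (hK : IsC G R K) (hK' : IsC G R K')
    (hne : K ≠ K') : Disjoint K K' := by
  obtain ⟨-, -, -, -, -, c6⟩ := hCNB V G
  rw [Finset.disjoint_left]
  intro a ha hb
  exact hne (c6 R K K' hK hK' ⟨a, Finset.mem_inter.2 ⟨ha, hb⟩⟩)

theorem one_comp (hEEB : SpecEEB) (hCNC : SpecCNC) (d B : ℕ) (R K : Finset V)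
    (hK : K ∈ KK G d B R) :
    2 * B * K.card ≤ B * ee G K K + (if K ∈ ST G B R then 2 * B else 0) + 2 * K.card := by
  obtain ⟨-, -, -, -, -, -, e7, -⟩ := hEEB V G
  rw [mem_KK] at hK
  obtain ⟨hC, hc⟩ := hK
  obtain ⟨-, n2, -, -⟩ := hCNC V G K hC.1
  have hmem : K ∈ ST G B R ↔ IsC G R K ∧ K.card ≤ B ∧ ee G K K + 2 = 2 * K.card := by
    unfold ST
    rw [Finset.mem_filter, Finset.mem_powerset]
    exact ⟨fun h => h.2, fun h => ⟨h.1.2.1, h⟩⟩
  by_cases hS : K ∈ ST G B R
  · rw [if_pos hS]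
    obtain ⟨-, -, h3⟩ := hmem.1 hS
    have : 2 * B * K.card = B * (ee G K K + 2) := by rw [h3]; ring
    rw [this]
    nlinarith
  · rw [if_neg hS, add_zero]
    by_cases hB : K.card ≤ B
    · have h3 : ee G K K + 2 ≠ 2 * K.card := fun h => hS (hmem.2 ⟨hC, hB, h⟩)
      obtain ⟨m, hm⟩ := e7 K
      have h4 : 2 * K.card ≤ ee G K K := by omega
      calc 2 * B * K.card = B * (2 * K.card) := by ring
        _ ≤ B * ee G K K := Nat.mul_le_mul_left _ h4
        _ ≤ _ := Nat.le_add_right _ _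
    · push Not at hB
      calc 2 * B * K.card = B * (2 * K.card) := by ring
        _ ≤ B * (ee G K K + 2) := Nat.mul_le_mul_left _ n2
        _ = B * ee G K K + 2 * B := by ring
        _ ≤ _ := by omega

theorem main (hEEB : SpecEEB) (hCNB : SpecCNB) (hCNC : SpecCNC) (d B : ℕ) (R : Finset V) :
    2 * B * (R \ Big G d B R).card ≤ B * ee G (R \ Big G d B R) (R \ Big G d B R) +
      2 * B * (ST G B R).card + 2 * (R \ Big G d B R).card := by
  obtain ⟨-, -, -, -, -, -, -, e8, -, e10⟩ := hEEB V G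
  have hdis : ∀ P ∈ KK G d B R, ∀ P' ∈ KK G d B R, P ≠ P' → Disjoint P P' := by
    intro P hP P' hP' hne
    exact disj G hCNB ((mem_KK G).1 hP).1 ((mem_KK G).1 hP').1 hne
  have hno : ∀ P ∈ KK G d B R, ∀ P' ∈ KK G d B R, P ≠ P' → ee G P P' = 0 := by
    intro P hP P' hP' hne
    rw [e8]
    exact no_edge G hCNB ((mem_KK G).1 hP).1 ((mem_KK G).1 hP').1 hne
  obtain ⟨-, -, t3, t4⟩ := e10 (KK G d B R) ∅ hdis
  have t5 := t4 hno
  rw [un_KK G hCNB] at t3 t5
  rw [t3, t5, Finset.mul_sum, Finset.mul_sum, Finset.mul_sum]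
  have h1 : ∑ P ∈ KK G d B R, 2 * B * P.card ≤
      ∑ P ∈ KK G d B R, (B * ee G P P + (if P ∈ ST G B R then 2 * B else 0) + 2 * P.card) :=
    Finset.sum_le_sum fun P hP => one_comp G hEEB hCNC d B R P hP
  rw [Finset.sum_add_distrib, Finset.sum_add_distrib] at h1
  have h2 : ∑ P ∈ KK G d B R, (if P ∈ ST G B R then 2 * B else 0) ≤ 2 * B * (ST G B R).card := by
    rw [← Finset.sum_filter, Finset.sum_const, smul_eq_mul, mul_comm]
    apply Nat.mul_le_mul_left
    apply Finset.card_le_card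
    intro P hP
    exact (Finset.mem_filter.1 hP).2
  omega

theorem split (hEEB : SpecEEB) (d B : ℕ) (R : Finset V) :
    ee G R R = ee G (Big G d B R) (Big G d B R) + ee G (R \ Big G d B R) (R \ Big G d B R) := by
  obtain ⟨-, -, e3, e4, -, -, -, e8, -⟩ := hEEB V G
  have hsub : Big G d B R ⊆ R := by
    unfold Big
    exact Finset.filter_subset _ _
  have hu : Big G d B R ∪ (R \ Big G d B R) = R := Finset.union_sdiff_of_subset hsub
  have hd : Disjoint (Big G d B R) (R \ Big G d B R) := Finset.disjoint_sdiff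
  have h0 : ee G (Big G d B R) (R \ Big G d B R) = 0 := by
    rw [e8]
    intro a ha b hb hab
    unfold Big at ha
    obtain ⟨-, K, hK, haK, hc⟩ := Finset.mem_filter.1 ha
    obtain ⟨hbR, hbB⟩ := Finset.mem_sdiff.1 hb
    apply hbB
    unfold Big
    exact Finset.mem_filter.2 ⟨hbR, K, hK, hK.2.2 a haK b hbR hab, hc⟩
  have h1 := (e4 (Big G d B R) (R \ Big G d B R) R hd).1
  have h2 := (e4 (Big G d B R) (R \ Big G d B R) (Big G d B R) hd).2
  have h3 := (e4 (Big G d B R) (R \ Big G d B R) (R \ Big G d B R) hd).2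
  rw [hu] at h1 h2 h3
  have h4 := e3 (R \ Big G d B R) (Big G d B R)
  omega

end SMPM

theorem specSMP (hEEB : SpecEEB) (hCNB : SpecCNB) (hCNC : SpecCNC) : SpecSMP := by
  intro V _ G d B R _ _
  exact ⟨SMPM.main G hEEB hCNB hCNC d B R, SMPM.split G hEEB d B R⟩

end Pool.Agent.Lib.MP4d044e.UB
end

section
/-!
# MP_4d044e_co, upper bound: module STA (the induction over the states)
-/
open Classical Finset

namespace Pool.Agent.Lib.MP4d044e.UB

namespace STAM

variable {V : Type} (G : SimpleGraph V)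

theorem mv_none (P X : Finset V) (m : V → ℕ) : mv P X (fun _ => none) m = m := by
  funext y
  unfold mv
  simp

theorem res_empty (b : ℕ) (ε : ℝ) (M : ℕ) (m : V → ℕ) :
    Res G b ε M ∅ ∅ m := by
  refine ⟨fun _ => 0, ∅, Finset.empty_subset _, fun _ => le_refl _, ?_, ?_, ?_, ?_, ?_, ?_⟩
  · intro P hP; exact absurd hP (Finset.notMem_empty P)
  · intro P hP; exact absurd hP (Finset.notMem_empty P)
  · intro W _ _ _; simp
  · intro W _ _ _ _; simp
  · simp
  · exact ⟨Unit, fun _ => (), fun v hv => absurd hv (by simp), fun x => by simp⟩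

end STAM

open STAM in
theorem specSTA (hEEB : SpecEEB) (hCUT : SpecCUT) (hCUK : SpecCUK) (hFAB : SpecFAB)
    (hLBM : SpecLBM) (hRMP : SpecRMP) (hRMF : SpecRMF) (hMGA : SpecMGA) (hMGB : SpecMGB)
    (hMGC : SpecMGC) : SpecSTA := by
  intro V G b N ε hb hε hεN
  suffices H : ∀ k : ℕ, ∀ (U : Finset V) (Q : Finset (Finset V)) (m : V → ℕ), Q.card ≤ k → Fam G U Q →
      (∀ P ∈ Q, ∑ v ∈ P, m v ≤ 2 * b * N) → Res G b ε (2 * b * N) U Q m from
    fun U Q m hF hm => H Q.card U Q m (le_refl _) hF hm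
  intro k
  induction k with
  | zero =>
    intro U Q m hk hF _
    have hQ : Q = ∅ := Finset.card_eq_zero.1 (by omega)
    have hU : U = ∅ := by
      rw [← hF.cov, hQ]
      rfl
    rw [hQ, hU]
    exact res_empty G b ε _ m
  | succ k ih =>
    intro U Q m hk hF hm
    by_cases hQe : Q = ∅
    · exact ih U Q m (by rw [hQe]; simp) hF hm
    have hQne : Q.Nonempty := Finset.nonempty_iff_ne_empty.2 hQe
    obtain ⟨hf1, hf2, hf3⟩ := hFAB V G U Q hF
    obtain ⟨-, -, hcomm, -, -, -, -, -, -, hfam⟩ := hEEB V G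
    obtain ⟨hk1, hk2, -, -⟩ := hCUK V G U
    have un1 : ∀ P : Finset V, un ({P} : Finset (Finset V)) = P := by
      intro P
      simp [un]
    by_cases hH : ∃ P ∈ Q, N < ∑ v ∈ P, m v
    · -- a heavy part
      obtain ⟨P, hP, hheavy⟩ := hH
      obtain ⟨hF', hPU, -⟩ := hf2 P hP
      obtain ⟨X, hX, hcut⟩ := hk2 P hPU
      have hX3 : X.card ≤ 3 := hX.trans (hF.le P hP)
      have hmv : mv P X (fun _ => none) m = m := mv_none P X m
      refine hRMP V G b ε _ U Q m P X (fun _ => none) hε.le hF hP hcut (hm P hP) ?_ ?_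
      · rw [hmv]
        have h1 : ∑ v ∈ U, (m v : ℝ) = ∑ v ∈ U \ P, (m v : ℝ) + ∑ v ∈ P, (m v : ℝ) :=
          (Finset.sum_sdiff hPU).symm
        have h2 : (N : ℝ) ≤ ∑ v ∈ P, (m v : ℝ) := by exact_mod_cast hheavy.le
        have h3 : (X.card : ℝ) ≤ 3 := by exact_mod_cast hX3
        rw [h1, mul_add]
        have h4 : ε * N ≤ ε * ∑ v ∈ P, (m v : ℝ) := mul_le_mul_of_nonneg_left h2 hε.le
        linarith
      · rw [hmv]
        refine ih _ _ m ?_ hF' fun P' hP' => hm P' (Finset.mem_of_mem_erase hP')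
        have := Finset.card_erase_of_mem hP
        omega
    · push Not at hH
      have h2bN : 2 * N ≤ 2 * b * N := by
        have : 2 * 1 * N ≤ 2 * b * N := by
          apply Nat.mul_le_mul_right
          omega
        omega
      -- the masses after a removal
      have hrem : ∀ P ∈ Q, ∀ X g, Cut G U P X g →
          Fam G (U \ P) (Q.erase P) ∧ Res G b ε (2 * b * N) (U \ P) (Q.erase P) (mv P X g m) := by
        intro P hP X g hcut
        obtain ⟨hF', hPU, -⟩ := hf2 P hP
        refine ⟨hF', ih _ _ _ ?_ hF' ?_⟩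
        · have := Finset.card_erase_of_mem hP
          omega
        · intro P' hP'
          have hP'2 := Finset.mem_of_mem_erase hP'
          have h1 := (hLBM V G U P X g m hPU hcut).2.1 P' (by
            intro x hx
            refine Finset.mem_sdiff.2 ⟨(hf2 P' hP'2).2.1 hx, fun hxP => ?_⟩
            exact Finset.disjoint_left.1 (hF.dis P' hP'2 P hP (Finset.ne_of_mem_erase hP')) hx hxP)
          have h2 := hH P' hP'2
          have h3 := hH P hP
          omega
      -- merging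
      have hmrg : ∀ W0 ⊆ Q, 2 ≤ W0.card → W0.card ≤ 2 * b → dd G U (un W0) ≤ 3 →
          Res G b ε (2 * b * N) U (insert (un W0) (Q \ W0)) m := by
        intro W0 hW0 h2 h2b hd
        obtain ⟨hF', -, hcard⟩ := hf3 W0 hW0 (Finset.card_pos.1 (by omega)) hd
        refine ih _ _ _ (by omega) hF' ?_
        intro P' hP'
        rw [Finset.mem_insert] at hP'
        rcases hP' with hP' | hP'
        · rw [hP']
          have h1 : ∑ v ∈ un W0, m v = ∑ P ∈ W0, ∑ v ∈ P, m v := by
            unfold un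
            rw [Finset.sum_biUnion]
            · rfl
            · intro P hP P'' hP'' hne
              exact hF.dis P (hW0 hP) P'' (hW0 hP'') hne
          rw [h1]
          calc ∑ P ∈ W0, ∑ v ∈ P, m v ≤ ∑ P ∈ W0, N := Finset.sum_le_sum fun P hP => hH P (hW0 hP)
            _ = W0.card * N := by rw [Finset.sum_const, smul_eq_mul]
            _ ≤ 2 * b * N := Nat.mul_le_mul_right _ h2b
        · exact hm P' (Finset.mem_sdiff.1 hP').1
      -- the minimum
      obtain ⟨W0, hW0mem, hW0min⟩ := Finset.exists_min_image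
        (Q.powerset.filter fun W => W.Nonempty ∧ W.card ≤ 2 * b) (fun W => dd G U (un W)) (by
          obtain ⟨P, hP⟩ := hQne
          refine ⟨{P}, ?_⟩
          rw [Finset.mem_filter, Finset.mem_powerset, Finset.singleton_subset_iff,
            Finset.card_singleton]
          exact ⟨hP, Finset.singleton_nonempty _, by omega⟩)
      rw [Finset.mem_filter, Finset.mem_powerset] at hW0mem
      obtain ⟨hW0, hW0ne, hW0b⟩ := hW0mem
      have hmin : ∀ W ⊆ Q, W.Nonempty → W.card ≤ 2 * b → dd G U (un W0) ≤ dd G U (un W) :=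
        fun W hW h1 h2 => hW0min W (Finset.mem_filter.2 ⟨Finset.mem_powerset.2 hW, h1, h2⟩)
      by_cases hδ : dd G U (un W0) ≤ 2
      · by_cases hbig : ∃ W ⊆ Q, 2 ≤ W.card ∧ W.card ≤ 2 * b ∧ dd G U (un W) = dd G U (un W0)
        · obtain ⟨W, hW, h2, h2b, he⟩ := hbig
          refine hMGA V G b ε _ U Q m W hb hF hW h2 h2b (by omega) ?_ (hmrg W hW h2 h2b (by omega))
          intro W' hW' h1 h3
          rw [he]
          exact hmin W' hW' h1 h3
        · -- attained only by singletons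
          push Not at hbig
          have hW01 : W0.card = 1 := by
            by_contra hc
            have h1 : 0 < W0.card := Finset.card_pos.2 hW0ne
            exact hbig W0 hW0 (by omega) hW0b rfl
          obtain ⟨s, hs⟩ := Finset.card_eq_one.1 hW01
          have hsQ : s ∈ Q := hW0 (by rw [hs]; exact Finset.mem_singleton_self _)
          rw [hs, un1] at hδ hmin hbig
          obtain ⟨hF', hsU, -⟩ := hf2 s hsQ
          by_cases hδ1 : dd G U s ≤ 1
          · obtain ⟨X, g, hX, hcut⟩ := hk1 s 0 hsU (by omega)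
            obtain ⟨-, hres⟩ := hrem s hsQ X g hcut
            refine hRMP V G b ε _ U Q m s X g hε.le hF hsQ hcut (hm s hsQ) ?_ hres
            have h0 : X.card = 0 := by omega
            rw [h0, Nat.cast_zero, zero_add]
            apply mul_le_mul_of_nonneg_left _ hε.le
            exact_mod_cast (hLBM V G U s X g m hsU hcut).1
          · have hs2 : dd G U s = 2 := by omega
            have hmin3 : ∀ W ⊆ Q, 2 ≤ W.card → W.card ≤ 2 * b → 3 ≤ dd G U (un W) := by
              intro W hW h2 h2b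
              have h1 := hbig W hW h2 h2b
              have h3 := hmin W hW (Finset.card_pos.1 (by omega)) h2b
              omega
            -- a neighbour
            have hex : ∃ x ∈ Q.erase s, ee G x s ≠ 0 := by
              by_contra hc
              push Not at hc
              have h1 : ee G (un (Q.erase s)) s = ∑ P' ∈ Q.erase s, ee G P' s :=
                (hfam (Q.erase s) s hF'.dis).1
              rw [hF'.cov, Finset.sum_eq_zero hc, hcomm] at h1
              have h3 : ee G s (U \ s) = 2 := hs2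
              omega
            obtain ⟨x, hx, hxs⟩ := hex
            rw [Finset.mem_erase] at hx
            have hdj : Disjoint s x := hF.dis s hsQ x hx.2 hx.1.symm
            have hxU := (hf2 x hx.2).2.1
            have hdd := (hCUT V G U s x hsU hxU).2.2.2.1 hdj
            have hpair : ({s, x} : Finset (Finset V)) ⊆ Q := by
              intro T hT
              rw [Finset.mem_insert, Finset.mem_singleton] at hT
              rcases hT with rfl | rfl
              · exact hsQ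
              · exact hx.2
            have hpc : ({s, x} : Finset (Finset V)).card = 2 := Finset.card_pair hx.1.symm
            have hunp : un ({s, x} : Finset (Finset V)) = s ∪ x := by simp [un]
            have h3 := hmin3 {s, x} hpair (by omega) (by omega)
            rw [hunp] at h3
            have h4 := hF.le x hx.2
            have h5 : ee G s x = ee G x s := hcomm s x
            have hsx1 : ee G s x = 1 := by omega
            refine hMGB V G b ε _ U Q m s x hb hF hsQ hx.2 hx.1.symm hs2 hsx1 hmin3 ?_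
            have h6 := hmrg {s, x} hpair (by omega) (by omega) (by rw [hunp]; omega)
            rw [hunp] at h6
            have hQW0 : Q \ {s, x} = (Q.erase s).erase x := by
              ext P
              simp only [Finset.mem_sdiff, Finset.mem_insert, Finset.mem_singleton, Finset.mem_erase]
              tauto
            rw [hQW0] at h6
            exact h6
      · -- everything has at least three outgoing edges
        have hmin3 : ∀ W ⊆ Q, W.Nonempty → W.card ≤ 2 * b → 3 ≤ dd G U (un W) := by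
          intro W hW h1 h2
          have := hmin W hW h1 h2
          omega
        by_cases hL : ∃ W ⊆ Q, (∀ P ∈ W, Light G U P) ∧ 2 ≤ W.card ∧ W.card ≤ b ∧ dd G U (un W) = 3
        · obtain ⟨W1, hW1mem, hW1max⟩ := Finset.exists_max_image
            (Q.powerset.filter fun W => (∀ P ∈ W, Light G U P) ∧ W.card ≤ b ∧ dd G U (un W) = 3)
            Finset.card (by
              obtain ⟨W, hW, h1, h2, h3, h4⟩ := hL
              exact ⟨W, Finset.mem_filter.2 ⟨Finset.mem_powerset.2 hW, h1, h3, h4⟩⟩)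
          rw [Finset.mem_filter, Finset.mem_powerset] at hW1mem
          obtain ⟨hW1, hl1, hb1, hd1⟩ := hW1mem
          have h2 : 2 ≤ W1.card := by
            obtain ⟨W, hW, h1, h2, h3, h4⟩ := hL
            have := hW1max W (Finset.mem_filter.2 ⟨Finset.mem_powerset.2 hW, h1, h3, h4⟩)
            omega
          exact hMGC V G b ε _ U Q m W1 hF hW1 h2 hb1 hl1 hd1
            (fun W hW h1 h3 h4 => hW1max W (Finset.mem_filter.2 ⟨Finset.mem_powerset.2 hW, h1, h3, h4⟩))
            hmin3 (hmrg W1 hW1 h2 (by omega) (by omega))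
        · push Not at hL
          have hno : ∀ W ⊆ Q, (∀ P' ∈ W, Light G U P') → 2 ≤ W.card → W.card ≤ b →
              4 ≤ dd G U (un W) := by
            intro W hW h1 h2 h3
            have h4 := hL W hW h1 h2 h3
            have h5 := hmin3 W hW (Finset.card_pos.1 (by omega)) (by omega)
            omega
          by_cases hlp : ∃ P ∈ Q, Light G U P
          · obtain ⟨P, hP, hl⟩ := hlp
            obtain ⟨X, g, hX, hcut⟩ := hl
            exact hRMF V G b ε _ U Q m P X g hb hε.le hF hP hcut (hm P hP) hmin3 hno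
              (Or.inl ⟨⟨X, g, hX, hcut⟩, hX⟩) (hrem P hP X g hcut).2
          · push Not at hlp
            obtain ⟨P, hP⟩ := hQne
            obtain ⟨X, g, hX, hcut⟩ := hk1 P 2 (hf2 P hP).2.1 (hF.le P hP)
            exact hRMF V G b ε _ U Q m P X g hb hε.le hF hP hcut (hm P hP) hmin3 hno
              (Or.inr ⟨hlp, hX⟩) (hrem P hP X g hcut).2

end Pool.Agent.Lib.MP4d044e.UB
end

section
/-!
# MP_4d044e_co, upper bound: module TOP (the extraction lemma)
-/
open Classical Finset

namespace Pool.Agent.Lib.MP4d044e.UB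

namespace TOPM

variable {V : Type} (G : SimpleGraph V)

/-- The family of the singletons. -/
noncomputable def sg (W : Finset V) : Finset (Finset V) := W.image fun v => {v}

theorem inj : Function.Injective fun v : V => ({v} : Finset V) := Finset.singleton_injective

theorem mem_sg (W : Finset V) (P : Finset V) : P ∈ sg W ↔ ∃ v ∈ W, {v} = P := by
  unfold sg
  rw [Finset.mem_image]

theorem un_sg (W : Finset V) : un (sg W) = W := by
  unfold un sg
  ext v
  simp

theorem card_sg (W : Finset V) : (sg W).card = W.card := Finset.card_image_of_injective _ inj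

theorem sum_sg (W : Finset V) (c : Finset V → ℝ) : ∑ P ∈ sg W, c P = ∑ v ∈ W, c {v} := by
  unfold sg
  rw [Finset.sum_image fun a _ b _ h => inj h]

theorem dd_single (U : Finset V) (v : V) : dd G U {v} = nb G U v := by
  unfold dd ee
  rw [Finset.sum_singleton]
  unfold nb
  congr 1
  ext w
  simp only [Finset.mem_filter, Finset.mem_sdiff, Finset.mem_singleton]
  constructor
  · rintro ⟨⟨h1, -⟩, h2⟩; exact ⟨h1, h2⟩
  · rintro ⟨h1, h2⟩; exact ⟨⟨h1, fun h => h2.ne h.symm⟩, h2⟩

theorem light (U : Finset V) (v : V) : Light G U {v} := by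
  refine ⟨{v}, fun _ => none, by simp, ⟨Finset.Subset.refl _, ?_, ?_, ?_⟩⟩
  · intro z hz hzX; exact absurd hz hzX
  · intro z hz hzX; exact absurd hz hzX
  · intro z hz hzX; exact absurd hz hzX

end TOPM

open TOPM in
theorem specTOP (hSTA : SpecSTA) : SpecTOP := by
  intro b M0 ε hb hε
  obtain ⟨N0, hN0⟩ := exists_nat_ge (3 / ε)
  set N := max N0 M0 with hN
  refine ⟨2 * b * N, ?_⟩
  intro V G U m hdeg hm
  have h3 : 3 ≤ ε * (N : ℝ) := by
    have h1 : (N0 : ℝ) ≤ (N : ℝ) := by exact_mod_cast le_max_left N0 M0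
    have h2 : 3 / ε ≤ (N : ℝ) := hN0.trans h1
    rw [div_le_iff₀ hε] at h2
    linarith
  have hF : Fam G U (sg U) := by
    refine ⟨?_, ?_, un_sg U, ?_⟩
    · intro P hP P' hP' hne
      obtain ⟨v, -, rfl⟩ := (mem_sg U P).1 hP
      obtain ⟨w, -, rfl⟩ := (mem_sg U P').1 hP'
      rw [Finset.disjoint_singleton]
      exact fun h => hne (by rw [h])
    · intro P hP
      obtain ⟨v, -, rfl⟩ := (mem_sg U P).1 hP
      exact Finset.singleton_nonempty v
    · intro P hP
      obtain ⟨v, hv, rfl⟩ := (mem_sg U P).1 hP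
      rw [dd_single]
      exact hdeg v hv
  have hmass : ∀ P ∈ sg U, ∑ v ∈ P, m v ≤ 2 * b * N := by
    intro P hP
    obtain ⟨v, hv, rfl⟩ := (mem_sg U P).1 hP
    rw [Finset.sum_singleton]
    have h1 := hm v hv
    have h2 : M0 ≤ N := le_max_right N0 M0
    have h4 : 1 * N ≤ 2 * b * N := Nat.mul_le_mul_right _ (by omega)
    omega
  obtain ⟨c, D, hD, hc0, -, hc4, hz, ht, hcard, hlab⟩ := hSTA V G b N ε hb hε h3 U (sg U) m hF hmass
  have hsg : ∀ W ⊆ U, sg W ⊆ sg U := fun W hW => Finset.image_subset_image hW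
  have hll : ∀ W ⊆ U, ∀ P ∈ sg W, Light G U P := by
    intro W _ P hP
    obtain ⟨v, -, rfl⟩ := (mem_sg W P).1 hP
    exact light G U v
  refine ⟨fun v => if v ∈ U then c {v} else 0, D, hD, ?_, ?_, ?_, ?_, hlab⟩
  · intro v
    by_cases hv : v ∈ U
    · simp only [if_pos hv]
      exact ⟨hc0 _, hc4 _ ((mem_sg U _).2 ⟨v, hv, rfl⟩) (light G U v)⟩
    · simp only [if_neg hv]
      norm_num
  · intro v hv
    by_cases hvU : v ∈ U
    · simp only [if_pos hvU]
      have h1 := hz (sg {v}) (hsg {v} (Finset.singleton_subset_iff.2 hvU)) (by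
        rw [card_sg, Finset.card_singleton]; exact hb) (by
        rw [un_sg, dd_single]; exact hv hvU)
      rw [sum_sg, Finset.sum_singleton] at h1
      exact h1
    · simp only [if_neg hvU]
  · intro W hW hWb hWe
    have h1 := ht (sg W) (hsg W hW) (hll W hW) (by rw [card_sg]; exact hWb) (by
      rw [un_sg]; exact hWe)
    rw [sum_sg] at h1
    refine le_trans (le_of_eq ?_) h1
    exact Finset.sum_congr rfl fun v hv => if_pos (hW hv)
  · rw [sum_sg] at hcard
    have : ∑ v ∈ U, (if v ∈ U then c {v} else 0) = ∑ v ∈ U, c {v} :=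
      Finset.sum_congr rfl fun v hv => if_pos hv
    rw [this]
    exact hcard

end Pool.Agent.Lib.MP4d044e.UB
end

section
/-!
# MP_4d044e_co, upper bound: module TRA (triples, the case of an inner element)
-/
open Classical Finset

namespace Pool.Agent.Lib.MP4d044e.UB

namespace TRAM

variable {V : Type} {G : SimpleGraph V}

theorem mem_TT {d B : ℕ} {R : Finset V} {u a : V} (h : a ∈ TT G d B R u) :
    a ∈ CC G d B R ∧ nb G (CC G d B R) a = 3 ∧ a ∈ C3 G d B R ∧ Tch G u (PP G B R a) := by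
  unfold TT C3 at h
  rw [Finset.mem_filter, Finset.mem_filter] at h
  refine ⟨h.1.1, h.1.2, ?_, h.2⟩
  unfold C3
  rw [Finset.mem_filter]
  exact h.1

theorem mem_Sr {B : ℕ} {R : Finset V} {a b : V} {Y : Finset V} (h : Y ∈ Sr G B R a b) :
    IsC G ((R.erase a).erase b) Y ∧ Y.card ≤ B ∧ Tch G a Y ∧ Tch G b Y ∧
    a ∉ Y ∧ b ∉ Y := by
  unfold Sr ST at h
  rw [Finset.mem_filter, Finset.mem_filter, Finset.mem_powerset] at h
  obtain ⟨⟨h1, h2, h3, -⟩, h4, h5⟩ := h
  refine ⟨h2, h3, h4, h5, fun h => ?_, fun h => ?_⟩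
  · have := h1 h
    simp at this
  · have := h1 h
    simp at this

theorem self_PP {B : ℕ} {R : Finset V} {a : V} : a ∈ PP G B R a := Finset.mem_insert_self _ _

theorem nb_pos {S : Finset V} {v w : V} (hw : w ∈ S) (h : G.Adj v w) : 1 ≤ nb G S v :=
  Finset.card_pos.2 ⟨w, Finset.mem_filter.2 ⟨hw, h⟩⟩

theorem ee_pair {a b : V} (hab : a ≠ b) (S : Finset V) : ee G {a, b} S = nb G S a + nb G S b := by
  unfold ee
  rw [Finset.sum_pair hab]

end TRAM

open TRAM

theorem specTRA (hEEB : SpecEEB) (hCNB : SpecCNB) (hROO : SpecROO) (hPRC : SpecPRC)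
    (hSHY : SpecSHY) : SpecTRA := by
  intro V _ G d B R hd hB hdeg hR u hu hk a haT b hbT hab Y hY c hcT hcY
  have hprc := hPRC V G d B R hd hB hdeg hR u hu hk
  have hshy := hSHY V G d B R hd hB hdeg
  obtain ⟨hnbU, hnbM, hsym, heeU, hmono, -, -, hzero, -⟩ := hEEB V G
  obtain ⟨-, hsub, -, -, -, huniq⟩ := hCNB V G
  obtain ⟨-, hroo2, hroo3, -⟩ := hROO V G d B R hd hB hdeg
  set T := TT G d B R u with hTdef
  set C := CC G d B R with hCdef
  have hTC : ∀ a ∈ T, a ∈ C := fun a ha => (mem_TT ha).1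
  have hT3 : ∀ a ∈ T, nb G C a = 3 := fun a ha => (mem_TT ha).2.1
  have hTu : ∀ a ∈ T, Tch G u (PP G B R a) := fun a ha => (mem_TT ha).2.2.2
  have hcC := hTC c hcT
  obtain ⟨hYc, hYB, -, -, haY, hbY⟩ := mem_Sr hY
  obtain ⟨-, hY2, -, -, hY5, -, hY7⟩ := hshy a (hTC a haT) b (hTC b hbT) hab Y hY
  have hne_ca : c ≠ a := fun h => haY (h ▸ hcY)
  have hne_cb : c ≠ b := fun h => hbY (h ▸ hcY)
  -- the set Z
  have hZ : ∃ Z : Finset V, Z ⊆ C ∧ Z.card ≤ B ∧
      (∀ z ∈ Z, ∀ w ∈ C, G.Adj z w → w ∈ Z ∨ w = a ∨ w = b) ∧ Disjoint (Y ∩ C) Z ∧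
      a ∉ Z ∧ b ∉ Z ∧ 2 ≤ ee G {a, b} Z + ee G {a, b} {a, b} := by
    by_cases hadj : G.Adj a b
    · refine ⟨∅, Finset.empty_subset _, by simp, by simp, Finset.disjoint_empty_right _, by simp,
        by simp, ?_⟩
      rw [ee_pair hab {a, b}]
      have h1 : 1 ≤ nb G {a, b} a := nb_pos (by simp) hadj
      have h2 : 1 ≤ nb G {a, b} b := nb_pos (by simp) hadj.symm
      omega
    · have h1 : Tch G u Y := by
        obtain ⟨y, hy, huy⟩ := hTu c hcT
        exact ⟨y, hY2 c hcY hcC hy, huy⟩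
      have h2 := (hprc a haT b hbT hab).2 ⟨Y, hY, h1⟩
      unfold EE at h2
      rw [if_neg hadj, zero_add] at h2
      obtain ⟨Y', hY', hne⟩ := Finset.exists_mem_ne (by omega : 1 < (Sr G B R a b).card) Y
      obtain ⟨hYc', hYB', -, -, haY', hbY'⟩ := mem_Sr hY'
      obtain ⟨-, -, -, -, hY5', -, hY7'⟩ := hshy a (hTC a haT) b (hTC b hbT) hab Y' hY'
      refine ⟨Y' ∩ C, Finset.inter_subset_right, (Finset.card_le_card Finset.inter_subset_left).trans hYB',
        ?_, ?_, fun h => haY' (Finset.mem_inter.1 h).1, fun h => hbY' (Finset.mem_inter.1 h).1, ?_⟩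
      · intro z hz w hw hzw
        rcases hY5' z (Finset.mem_inter.1 hz).1 w hw hzw with h | h
        · exact Or.inl (Finset.mem_inter.2 ⟨h, hw⟩)
        · exact Or.inr h
      · rw [Finset.disjoint_left]
        intro z hz hz'
        exact hne (huniq _ Y' Y hYc' hYc ⟨z, Finset.mem_inter.2
          ⟨(Finset.mem_inter.1 hz').1, (Finset.mem_inter.1 hz).1⟩⟩)
      · omega
  obtain ⟨Z, hZC, hZB, hZ5, hZY, haZ, hbZ, hZ2⟩ := hZ
  set W : Finset V := {a, b} ∪ ((Y ∩ C) ∪ Z) with hW
  have haW : a ∈ W := by rw [hW]; simp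
  have hbW : b ∈ W := by rw [hW]; simp
  have hYW : ∀ y ∈ Y, y ∈ C → y ∈ W := by
    intro y hy hyC
    rw [hW]; simp [hy, hyC]
  have hZW : Z ⊆ W := by
    intro z hz
    rw [hW]; simp [hz]
  have hWc : ∀ w ∈ W, w = a ∨ w = b ∨ (w ∈ Y ∧ w ∈ C) ∨ w ∈ Z := by
    intro w hw
    rw [hW] at hw
    simp only [Finset.mem_union, Finset.mem_insert, Finset.mem_singleton, Finset.mem_inter] at hw
    tauto
  have hWC : W ⊆ C := by
    intro w hw
    rcases hWc w hw with h | h | h | h
    · rw [h]; exact hTC a haT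
    · rw [h]; exact hTC b hbT
    · exact h.2
    · exact hZC h
  have hYadj : ∀ y ∈ Y, ∀ w ∈ C, G.Adj y w → w ∈ W := by
    intro y hy w hw hyw
    rcases hY5 y hy w hw hyw with h | h | h
    · exact hYW w h hw
    · rw [h]; exact haW
    · rw [h]; exact hbW
  have hZadj : ∀ y ∈ Z, ∀ w ∈ C, G.Adj y w → w ∈ W := by
    intro y hy w hw hyw
    rcases hZ5 y hy w hw hyw with h | h | h
    · exact hZW h
    · rw [h]; exact haW
    · rw [h]; exact hbW
  have hdis1 : Disjoint ({a, b} : Finset V) ((Y ∩ C) ∪ Z) := by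
    rw [Finset.disjoint_left]
    intro x hx hx'
    rw [Finset.mem_insert, Finset.mem_singleton] at hx
    rw [Finset.mem_union, Finset.mem_inter] at hx'
    rcases hx with rfl | rfl
    · rcases hx' with h | h
      · exact haY h.1
      · exact haZ h
    · rcases hx' with h | h
      · exact hbY h.1
      · exact hbZ h
  have hab1 : nb G (C \ W) a + nb G (C \ W) b ≤ 1 := by
    have h1 : ee G {a, b} W = ee G {a, b} {a, b} + ee G {a, b} ((Y ∩ C) ∪ Z) :=
      (heeU _ _ _ hdis1).2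
    have h2 : ee G {a, b} ((Y ∩ C) ∪ Z) = ee G {a, b} (Y ∩ C) + ee G {a, b} Z := (heeU _ _ _ hZY).2
    have h3 : ee G {a, b} (W ∪ (C \ W)) = ee G {a, b} W + ee G {a, b} (C \ W) :=
      (heeU _ _ _ Finset.disjoint_sdiff).2
    rw [Finset.union_sdiff_of_subset hWC, ee_pair hab C, ee_pair hab (C \ W), hT3 a haT,
      hT3 b hbT] at h3
    have h4 : 1 ≤ (Y ∩ C3 G d B R).card :=
      Finset.card_pos.2 ⟨c, Finset.mem_inter.2 ⟨hcY, (mem_TT hcT).2.2.1⟩⟩
    omega
  refine ⟨W, hWC, ?_, ?_, ?_⟩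
  · intro e heT
    by_contra heW
    have heC := hTC e heT
    have heCW : e ∈ C \ W := Finset.mem_sdiff.2 ⟨heC, heW⟩
    have hce : c ≠ e := fun h => heW (h ▸ hYW c hcY hcC)
    have hnadj : ¬ G.Adj c e := fun h => heW (hYadj c hcY e heC h)
    -- the claim
    have claim : ∀ X ∈ Sr G B R c e, ∃ p ∈ X, (p = a ∨ p = b) ∧ 1 ≤ nb G (C \ W) p := by
      intro X hX
      have hfin : ∀ p ∈ X, p ∈ W → ∀ w ∈ C, w ∉ W → G.Adj p w →
          ∃ p ∈ X, (p = a ∨ p = b) ∧ 1 ≤ nb G (C \ W) p := by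
        intro p hp hpW w hw hwW hpw
        refine ⟨p, hp, ?_, nb_pos (Finset.mem_sdiff.2 ⟨hw, hwW⟩) hpw⟩
        rcases hWc p hpW with h | h | h | h
        · exact Or.inl h
        · exact Or.inr h
        · exact absurd (hYadj p h.1 w hw hpw) hwW
        · exact absurd (hZadj p h w hw hpw) hwW
      obtain ⟨hXc, -, ⟨z1, hz1, hcz1⟩, ⟨z2, hz2, hez2⟩, -, -⟩ := mem_Sr hX
      obtain ⟨-, hX2, hX3, hX4, -, -, -⟩ := hshy c hcC e heC hce X hX
      have hz1C := hX4 z1 hz1 (Or.inl hcz1)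
      have hz2C := hX4 z2 hz2 (Or.inr hez2)
      have hz1W : z1 ∈ W := hYadj c hcY z1 hz1C hcz1
      by_cases hz2W : z2 ∈ W
      · exact hfin z2 hz2 hz2W e heC heW hez2.symm
      · set A : Finset V := ((X ∩ C) ∩ W).biUnion fun y => PP G B R y with hA
        have hAX : A ⊆ X := by
          intro x hx
          rw [hA, Finset.mem_biUnion] at hx
          obtain ⟨y, hy, hxy⟩ := hx
          rw [Finset.mem_inter, Finset.mem_inter] at hy
          exact hX2 y hy.1.1 hy.1.2 hxy
        have hz1A : z1 ∈ A := by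
          rw [hA, Finset.mem_biUnion]
          exact ⟨z1, Finset.mem_inter.2 ⟨Finset.mem_inter.2 ⟨hz1, hz1C⟩, hz1W⟩, self_PP⟩
        have hz2A : z2 ∉ A := by
          rw [hA, Finset.mem_biUnion]
          rintro ⟨y, hy, hxy⟩
          rw [Finset.mem_inter, Finset.mem_inter] at hy
          have hne : z2 ≠ y := fun h => hz2W (h ▸ hy.2)
          exact Finset.disjoint_left.1 (hroo2 z2 hz2C y hy.1.2 hne) self_PP hxy
        obtain ⟨x, hx, x', hx', hxA, hxx⟩ := hXc.1.2 A hAX ⟨z1, hz1A⟩ (fun h => hz2A (h ▸ hz2))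
        rw [hA, Finset.mem_biUnion] at hx
        obtain ⟨y, hy, hxy⟩ := hx
        rw [Finset.mem_inter, Finset.mem_inter] at hy
        obtain ⟨y', hy', hyC', hxy'⟩ := hX3 x' hx'
        have hyW' : y' ∉ W := by
          intro h
          apply hxA
          rw [hA, Finset.mem_biUnion]
          exact ⟨y', Finset.mem_inter.2 ⟨Finset.mem_inter.2 ⟨hy', hyC'⟩, h⟩, hxy'⟩
        have hne : y ≠ y' := fun h => hyW' (h ▸ hy.2)
        obtain ⟨h1, h2⟩ := hroo3 y hy.1.2 y' hyC' hne x hxy x' hxy' hxx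
        exact hfin y hy.1.1 hy.2 y' hyC' hyW' (h1 ▸ h2 ▸ hxx)
    obtain ⟨hp1, hp2⟩ := hprc c hcT e heT hce
    unfold EE at hp1 hp2
    rw [if_neg hnadj, zero_add] at hp1 hp2
    obtain ⟨X, hX⟩ := Finset.card_pos.1 hp1
    obtain ⟨p, hpX, hpab, hp⟩ := claim X hX
    have hpT : p ∈ T := by
      rcases hpab with h | h
      · rw [h]; exact haT
      · rw [h]; exact hbT
    obtain ⟨-, hX2, -⟩ := hshy c hcC e heC hce X hX
    have huX : Tch G u X := by
      obtain ⟨y, hy, huy⟩ := hTu p hpT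
      exact ⟨y, hX2 p hpX (hTC p hpT) hy, huy⟩
    have hp3 := hp2 ⟨X, hX, huX⟩
    obtain ⟨X', hX', hne⟩ := Finset.exists_mem_ne (by omega : 1 < (Sr G B R c e).card) X
    obtain ⟨p', hpX', hpab', hp'⟩ := claim X' hX'
    have hpp : p = p' := by
      rcases hpab with h | h <;> rcases hpab' with h' | h'
      · rw [h, h']
      · rw [h] at hp; rw [h'] at hp'; omega
      · rw [h] at hp; rw [h'] at hp'; omega
      · rw [h, h']
    exact hne (huniq _ X' X (mem_Sr hX').1 (mem_Sr hX).1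
      ⟨p, Finset.mem_inter.2 ⟨hpp ▸ hpX', hpX⟩⟩)
  · have h1 : W.card ≤ ({a, b} : Finset V).card + ((Y ∩ C).card + Z.card) :=
      (Finset.card_union_le _ _).trans (Nat.add_le_add_left (Finset.card_union_le _ _) _)
    have h2 : ({a, b} : Finset V).card = 2 := Finset.card_pair hab
    have h3 : (Y ∩ C).card ≤ Y.card := Finset.card_le_card Finset.inter_subset_left
    omega
  · have h1 : ee G W (C \ W) = ee G {a, b} (C \ W) + ee G ((Y ∩ C) ∪ Z) (C \ W) :=
      (heeU _ _ _ hdis1).1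
    have h2 : ee G ((Y ∩ C) ∪ Z) (C \ W) = 0 := by
      rw [hzero]
      intro x hx w hw hxw
      rw [Finset.mem_sdiff] at hw
      rw [Finset.mem_union, Finset.mem_inter] at hx
      rcases hx with h | h
      · exact hw.2 (hYadj x h.1 w hw.1 hxw)
      · exact hw.2 (hZadj x h w hw.1 hxw)
    rw [ee_pair hab (C \ W)] at h1
    omega

end Pool.Agent.Lib.MP4d044e.UB
end

section
/-!
# MP_4d044e_co, upper bound: module TRB (triples, the case of no inner element)
-/
open Classical Finset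

namespace Pool.Agent.Lib.MP4d044e.UB

namespace TRBM

variable {V : Type} {G : SimpleGraph V}

/-- A neighbour of `a` in `Y` (if there is one). -/
noncomputable def pk (G : SimpleGraph V) (a : V) (Y : Finset V) : V :=
  if h : Tch G a Y then h.choose else a

theorem pk_mem {a : V} {Y : Finset V} (h : Tch G a Y) : pk G a Y ∈ Y ∧ G.Adj a (pk G a Y) := by
  unfold pk
  rw [dif_pos h]
  exact h.choose_spec

/-- The neighbours of `a` chosen for the pair `(a, b)`. -/
noncomputable def FF (G : SimpleGraph V) (B : ℕ) (R : Finset V) (a b : V) : Finset V :=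
  (if G.Adj a b then {b} else ∅) ∪ (Sr G B R a b).image (pk G a)

theorem CC_sub_R {d B : ℕ} {R : Finset V} {a : V} (h : a ∈ CC G d B R) : a ∈ R := by
  unfold CC Big at h
  rw [Finset.mem_filter, Finset.mem_filter] at h
  exact h.1.1

theorem mem_TT {d B : ℕ} {R : Finset V} {u a : V} (h : a ∈ TT G d B R u) :
    a ∈ CC G d B R ∧ nb G (CC G d B R) a = 3 ∧ a ∈ C3 G d B R ∧ Tch G u (PP G B R a) := by
  unfold TT C3 at h
  rw [Finset.mem_filter, Finset.mem_filter] at h
  refine ⟨h.1.1, h.1.2, ?_, h.2⟩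
  unfold C3
  rw [Finset.mem_filter]
  exact h.1

theorem mem_Sr {B : ℕ} {R : Finset V} {a b : V} {Y : Finset V} (h : Y ∈ Sr G B R a b) :
    IsC G ((R.erase a).erase b) Y ∧ Y.card ≤ B ∧ Tch G a Y ∧ Tch G b Y ∧ Y ⊆ (R.erase a).erase b ∧
    a ∉ Y ∧ b ∉ Y := by
  unfold Sr ST at h
  rw [Finset.mem_filter, Finset.mem_filter, Finset.mem_powerset] at h
  obtain ⟨⟨h1, h2, h3, -⟩, h4, h5⟩ := h
  refine ⟨h2, h3, h4, h5, h1, fun h => ?_, fun h => ?_⟩
  · have := h1 h
    simp at this
  · have := h1 h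
    simp at this

theorem card_FF (hCNB : SpecCNB) {B : ℕ} {R : Finset V} {a b : V} :
    (FF G B R a b).card = EE G B R a b := by
  obtain ⟨-, -, -, -, -, huniq⟩ := hCNB V G
  have hinj : ((Sr G B R a b).image (pk G a)).card = (Sr G B R a b).card := by
    apply Finset.card_image_of_injOn
    intro Y hY Y' hY' he
    rw [Finset.mem_coe] at hY hY'
    obtain ⟨h1, -, h3, -⟩ := mem_Sr hY
    obtain ⟨h1', -, h3', -⟩ := mem_Sr hY'
    refine huniq _ Y Y' h1 h1' ⟨pk G a Y, Finset.mem_inter.2 ⟨(pk_mem h3).1, ?_⟩⟩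
    have : pk G a Y = pk G a Y' := he
    rw [this]
    exact (pk_mem h3').1
  unfold FF EE
  rw [Finset.card_union_of_disjoint, hinj]
  · congr 1
    split_ifs <;> simp
  · split_ifs with h
    · rw [Finset.disjoint_singleton_left, Finset.mem_image]
      rintro ⟨Y, hY, he⟩
      obtain ⟨-, -, h3, -, -, -, h7⟩ := mem_Sr hY
      exact h7 (he ▸ (pk_mem h3).1)
    · exact Finset.disjoint_empty_left _

end TRBM

open TRBM

theorem specTRB (hEEB : SpecEEB) (hCNB : SpecCNB) (hPRC : SpecPRC) (hTUK : SpecTUK)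
    (hSHY : SpecSHY) : SpecTRB := by
  intro V _ G d B R hd hB hdeg hR u hu hk h3T hyp
  have hprc := hPRC V G d B R hd hB hdeg hR u hu hk
  have htuk := hTUK V G d B R hd hB hdeg u hu
  rw [hk] at htuk
  have hshy := hSHY V G d B R hd hB hdeg
  obtain ⟨hnbU, hnbM, -⟩ := hEEB V G
  obtain ⟨-, hsub, -, -, -, huniq⟩ := hCNB V G
  set T := TT G d B R u with hTdef
  set C := CC G d B R with hCdef
  have hTC : ∀ a ∈ T, a ∈ C := fun a ha => (mem_TT ha).1
  have hT3 : ∀ a ∈ T, nb G C a = 3 := fun a ha => (mem_TT ha).2.1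
  have hCR : ∀ a ∈ C, a ∈ R := fun a ha => CC_sub_R ha
  -- the set W
  set W : Finset V := T ∪ T.biUnion fun a => (T.erase a).biUnion fun b =>
    (Sr G B R a b).biUnion fun Y => Y ∩ C with hW
  have hTW : T ⊆ W := Finset.subset_union_left
  have hWY : ∀ a ∈ T, ∀ b ∈ T, a ≠ b → ∀ Y ∈ Sr G B R a b, ∀ y ∈ Y, y ∈ C → y ∈ W := by
    intro a ha b hb hab Y hY y hy hyC
    rw [hW, Finset.mem_union]
    right
    simp only [Finset.mem_biUnion]
    exact ⟨a, ha, b, Finset.mem_erase.2 ⟨hab.symm, hb⟩, Y, hY, Finset.mem_inter.2 ⟨hy, hyC⟩⟩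
  have hWcases : ∀ w ∈ W, w ∈ T ∨ ∃ a ∈ T, ∃ b ∈ T, a ≠ b ∧ ∃ Y ∈ Sr G B R a b, w ∈ Y ∧ w ∈ C := by
    intro w hw
    rw [hW, Finset.mem_union] at hw
    rcases hw with hw | hw
    · exact Or.inl hw
    · right
      simp only [Finset.mem_biUnion] at hw
      obtain ⟨a, ha, b, hb, Y, hY, hwY⟩ := hw
      rw [Finset.mem_erase] at hb
      rw [Finset.mem_inter] at hwY
      exact ⟨a, ha, b, hb.2, hb.1.symm, Y, hY, hwY.1, hwY.2⟩
  have hWC : W ⊆ C := by
    intro w hw
    rcases hWcases w hw with h | ⟨a, -, b, -, -, Y, -, -, h⟩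
    · exact hTC w h
    · exact h
  -- the sets FF
  have hFW : ∀ a ∈ T, ∀ b ∈ T, a ≠ b → ∀ z ∈ FF G B R a b, z ∈ W ∧ G.Adj a z := by
    intro a ha b hb hab z hz
    unfold FF at hz
    rw [Finset.mem_union, Finset.mem_image] at hz
    rcases hz with hz | ⟨Y, hY, rfl⟩
    · split_ifs at hz with h
      · rw [Finset.mem_singleton] at hz
        subst hz
        exact ⟨hTW hb, h⟩
      · simp at hz
    · obtain ⟨-, -, h3, -⟩ := mem_Sr hY
      obtain ⟨h4, h5⟩ := pk_mem h3
      obtain ⟨-, -, -, h6, -⟩ := hshy a (hTC a ha) b (hTC b hb) hab Y hY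
      exact ⟨hWY a ha b hb hab Y hY _ h4 (h6 _ h4 (Or.inl h5)), h5⟩
  have hdisj : ∀ a ∈ T, ∀ b ∈ T, a ≠ b → ∀ b' ∈ T, a ≠ b' → b ≠ b' →
      ∀ Y ∈ Sr G B R a b, ∀ Y' ∈ Sr G B R a b', Disjoint Y Y' := by
    intro a ha b hb hab b' hb' hab' hbb Y hY Y' hY'
    rw [Finset.disjoint_iff_inter_eq_empty]
    by_contra hne
    obtain ⟨h1, -, h3, h4, h5, h6, h7⟩ := mem_Sr hY
    obtain ⟨h1', -, h3', h4', h5', h6', h7'⟩ := mem_Sr hY'
    have hb'Y : b' ∉ Y := hyp a ha b hb hab Y hY b' hb'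
    have hYS : Y ⊆ (R.erase a).erase b' := by
      intro y hy
      have h8 := h5 hy
      rw [Finset.mem_erase, Finset.mem_erase] at h8
      rw [Finset.mem_erase, Finset.mem_erase]
      exact ⟨fun h => hb'Y (h ▸ hy), h8.2⟩
    have hYY' : Y ⊆ Y' := hsub _ Y Y' h1.1 hYS h1'.2 (Finset.nonempty_iff_ne_empty.2 hne)
    obtain ⟨y, hy, hby⟩ := h4
    have hbS : b ∈ (R.erase a).erase b' := by
      rw [Finset.mem_erase, Finset.mem_erase]
      exact ⟨hbb, hab.symm, hCR b (hTC b hb)⟩
    exact hyp a ha b' hb' hab' Y' hY' b hb (h1'.2.2 y (hYY' hy) b hbS hby.symm)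
  have hFdis : ∀ a ∈ T, ∀ b ∈ T.erase a, ∀ b' ∈ T.erase a, b ≠ b' →
      Disjoint (FF G B R a b) (FF G B R a b') := by
    intro a ha b hb b' hb' hbb
    rw [Finset.mem_erase] at hb hb'
    rw [Finset.disjoint_left]
    intro z hz hz'
    unfold FF at hz hz'
    rw [Finset.mem_union, Finset.mem_image] at hz hz'
    have e1 : ∀ x : V, z ∈ (if G.Adj a x then ({x} : Finset V) else ∅) → z = x := by
      intro x hx
      split_ifs at hx with h
      · exact Finset.mem_singleton.1 hx
      · simp at hx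
    rcases hz with hz | ⟨Y, hY, hz⟩
    · have hz1 := e1 b hz
      rcases hz' with hz' | ⟨Y', hY', hz'⟩
      · exact hbb (hz1.symm.trans (e1 b' hz'))
      · obtain ⟨-, -, h3, -⟩ := mem_Sr hY'
        refine hyp a ha b' hb'.2 hb'.1.symm Y' hY' b hb.2 ?_
        rw [← hz1, ← hz']
        exact (pk_mem h3).1
    · obtain ⟨-, -, h3, -⟩ := mem_Sr hY
      rcases hz' with hz' | ⟨Y', hY', hz'⟩
      · refine hyp a ha b hb.2 hb.1.symm Y hY b' hb'.2 ?_
        rw [← e1 b' hz', ← hz]
        exact (pk_mem h3).1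
      · obtain ⟨-, -, h3', -⟩ := mem_Sr hY'
        have := hdisj a ha b hb.2 hb.1.symm b' hb'.2 hb'.1.symm hbb Y hY Y' hY'
        rw [Finset.disjoint_left] at this
        refine this (a := z) ?_ ?_
        · rw [← hz]; exact (pk_mem h3).1
        · rw [← hz']; exact (pk_mem h3').1
  -- the number of neighbours in W
  have hsumEE : ∀ a ∈ T, ∑ b ∈ T.erase a, EE G B R a b ≤ nb G W a := by
    intro a ha
    have h1 : ((T.erase a).biUnion fun b => FF G B R a b).card
        = ∑ b ∈ T.erase a, (FF G B R a b).card :=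
      Finset.card_biUnion fun b hb b' hb' hbb => hFdis a ha b hb b' hb' hbb
    rw [Finset.sum_congr rfl fun b _ => (card_FF (G := G) hCNB (B := B) (R := R) (a := a) (b := b)).symm,
      ← h1]
    unfold nb
    apply Finset.card_le_card
    intro z hz
    rw [Finset.mem_biUnion] at hz
    obtain ⟨b, hb, hz⟩ := hz
    rw [Finset.mem_erase] at hb
    have := hFW a ha b hb.2 hb.1.symm z hz
    rw [Finset.mem_filter]
    exact this
  have hnbW : ∀ a ∈ T, T.card ≤ nb G W a + 1 := by
    intro a ha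
    have h1 := hsumEE a ha
    have h2 : (T.erase a).card • 1 ≤ ∑ b ∈ T.erase a, EE G B R a b := by
      apply Finset.card_nsmul_le_sum
      intro b hb
      rw [Finset.mem_erase] at hb
      exact (hprc a ha b hb.2 hb.1.symm).1
    rw [Finset.card_erase_of_mem ha, smul_eq_mul, mul_one] at h2
    omega
  have hWsplit : ∀ v, nb G C v = nb G W v + nb G (C \ W) v := by
    intro v
    rw [← hnbU W (C \ W) v Finset.disjoint_sdiff, Finset.union_sdiff_of_subset hWC]
  refine ⟨W, hWC, hTW, ?_, ?_⟩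
  · -- cardinality
    have h1 : W.card ≤ T.card + ∑ a ∈ T, ∑ b ∈ T.erase a, (Sr G B R a b).card * B := by
      rw [hW]
      refine (Finset.card_union_le _ _).trans (Nat.add_le_add_left ?_ _)
      refine Finset.card_biUnion_le.trans (Finset.sum_le_sum fun a ha => ?_)
      refine Finset.card_biUnion_le.trans (Finset.sum_le_sum fun b hb => ?_)
      refine Finset.card_biUnion_le.trans ?_
      rw [← smul_eq_mul]
      apply Finset.sum_le_card_nsmul
      intro Y hY
      exact (Finset.card_le_card Finset.inter_subset_left).trans (mem_Sr hY).2.1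
    have h2 : ∀ a ∈ T, ∑ b ∈ T.erase a, (Sr G B R a b).card * B ≤ 3 * B := by
      intro a ha
      rw [← Finset.sum_mul]
      apply Nat.mul_le_mul_right
      have h3 : ∑ b ∈ T.erase a, (Sr G B R a b).card ≤ ∑ b ∈ T.erase a, EE G B R a b :=
        Finset.sum_le_sum fun b _ => by unfold EE; omega
      have h4 := hsumEE a ha
      have h5 := hWsplit a
      rw [hT3 a ha] at h5
      omega
    have h3 := Finset.sum_le_card_nsmul T _ _ h2
    rw [smul_eq_mul] at h3
    have h4 : T.card ≤ 4 := by exact_mod_cast htuk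
    have h5 : T.card * (3 * B) ≤ 4 * (3 * B) := Nat.mul_le_mul_right _ h4
    omega
  · -- the boundary
    have h1 : ∀ v ∈ W, nb G (C \ W) v ≤ if v ∈ T then 4 - T.card else 0 := by
      intro v hv
      split_ifs with hvT
      · have h2 := hnbW v hvT
        have h3 := hWsplit v
        rw [hT3 v hvT] at h3
        omega
      · rcases hWcases v hv with h | ⟨a, ha, b, hb, hab, Y, hY, hvY, hvC⟩
        · exact absurd h hvT
        · obtain ⟨-, -, -, -, h5, -⟩ := hshy a (hTC a ha) b (hTC b hb) hab Y hY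
          unfold nb
          rw [Nat.le_zero, Finset.card_eq_zero, Finset.filter_eq_empty_iff]
          intro w hw hvw
          rw [Finset.mem_sdiff] at hw
          apply hw.2
          rcases h5 v hvY w hw.1 hvw with h | h | h
          · exact hWY a ha b hb hab Y hY w h hw.1
          · rw [h]; exact hTW ha
          · rw [h]; exact hTW hb
    have h2 : ee G W (C \ W) ≤ ∑ v ∈ W, if v ∈ T then 4 - T.card else 0 := Finset.sum_le_sum h1
    rw [Finset.sum_ite_mem, Finset.inter_eq_right.2 hTW, Finset.sum_const, smul_eq_mul] at h2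
    have h4 : T.card ≤ 4 := by exact_mod_cast htuk
    have h5 : T.card = 3 ∨ T.card = 4 := by omega
    rcases h5 with h5 | h5 <;> rw [h5] at h2 <;> omega

end Pool.Agent.Lib.MP4d044e.UB
end

section
/-!
# MP_4d044e_co, upper bound: module TUK
-/
open Classical Finset

namespace Pool.Agent.Lib.MP4d044e.UB

namespace TUKM

/-- A disjoint family of sets in which `u` has neighbours. -/
theorem card_le_nb {V : Type} (G : SimpleGraph V) (R : Finset V) (u : V)
    (F : Finset (Finset V)) (h1 : ∀ P ∈ F, P ⊆ R) (h2 : ∀ P ∈ F, Tch G u P)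
    (h3 : ∀ P ∈ F, ∀ Q ∈ F, P ≠ Q → Disjoint P Q) : F.card ≤ nb G R u := by
  have hch : ∀ P : Finset V, ∃ x : V, P ∈ F → x ∈ P ∧ G.Adj u x := by
    intro P
    by_cases h : P ∈ F
    · obtain ⟨x, hx, hux⟩ := h2 P h
      exact ⟨x, fun _ => ⟨hx, hux⟩⟩
    · exact ⟨u, fun h' => absurd h' h⟩
  choose f hf using hch
  unfold nb
  refine Finset.card_le_card_of_injOn f ?_ ?_
  · intro P hP
    exact Finset.mem_filter.2 ⟨h1 P hP (hf P hP).1, (hf P hP).2⟩
  · intro P hP Q hQ hPQ
    by_contra hne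
    have h4 := h3 P hP Q hQ hne
    rw [Finset.disjoint_left] at h4
    apply h4 (hf P hP).1
    rw [hPQ]
    exact (hf Q hQ).1

theorem cc_big {V : Type} {G : SimpleGraph V} {d B : ℕ} {R : Finset V} {a : V}
    (h : a ∈ CC G d B R) : a ∈ Big G d B R := (Finset.mem_filter.1 h).1

theorem big_sub {V : Type} {G : SimpleGraph V} {d B : ℕ} {R : Finset V} : Big G d B R ⊆ R :=
  Finset.filter_subset _ _

theorem tt {V : Type} {G : SimpleGraph V} {d B : ℕ} {R : Finset V} {u a : V}
    (ha : a ∈ TT G d B R u) : a ∈ CC G d B R ∧ Tch G u (PP G B R a) := by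
  obtain ⟨h1, h2⟩ := Finset.mem_filter.1 ha
  exact ⟨(Finset.mem_filter.1 h1).1, h2⟩

end TUKM

theorem specTUK (hCNB : SpecCNB) (hHNG : SpecHNG) (hROO : SpecROO) : SpecTUK := by
  intro V _ G d B R hd hB hdeg u _
  obtain ⟨_, _, _, _, _, c6⟩ := hCNB V G
  obtain ⟨_, r2, _, _⟩ := hROO V G d B R hd hB hdeg
  have hTC : ∀ a ∈ TT G d B R u, a ∈ CC G d B R ∧ Tch G u (PP G B R a) := by
    intro a ha
    exact TUKM.tt ha
  have hself : ∀ a, a ∈ PP G B R a := fun a => Finset.mem_insert_self _ _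
  have hPB : ∀ a ∈ CC G d B R, PP G B R a ⊆ Big G d B R := by
    intro a ha
    obtain ⟨_, _, _, h4, _⟩ := hHNG V G d B R hd hB hdeg a (TUKM.cc_big ha)
    exact h4
  have hST : ∀ Q ∈ ST G B R, IsC G R Q := fun Q hQ => (Finset.mem_filter.1 hQ).2.1
  have hBQ : ∀ Q ∈ ST G B R, ∀ x ∈ Q, x ∉ Big G d B R := by
    intro Q hQ x hx hxB
    obtain ⟨_, _, _, _, _, _, _, _, h9⟩ := hHNG V G d B R hd hB hdeg x hxB
    exact h9 Q hQ hx
  obtain ⟨F1, hF1⟩ : ∃ F1, F1 = (TT G d B R u).image (PP G B R) := ⟨_, rfl⟩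
  obtain ⟨F2, hF2⟩ : ∃ F2, F2 = (ST G B R).filter fun Y => Tch G u Y := ⟨_, rfl⟩
  have hc1 : F1.card = (TT G d B R u).card := by
    rw [hF1, Finset.card_image_of_injOn]
    intro a ha b hb hab
    by_contra hne
    have h1 := r2 a (hTC a ha).1 b (hTC b hb).1 hne
    rw [Finset.disjoint_left] at h1
    apply h1 (hself a)
    have hab' : PP G B R a = PP G B R b := hab
    rw [← hab']
    exact hself a
  have hd12 : Disjoint F1 F2 := by
    rw [Finset.disjoint_left]
    intro P hP1 hP2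
    rw [hF1] at hP1
    rw [hF2] at hP2
    obtain ⟨a, ha, rfl⟩ := Finset.mem_image.1 hP1
    exact hBQ _ (Finset.mem_filter.1 hP2).1 a (hself a) (hPB a (hTC a ha).1 (hself a))
  have hmain : (F1 ∪ F2).card ≤ nb G R u := by
    apply TUKM.card_le_nb
    · intro P hP
      rcases Finset.mem_union.1 hP with h | h
      · rw [hF1] at h
        obtain ⟨a, ha, rfl⟩ := Finset.mem_image.1 h
        exact (hPB a (hTC a ha).1).trans TUKM.big_sub
      · rw [hF2] at h
        exact (hST P (Finset.mem_filter.1 h).1).2.1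
    · intro P hP
      rcases Finset.mem_union.1 hP with h | h
      · rw [hF1] at h
        obtain ⟨a, ha, rfl⟩ := Finset.mem_image.1 h
        exact (hTC a ha).2
      · rw [hF2] at h
        exact (Finset.mem_filter.1 h).2
    · intro P hP Q hQ hPQ
      have hmix : ∀ P ∈ F1, ∀ Q ∈ F2, Disjoint P Q := by
        intro P hP Q hQ
        rw [hF1] at hP
        rw [hF2] at hQ
        obtain ⟨a, ha, rfl⟩ := Finset.mem_image.1 hP
        rw [Finset.disjoint_left]
        intro x hx1 hx2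
        exact hBQ Q (Finset.mem_filter.1 hQ).1 x hx2 (hPB a (hTC a ha).1 hx1)
      rcases Finset.mem_union.1 hP with h | h <;> rcases Finset.mem_union.1 hQ with h' | h'
      · rw [hF1] at h h'
        obtain ⟨a, ha, rfl⟩ := Finset.mem_image.1 h
        obtain ⟨b, hb, rfl⟩ := Finset.mem_image.1 h'
        exact r2 a (hTC a ha).1 b (hTC b hb).1 (fun hab => hPQ (by rw [hab]))
      · exact hmix P h Q h'
      · exact (hmix Q h' P h).symm
      · rw [hF2] at h h'
        rw [Finset.disjoint_left]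
        intro x hx1 hx2
        exact hPQ (c6 R P Q (hST P (Finset.mem_filter.1 h).1) (hST Q (Finset.mem_filter.1 h').1)
          ⟨x, Finset.mem_inter.2 ⟨hx1, hx2⟩⟩)
  rw [Finset.card_union_of_disjoint hd12, hc1, hF2] at hmain
  unfold kap
  have : ((TT G d B R u).card : ℤ) + (((ST G B R).filter fun Y => Tch G u Y).card : ℤ) ≤
      (nb G R u : ℤ) := by exact_mod_cast hmain
  linarith

end Pool.Agent.Lib.MP4d044e.UB
end

section
/-!
# MP_4d044e_co, upper bound: module WPU (the inequality at a vertex outside `R`)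
-/
open Classical Finset

namespace Pool.Agent.Lib.MP4d044e.UB

theorem specWPU (hNUM : SpecNUM) : SpecWPU := by
  intro d hd V T c k hk hTk hc hsum
  obtain ⟨-, -, -, hr0, hr4, hr3, heq, -, -⟩ := hNUM d hd
  set r := rr d with hr
  set q : ℝ := (d : ℝ) - 3 with hq
  have hd5 : (5 : ℝ) ≤ (d : ℝ) := by exact_mod_cast hd
  have hq0 : 0 < q := by rw [hq]; linarith
  set δ : ℝ := 1 / 4 - r with hδ
  have hδ0 : 0 < δ := by rw [hδ]; linarith
  have hterm : ∀ a ∈ T, max (c a - r) 0 ≤ δ := by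
    intro a ha
    have := (hc a ha).2
    apply max_le
    · rw [hδ]; linarith
    · exact hδ0.le
  have hterm2 : ∀ a ∈ T, max (c a - r) 0 ≤ 4 * δ * c a := by
    intro a ha
    obtain ⟨h1, h2⟩ := hc a ha
    apply max_le
    · rw [hδ]; nlinarith
    · have : 0 ≤ δ := hδ0.le
      positivity
  have hT0 : (0 : ℝ) ≤ T.card := Nat.cast_nonneg _
  have hle : ∑ a ∈ T, max (c a - r) 0 ≤ T.card * δ := by
    calc ∑ a ∈ T, max (c a - r) 0 ≤ ∑ a ∈ T, δ := Finset.sum_le_sum hterm
      _ = T.card * δ := by rw [Finset.sum_const, nsmul_eq_mul]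
  rw [← Finset.sum_div, div_le_iff₀ hq0]
  have heq' : (4 * r - lam d) * q = 2 * δ := by
    rw [heq]
    field_simp
  by_cases hk4 : k = 4
  · subst hk4
    push_cast
    have h1 : (r * 4 - lam d) * q = 2 * δ := by rw [← heq']; ring
    rw [h1]
    by_cases hT : 3 ≤ T.card
    · have h2 := hsum rfl hT
      calc ∑ a ∈ T, max (c a - r) 0 ≤ ∑ a ∈ T, 4 * δ * c a := Finset.sum_le_sum hterm2
        _ = 4 * δ * ∑ a ∈ T, c a := by rw [Finset.mul_sum]
        _ ≤ 4 * δ * (1 / 2) := mul_le_mul_of_nonneg_left h2 (by positivity)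
        _ = 2 * δ := by ring
    · have h2 : (T.card : ℝ) ≤ 2 := by exact_mod_cast (by omega : T.card ≤ 2)
      exact hle.trans (mul_le_mul_of_nonneg_right h2 hδ0.le)
  · have hk5 : (5 : ℝ) ≤ (k : ℝ) := by exact_mod_cast (by omega : (5 : ℤ) ≤ k)
    have hTk' : (T.card : ℝ) ≤ (k : ℝ) := by exact_mod_cast hTk
    have h1 : ∑ a ∈ T, max (c a - r) 0 ≤ k * δ := hle.trans (mul_le_mul_of_nonneg_right hTk' hδ0.le)
    have h2 : (r * k - lam d) * q = (k - 4) * (r * q) + 2 * δ := by
      have : (r * k - lam d) * q = (k - 4) * (r * q) + (4 * r - lam d) * q := by ring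
      rw [this, heq']
    rw [h2]
    have h3 : 3 * δ ≤ r * q := by
      rw [div_le_iff₀ (by positivity)] at hr3
      rw [hδ, hq]
      nlinarith
    have h4 : ((k : ℝ) - 4) * (3 * δ) ≤ (k - 4) * (r * q) :=
      mul_le_mul_of_nonneg_left h3 (by linarith)
    have h5 : (k : ℝ) * δ ≤ (k - 4) * (3 * δ) + 2 * δ := by nlinarith
    linarith

end Pool.Agent.Lib.MP4d044e.UB
end

section
/-!
# MP_4d044e_co, upper bound: module WSM (the sum of the weights)
-/
open Classical Finset

namespace Pool.Agent.Lib.MP4d044e.UB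

namespace WSMM

variable {V : Type} {G : SimpleGraph V}

theorem mem_TT {d B : ℕ} {R : Finset V} {u a : V} :
    a ∈ TT G d B R u ↔ a ∈ C3 G d B R ∧ Tch G u (PP G B R a) := by
  unfold TT
  rw [Finset.mem_filter]

/-- The number of vertices outside `R` which touch `P(a)`. -/
theorem card_touch [Fintype V] (hEEB : SpecEEB) (hCOR : SpecCOR) {d B : ℕ} {R : Finset V}
    (hd : 3 ≤ d) (hB : 1 ≤ B) (hdeg : ∀ v, nb G univ v = d) (hR : MaxR G B R) {a : V}
    (ha : a ∈ C3 G d B R) : d ≤ ((Rᶜ).filter fun u => a ∈ TT G d B R u).card + 3 := by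
  obtain ⟨-, h1⟩ := hCOR V G d B R hd hB (fun v => (hdeg v).le) hR
  obtain ⟨-, -, v, hv, hv3⟩ := h1 a ha
  obtain ⟨hU, -⟩ := hEEB V G
  have h2 : nb G univ v = nb G R v + nb G Rᶜ v := by
    rw [← hU R Rᶜ v disjoint_compl_right, Finset.union_compl]
  rw [hdeg v] at h2
  have h3 : nb G Rᶜ v ≤ ((Rᶜ).filter fun u => a ∈ TT G d B R u).card := by
    unfold nb
    apply Finset.card_le_card
    intro w hw
    rw [Finset.mem_filter] at hw ⊢
    exact ⟨hw.1, mem_TT.2 ⟨ha, v, hv, hw.2.symm⟩⟩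
  omega

end WSMM

open WSMM

theorem specWSM (hNUM : SpecNUM) (hEEB : SpecEEB) (hMXK : SpecMXK) (hCOR : SpecCOR)
    (hCNT : SpecCNT) (hTUK : SpecTUK) (hWPU : SpecWPU) : SpecWSM := by
  intro V _ G d B R c hd hB hdeg hR hc htrip
  obtain ⟨-, -, -, hr0, -⟩ := hNUM d hd
  have hd5 : (5 : ℝ) ≤ (d : ℝ) := by exact_mod_cast hd
  have hd3 : (0 : ℝ) < (d : ℝ) - 3 := by linarith
  have hB1 : (1 : ℝ) ≤ (B : ℝ) := by exact_mod_cast hB
  have hB0 : (0 : ℝ) < (B : ℝ) := by linarith
  have hle : ∀ v, nb G univ v ≤ d := fun v => (hdeg v).le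
  have hcnt := hCNT V G d B R (by omega) hB hdeg
  have hmxk := ((hMXK V G B).2 R hR).1
  -- one vertex outside R
  have hu : ∀ u ∈ Rᶜ, ∑ a ∈ TT G d B R u, max (c a - rr d) 0 / ((d : ℝ) - 3) ≤
      rr d * (kap G B R u : ℝ) - lam d := by
    intro u hu
    rw [Finset.mem_compl] at hu
    exact hWPU d hd V (TT G d B R u) c (kap G B R u) (hmxk u hu)
      (hTUK V G d B R (by omega) hB hle u hu) (fun a _ => hc a) (htrip u hu)
  -- one vertex of C3
  have ha : ∀ a ∈ C3 G d B R, c a - rr d ≤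
      ∑ u ∈ Rᶜ, if a ∈ TT G d B R u then max (c a - rr d) 0 / ((d : ℝ) - 3) else 0 := by
    intro a ha
    rw [← Finset.sum_filter, Finset.sum_const, nsmul_eq_mul]
    have h1 := card_touch hEEB hCOR (by omega) hB hdeg hR ha
    have h2 : (d : ℝ) - 3 ≤ (((Rᶜ).filter fun u => a ∈ TT G d B R u).card : ℝ) := by
      have : (d : ℝ) ≤ (((Rᶜ).filter fun u => a ∈ TT G d B R u).card : ℝ) + 3 := by
        exact_mod_cast h1
      linarith
    have h3 : 0 ≤ max (c a - rr d) 0 / ((d : ℝ) - 3) := div_nonneg (le_max_right _ _) hd3.le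
    calc c a - rr d ≤ max (c a - rr d) 0 := le_max_left _ _
      _ = ((d : ℝ) - 3) * (max (c a - rr d) 0 / ((d : ℝ) - 3)) := by
          field_simp
      _ ≤ _ := mul_le_mul_of_nonneg_right h2 h3
  have hsum : ∑ a ∈ C3 G d B R, (c a - rr d) ≤ ∑ u ∈ Rᶜ, (rr d * (kap G B R u : ℝ) - lam d) := by
    calc ∑ a ∈ C3 G d B R, (c a - rr d)
        ≤ ∑ a ∈ C3 G d B R, ∑ u ∈ Rᶜ,
          (if a ∈ TT G d B R u then max (c a - rr d) 0 / ((d : ℝ) - 3) else 0) :=
          Finset.sum_le_sum ha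
      _ = ∑ u ∈ Rᶜ, ∑ a ∈ C3 G d B R,
          (if a ∈ TT G d B R u then max (c a - rr d) 0 / ((d : ℝ) - 3) else 0) :=
          Finset.sum_comm
      _ = ∑ u ∈ Rᶜ, ∑ a ∈ TT G d B R u, max (c a - rr d) 0 / ((d : ℝ) - 3) := by
          refine Finset.sum_congr rfl fun u _ => ?_
          rw [Finset.sum_ite_mem]
          congr 1
          apply Finset.inter_eq_right.2
          intro a ha
          exact (mem_TT.1 ha).1
      _ ≤ _ := Finset.sum_le_sum hu
  have hkap : ∑ u ∈ Rᶜ, (rr d * (kap G B R u : ℝ) - lam d) =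
      rr d * ((∑ u ∈ Rᶜ, kap G B R u : ℤ) : ℝ) - lam d * ((Fintype.card V : ℝ) - R.card) := by
    rw [Finset.sum_sub_distrib, ← Finset.mul_sum, Finset.sum_const, nsmul_eq_mul]
    have h1 : ((Rᶜ).card : ℝ) = (Fintype.card V : ℝ) - R.card := by
      rw [Finset.card_compl, Nat.cast_sub (Finset.card_le_univ R)]
    rw [h1]
    push_cast
    ring
  have hc3 : ∑ a ∈ C3 G d B R, (c a - rr d) =
      ∑ a ∈ C3 G d B R, c a - rr d * ((C3 G d B R).card : ℝ) := by
    rw [Finset.sum_sub_distrib, Finset.sum_const, nsmul_eq_mul]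
    ring
  rw [hkap, hc3] at hsum
  set K : ℝ := ((∑ u ∈ Rᶜ, kap G B R u : ℤ) : ℝ) with hK
  have hcntR : (B : ℝ) * K + B * ((C3 G d B R).card : ℝ) ≤
      B * ((d : ℝ) - 2) * R.card + 2 * R.card := by
    rw [hK]
    exact_mod_cast hcnt
  have hK2 : K ≤ ((d : ℝ) - 2) * R.card - ((C3 G d B R).card : ℝ) + 2 * R.card / B := by
    have h1 : (2 * (R.card : ℝ) / B) * B = 2 * R.card := by field_simp
    by_contra hcon
    push Not at hcon
    have h2 := mul_lt_mul_of_pos_left hcon hB0
    nlinarith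
  have hrd : rr d * ((d : ℝ) - 2) = 1 - lam d := by
    unfold rr
    have : (d : ℝ) - 2 ≠ 0 := by linarith
    field_simp
  have h5 : rr d * K ≤ rr d * (((d : ℝ) - 2) * R.card - ((C3 G d B R).card : ℝ) +
      2 * R.card / B) := mul_le_mul_of_nonneg_left hK2 hr0.le
  have h6 : rr d * (((d : ℝ) - 2) * R.card - ((C3 G d B R).card : ℝ) + 2 * R.card / B) =
      (1 - lam d) * R.card - rr d * ((C3 G d B R).card : ℝ) + 2 * rr d * R.card / B := by
    rw [← hrd]; ring
  linarith

end Pool.Agent.Lib.MP4d044e.UB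
end
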