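import Pool.Agent.Lib.MP_4d044e_co.UB.CNT
import Pool.Agent.Lib.MP_4d044e_co.UB.EEB
import Pool.Agent.Lib.MP_4d044e_co.UB.NUM
import Pool.Agent.Lib.MP_4d044e_co.UB.HNG
import Pool.Agent.Lib.MP_4d044e_co.UB.LAM
import Pool.Agent.Lib.MP_4d044e_co.UB.COR
import Pool.Agent.Lib.MP_4d044e_co.UB.WSM
import Pool.Agent.Lib.MP_4d044e_co.UB.PRA
import Pool.Agent.Lib.MP_4d044e_co.UB.UBR
import Pool.Agent.Lib.MP_4d044e_co.UB.FIN
import Pool.Agent.Lib.MP_4d044e_co.UB.EXT
import Pool.Agent.Lib.MP_4d044e_co.UB.FRS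

section
/-!
# MP_4d044e_co, upper bound: module ROO
-/
open Classical Finset

namespace Pool.Agent.Lib.MP4d044e.UB

namespace ROOM

variable {V : Type} {G : SimpleGraph V} {d B : ℕ} {R : Finset V}

theorem big_sub : Big G d B R ⊆ R := fun a h => ((mem_Big G d B R a).1 h).1

theorem cc_big {a : V} (h : a ∈ CC G d B R) : a ∈ Big G d B R := ((mem_CC G d B R a).1 h).1

theorem isC_of_Sh {a : V} {Y : Finset V} (h : Y ∈ Sh G B R a) : IsC G (R.erase a) Y :=
  ((mem_ST G B (R.erase a) Y).1 ((mem_Sh G B R Y a).1 h).1).1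

theorem sub_of_Sh {a : V} {Y : Finset V} (h : Y ∈ Sh G B R a) : Y ⊆ R.erase a :=
  (isC_of_Sh h).2.1

theorem not_mem_of_Sh {a : V} {Y : Finset V} (h : Y ∈ Sh G B R a) : a ∉ Y := fun h' =>
  Finset.notMem_erase a R (sub_of_Sh h h')

/-- (1) -/
theorem one (hLAM : ∀ a ∈ Big G d B R, ∀ Y ∈ Sh G B R a, ∀ b ∈ Y, ∀ Z ∈ Sh G B R b,
      a ∉ Z ∧ insert b Z ⊆ Y) (v : V) (hv : v ∈ Big G d B R) :
    ∃ a ∈ CC G d B R, v ∈ PP G B R a := by
  by_cases hc : v ∈ CC G d B R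
  · exact ⟨v, hc, (mem_PP G B R v v).2 (Or.inl rfl)⟩
  have hex : ∃ b ∈ Big G d B R, v ∈ hg G B R b := by
    by_contra hcon
    push Not at hcon
    exact hc ((mem_CC G d B R v).2 ⟨hv, hcon⟩)
  obtain ⟨b0, hb0, hv0⟩ := hex
  obtain ⟨Y0, hY0, hvY0⟩ := (mem_hg G B R b0 v).1 hv0
  let F : Finset (Finset V) :=
    R.powerset.filter fun Y => v ∈ Y ∧ ∃ a ∈ Big G d B R, Y ∈ Sh G B R a
  have hF : F.Nonempty := by
    refine ⟨Y0, Finset.mem_filter.2 ⟨Finset.mem_powerset.2 ?_, hvY0, b0, hb0, hY0⟩⟩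
    exact (sub_of_Sh hY0).trans (Finset.erase_subset _ _)
  obtain ⟨Y, hYF, hmax⟩ := Finset.exists_max_image F Finset.card hF
  obtain ⟨-, hvY, a, ha, hYa⟩ := Finset.mem_filter.1 hYF
  refine ⟨a, (mem_CC G d B R a).2 ⟨ha, ?_⟩,
    (mem_PP G B R a v).2 (Or.inr ((mem_hg G B R a v).2 ⟨Y, hYa, hvY⟩))⟩
  intro b hb hab
  obtain ⟨Y', hY', haY'⟩ := (mem_hg G B R b a).1 hab
  obtain ⟨-, hsub⟩ := hLAM b hb Y' hY' a haY' Y hYa
  have hvY' : v ∈ Y' := hsub (Finset.mem_insert_of_mem hvY)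
  have hYF' : Y' ∈ F := by
    refine Finset.mem_filter.2 ⟨Finset.mem_powerset.2 ?_, hvY', b, hb, hY'⟩
    exact (sub_of_Sh hY').trans (Finset.erase_subset _ _)
  have h1 := hmax Y' hYF'
  have h2 := Finset.card_le_card hsub
  rw [Finset.card_insert_of_notMem (not_mem_of_Sh hYa)] at h2
  omega

/-- (2) -/
theorem two (hCNB : ∀ S A Q : Finset V, Cn G A → A ⊆ S → Cl G S Q → (A ∩ Q).Nonempty → A ⊆ Q)
    (a : V) (ha : a ∈ CC G d B R) (b : V) (hb : b ∈ CC G d B R) (hab : a ≠ b) :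
    Disjoint (PP G B R a) (PP G B R b) := by
  rw [Finset.disjoint_left]
  intro h h1 h2
  have hanb : a ∉ hg G B R b := ((mem_CC G d B R a).1 ha).2 b (cc_big hb)
  have hbna : b ∉ hg G B R a := ((mem_CC G d B R b).1 hb).2 a (cc_big ha)
  rw [mem_PP] at h1 h2
  rcases h1 with h1 | h1
  · subst h1
    rcases h2 with h2 | h2
    · exact hab h2
    · exact hanb h2
  rcases h2 with h2 | h2
  · subst h2
    exact hbna h1
  obtain ⟨Y, hY, hhY⟩ := (mem_hg G B R a h).1 h1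
  obtain ⟨Y', hY', hhY'⟩ := (mem_hg G B R b h).1 h2
  have hbY : b ∉ Y := fun h' => hbna ((mem_hg G B R a b).2 ⟨Y, hY, h'⟩)
  have haY' : a ∉ Y' := fun h' => hanb ((mem_hg G B R b a).2 ⟨Y', hY', h'⟩)
  have hYR : Y ⊆ R := (sub_of_Sh hY).trans (Finset.erase_subset _ _)
  have hYR' : Y' ⊆ R := (sub_of_Sh hY').trans (Finset.erase_subset _ _)
  have e1 : Y ⊆ Y' := by
    refine hCNB (R.erase b) Y Y' (isC_of_Sh hY).1 ?_ (isC_of_Sh hY').2
      ⟨h, Finset.mem_inter.2 ⟨hhY, hhY'⟩⟩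
    intro x hx
    exact Finset.mem_erase.2 ⟨fun hxb => hbY (hxb ▸ hx), hYR hx⟩
  have e2 : Y' ⊆ Y := by
    refine hCNB (R.erase a) Y' Y (isC_of_Sh hY').1 ?_ (isC_of_Sh hY).2
      ⟨h, Finset.mem_inter.2 ⟨hhY', hhY⟩⟩
    intro x hx
    exact Finset.mem_erase.2 ⟨fun hxa => haY' (hxa ▸ hx), hYR' hx⟩
  obtain ⟨y, hy, hby⟩ := ((mem_Sh G B R Y' b).1 hY').2
  have hbR : b ∈ R.erase a := Finset.mem_erase.2 ⟨hab.symm, big_sub (cc_big hb)⟩
  exact hbY ((isC_of_Sh hY).2.2 y (e2 hy) b hbR hby.symm)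

end ROOM

theorem specROO (hEEB : SpecEEB) (hCNB : SpecCNB) (hHNG : SpecHNG) (hLAM : SpecLAM) : SpecROO := by
  intro V _ G d B R hd hB hdeg
  have p1 := ROOM.one (hLAM V G d B R hd hB)
  have p2 := ROOM.two (d := d) (B := B) (R := R) (hCNB V G).2.1
  have hself : ∀ a, a ∈ PP G B R a := fun a => (mem_PP G B R a a).2 (Or.inl rfl)
  have hPR : ∀ a ∈ CC G d B R, PP G B R a ⊆ R := by
    intro a ha
    obtain ⟨_, _, _, h4, _⟩ := hHNG V G d B R hd hB hdeg a (ROOM.cc_big ha)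
    exact h4.trans ROOM.big_sub
  have p3 : ∀ a ∈ CC G d B R, ∀ b ∈ CC G d B R, a ≠ b → ∀ x ∈ PP G B R a, ∀ y ∈ PP G B R b,
      G.Adj x y → x = a ∧ y = b := by
    intro a ha b hb hab x hx y hy hxy
    have hdis := p2 a ha b hb hab
    rw [Finset.disjoint_left] at hdis
    constructor
    · rcases (mem_PP G B R a x).1 hx with h | h
      · exact h
      · exfalso
        obtain ⟨_, _, _, _, h5, _⟩ := hHNG V G d B R hd hB hdeg a (ROOM.cc_big ha)
        exact hdis (h5 x h y (hPR b hb hy) hxy) hy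
    · rcases (mem_PP G B R b y).1 hy with h | h
      · exact h
      · exfalso
        obtain ⟨_, _, _, _, h5, _⟩ := hHNG V G d B R hd hB hdeg b (ROOM.cc_big hb)
        exact hdis hx (h5 y h x (hPR a ha hx) hxy.symm)
  refine ⟨p1, p2, p3, ?_⟩
  intro a ha
  obtain ⟨_, h2, _, h4, h5, h6, _⟩ := hHNG V G d B R hd hB hdeg a (ROOM.cc_big ha)
  have hdis : Disjoint (CC G d B R) (hg G B R a) := by
    rw [Finset.disjoint_left]
    intro c hc hca
    exact ((mem_CC G d B R c).1 hc).2 a (ROOM.cc_big ha) hca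
  rw [← (hEEB V G).1 _ _ a hdis]
  unfold nb
  congr 1
  ext w
  rw [mem_nbf, mem_nbf, Finset.mem_union]
  constructor
  · rintro ⟨hw, haw⟩
    refine ⟨?_, haw⟩
    obtain ⟨b, hb, hwb⟩ := p1 w (h6 w hw haw)
    by_cases hab : a = b
    · subst hab
      rcases (mem_PP G B R a w).1 hwb with h | h
      · exact absurd haw (by rw [h]; exact G.loopless.irrefl a)
      · exact Or.inr h
    · have := (p3 a ha b hb hab a (hself a) w hwb haw).2
      left
      rw [this]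
      exact hb
  · rintro ⟨hw, haw⟩
    refine ⟨?_, haw⟩
    rcases hw with hw | hw
    · exact mem_CC_R G d B R hw
    · exact hPR a ha ((mem_PP G B R a w).2 (Or.inr hw))

end Pool.Agent.Lib.MP4d044e.UB
end

section
/-!
# MP_4d044e_co, upper bound: module SHY (the sets shared by two core vertices)
-/
open Classical Finset

namespace Pool.Agent.Lib.MP4d044e.UB

namespace SHYM

variable {V : Type} {G : SimpleGraph V}

/-- A vertex of `Y` does not lie in a hanging set of `c`. -/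
theorem nohang (hCNB : SpecCNB) {d B : ℕ} {R Y : Finset V} {c e z : V}
    (hc : c ∈ CC G d B R) (he : e ∈ CC G d B R) (hce : c ≠ e) (hYcn : Cn G Y)
    (hYS : Y ⊆ R.erase c) (heY : e ∉ Y) (hteY : Tch G e Y)
    (hsw : ∀ A : Finset V, Cn G A → A ⊆ R.erase c → e ∉ A → (A ∩ Y).Nonempty → A ⊆ Y)
    (hz : z ∈ Y) (hzc : z ∈ hg G B R c) : False := by
  obtain ⟨_, hsub, _⟩ := hCNB V G
  obtain ⟨Z, hZ, hzZ⟩ := (mem_hg G B R c z).1 hzc
  rw [mem_Sh, mem_ST] at hZ
  have hcBig := ((mem_CC G d B R c).1 hc).1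
  have heZ : e ∉ Z := by
    intro h
    refine ((mem_CC G d B R e).1 he).2 c hcBig ((mem_hg G B R c e).2 ⟨Z, ?_, h⟩)
    rw [mem_Sh, mem_ST]
    exact hZ
  have h1 : Z ⊆ Y := hsw Z hZ.1.1.1 hZ.1.1.2.1 heZ ⟨z, Finset.mem_inter.2 ⟨hzZ, hz⟩⟩
  have h2 : Y ⊆ Z := hsub (R.erase c) Y Z hYcn hYS hZ.1.1.2 ⟨z, Finset.mem_inter.2 ⟨hz, hzZ⟩⟩
  obtain ⟨y, hy, hey⟩ := hteY
  have heR : e ∈ R.erase c := Finset.mem_erase.2 ⟨hce.symm, mem_CC_R G d B R he⟩
  exact heY (h1 (hZ.1.1.2.2 y (h2 hy) e heR hey.symm))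

end SHYM

theorem specSHY (hEEB : SpecEEB) (hCNB : SpecCNB) (hCNC : SpecCNC) (hHNG : SpecHNG)
    (hROO : SpecROO) (hCLO : SpecCLO) : SpecSHY := by
  intro V _ G d B R hd hB hdeg a ha b hb hab Y hY
  obtain ⟨_, hsub, _, hjoin, _, _⟩ := hCNB V G
  obtain ⟨_, nmono, ecomm, eunion, _⟩ := hEEB V G
  obtain ⟨r1, r2, r3, _⟩ := hROO V G d B R hd hB hdeg
  rw [mem_Sr, mem_ST] at hY
  obtain ⟨⟨⟨hYcn, hYS, hYcl⟩, hYc, hYt⟩, hta, htb⟩ := hY
  have haY : a ∉ Y := fun h => by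
    have h1 := hYS h
    rw [Finset.mem_erase, Finset.mem_erase] at h1
    exact h1.2.1 rfl
  have hbY : b ∉ Y := fun h => by
    have h1 := hYS h
    rw [Finset.mem_erase] at h1
    exact h1.1 rfl
  have hYR : Y ⊆ R := fun y hy => Finset.mem_of_mem_erase (Finset.mem_of_mem_erase (hYS hy))
  have haBig := ((mem_CC G d B R a).1 ha).1
  have hPPsub : ∀ y ∈ CC G d B R, Cn G (PP G B R y) ∧ PP G B R y ⊆ Big G d B R := fun y hy => by
    obtain ⟨_, _, h3, h4, _⟩ := hHNG V G d B R hd hB hdeg y ((mem_CC G d B R y).1 hy).1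
    exact ⟨h3, h4⟩
  have hself : ∀ y : V, y ∈ PP G B R y := fun y => (mem_PP G B R y y).2 (Or.inl rfl)
  have hBigR : ∀ x ∈ Big G d B R, x ∈ R := fun x hx => ((mem_Big G d B R x).1 hx).1
  -- (1)
  have c1 : Y ⊆ Big G d B R := by
    obtain ⟨haR, K, hK, haK, hKc⟩ := (mem_Big G d B R a).1 haBig
    obtain ⟨y0, hy0, hay0⟩ := hta
    have hcn : Cn G ({a} ∪ Y) := hjoin {a} Y a y0 ((hCNB V G).1 a) hYcn (Finset.mem_singleton_self a)
      hy0 hay0
    have hs : ({a} ∪ Y : Finset V) ⊆ R := by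
      intro x hx
      rcases Finset.mem_union.1 hx with h | h
      · rw [Finset.mem_singleton.1 h]
        exact haR
      · exact hYR h
    have h1 := hsub R ({a} ∪ Y) K hcn hs hK.2 ⟨a, Finset.mem_inter.2
      ⟨Finset.mem_union_left _ (Finset.mem_singleton_self a), haK⟩⟩
    intro y hy
    exact (mem_Big G d B R y).2 ⟨hYR hy, K, hK, h1 (Finset.mem_union_right _ hy), hKc⟩
  -- a general form of (2)
  have c2' : ∀ y ∈ CC G d B R, y ≠ a → y ≠ b → (PP G B R y ∩ Y).Nonempty → PP G B R y ⊆ Y := by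
    intro y hy hya hyb hne
    obtain ⟨h3, h4⟩ := hPPsub y hy
    refine hsub _ (PP G B R y) Y h3 ?_ ⟨hYS, hYcl⟩ hne
    intro x hx
    rw [Finset.mem_erase, Finset.mem_erase]
    refine ⟨?_, ?_, hBigR x (h4 hx)⟩
    · rintro rfl
      exact Finset.disjoint_left.1 (r2 y hy x hb hyb) hx (hself x)
    · rintro rfl
      exact Finset.disjoint_left.1 (r2 y hy x ha hya) hx (hself x)
  have c2 : ∀ y ∈ Y, y ∈ CC G d B R → PP G B R y ⊆ Y := by
    intro y hy hyC
    refine c2' y hyC ?_ ?_ ⟨y, Finset.mem_inter.2 ⟨hself y, hy⟩⟩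
    · rintro rfl
      exact haY hy
    · rintro rfl
      exact hbY hy
  have c3 : ∀ z ∈ Y, ∃ y ∈ Y, y ∈ CC G d B R ∧ z ∈ PP G B R y := by
    intro z hz
    obtain ⟨y, hy, hzy⟩ := r1 z (c1 hz)
    have hya : y ≠ a := by
      rintro rfl
      rcases (mem_PP G B R y z).1 hzy with h | h
      · rw [h] at hz
        exact haY hz
      · refine SHYM.nohang hCNB ha hb hab hYcn ?_ hbY htb ?_ hz h
        · intro x hx
          exact Finset.mem_of_mem_erase (hYS hx)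
        · intro A hA hAS hbA hne
          refine hsub _ A Y hA ?_ ⟨hYS, hYcl⟩ hne
          intro x hx
          rw [Finset.mem_erase]
          refine ⟨?_, hAS hx⟩
          rintro rfl
          exact hbA hx
    have hyb : y ≠ b := by
      rintro rfl
      rcases (mem_PP G B R y z).1 hzy with h | h
      · rw [h] at hz
        exact hbY hz
      · refine SHYM.nohang hCNB hb ha hab.symm hYcn ?_ haY hta ?_ hz h
        · intro x hx
          have h1 := hYS hx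
          rw [Finset.mem_erase, Finset.mem_erase] at h1
          exact Finset.mem_erase.2 ⟨h1.1, h1.2.2⟩
        · intro A hA hAS hbA hne
          refine hsub _ A Y hA ?_ ⟨hYS, hYcl⟩ hne
          intro x hx
          have h1 := Finset.mem_erase.1 (hAS hx)
          rw [Finset.mem_erase, Finset.mem_erase]
          refine ⟨h1.1, ?_, h1.2⟩
          rintro rfl
          exact hbA hx
    exact ⟨y, c2' y hy hya hyb ⟨z, Finset.mem_inter.2 ⟨hzy, hz⟩⟩ (hself y), hy, hzy⟩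
  have c4 : ∀ z ∈ Y, G.Adj a z ∨ G.Adj b z → z ∈ CC G d B R := by
    intro z hz h
    obtain ⟨y, hyY, hy, hzy⟩ := c3 z hz
    rcases h with h | h
    · have hya : a ≠ y := by
        rintro rfl
        exact haY hyY
      have h1 := (r3 a ha y hy hya a (hself a) z hzy h).2
      rw [h1]
      exact hy
    · have hyb : b ≠ y := by
        rintro rfl
        exact hbY hyY
      have h1 := (r3 b hb y hy hyb b (hself b) z hzy h).2
      rw [h1]
      exact hy
  have c5 : ∀ y ∈ Y, ∀ w ∈ CC G d B R, G.Adj y w → w ∈ Y ∨ w = a ∨ w = b := by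
    intro y hy w hw hyw
    by_cases hwa : w = a
    · exact Or.inr (Or.inl hwa)
    · by_cases hwb : w = b
      · exact Or.inr (Or.inr hwb)
      · left
        refine hYcl y hy w ?_ hyw
        rw [Finset.mem_erase, Finset.mem_erase]
        exact ⟨hwb, hwa, mem_CC_R G d B R hw⟩
  have c6 : ∀ y ∈ Y, y ∈ CC G d B R → 2 ≤ nb G (CC G d B R) y := by
    intro y hy hyC
    by_contra hcon
    have hs := c2 y hy hyC
    have h1 := hCLO V G d B R hd hB hdeg y hyC (by omega)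
    have h2 := (hCNC V G Y hYcn).2.2.1 hYt (PP G B R y) hs (hPPsub y hyC).1
    have h3 := Finset.card_le_card hs
    omega
  refine ⟨c1, c2, c3, c4, c5, c6, ?_⟩
  have hne : (Y ∩ CC G d B R).Nonempty := by
    obtain ⟨z, hz⟩ := hYcn.1
    obtain ⟨y, hyY, hy, _⟩ := c3 z hz
    exact ⟨y, Finset.mem_inter.2 ⟨hyY, hy⟩⟩
  have h1 := (hCNC V G Y hYcn).1 (Y ∩ CC G d B R) Finset.inter_subset_left hne
  have hdis : Disjoint (Y ∩ CC G d B R) {a, b} := by
    rw [Finset.disjoint_left]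
    intro x hx hx2
    have hxY := (Finset.mem_inter.1 hx).1
    rw [Finset.mem_insert, Finset.mem_singleton] at hx2
    rcases hx2 with rfl | rfl
    · exact haY hxY
    · exact hbY hxY
  have h2 := (eunion (Y ∩ CC G d B R) {a, b} (Y ∩ CC G d B R) hdis).2
  have h3 : ∑ y ∈ Y ∩ CC G d B R, nb G (CC G d B R) y ≤
      ee G (Y ∩ CC G d B R) ((Y ∩ CC G d B R) ∪ {a, b}) := by
    unfold ee
    refine Finset.sum_le_sum fun y hy => ?_
    obtain ⟨hyY, hyC⟩ := Finset.mem_inter.1 hy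
    unfold nb
    refine Finset.card_le_card fun w hw => ?_
    rw [mem_nbf] at hw ⊢
    refine ⟨?_, hw.2⟩
    rw [Finset.mem_union, Finset.mem_inter, Finset.mem_insert, Finset.mem_singleton]
    rcases c5 y hyY w hw.1 hw.2 with h | h
    · exact Or.inl ⟨h, hw.1⟩
    · exact Or.inr h
  have h4 : 2 * (Y ∩ CC G d B R).card + (Y ∩ C3 G d B R).card ≤
      ∑ y ∈ Y ∩ CC G d B R, nb G (CC G d B R) y := by
    have h5 : (Y ∩ C3 G d B R).card ≤ ∑ y ∈ Y ∩ CC G d B R, (if y ∈ C3 G d B R then 1 else 0) := by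
      rw [← Finset.card_filter]
      refine Finset.card_le_card fun y hy => ?_
      obtain ⟨hyY, hy3⟩ := Finset.mem_inter.1 hy
      rw [Finset.mem_filter, Finset.mem_inter]
      exact ⟨⟨hyY, ((mem_C3 G d B R y).1 hy3).1⟩, hy3⟩
    have h6 : ∑ y ∈ Y ∩ CC G d B R, (2 + (if y ∈ C3 G d B R then 1 else 0)) ≤
        ∑ y ∈ Y ∩ CC G d B R, nb G (CC G d B R) y := by
      refine Finset.sum_le_sum fun y hy => ?_
      obtain ⟨hyY, hyC⟩ := Finset.mem_inter.1 hy
      split_ifs with h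
      · rw [((mem_C3 G d B R y).1 h).2]
      · exact c6 y hyY hyC
    rw [Finset.sum_add_distrib, Finset.sum_const, smul_eq_mul] at h6
    omega
  have h7 := ecomm {a, b} (Y ∩ CC G d B R)
  omega

end Pool.Agent.Lib.MP4d044e.UB
end

section
/-!
# MP_4d044e_co, upper bound for all graphs: assembly
-/
namespace Pool.Agent.Lib.MP4d044e.UB

theorem mainUB : MainUB := by
  have hEEB := specEEB
  have hCNB := specCNB
  have hCNC := specCNC hEEB
  have hCND := specCND hCNB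
  have hDEL := specDEL hEEB hCNB
  have hADD := specADD hEEB hCNB hCNC hDEL
  have hMXK := specMXK hDEL hADD
  have hCUT := specCUT hEEB
  have hCUK := specCUK hEEB
  have hFAB := specFAB hCUT
  have hLBM := specLBM
  have hRMP := specRMP hCUT hCUK hFAB hLBM
  have hRMF := specRMF hEEB hCUT hCUK hFAB hLBM
  have hMGA := specMGA hCUT hCUK hFAB
  have hMGB := specMGB hEEB hCUT hCUK hFAB
  have hMGC := specMGC hCUT hFAB
  have hSTA := specSTA hEEB hCUT hCUK hFAB hLBM hRMP hRMF hMGA hMGB hMGC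
  have hTOP := specTOP hSTA
  have hNUM := specNUM
  have hHNG := specHNG hEEB hCNB hCND
  have hLAM := specLAM hCNB hCND
  have hROO := specROO hEEB hCNB hHNG hLAM
  have hCLO := specCLO hEEB hCNB hCNC hHNG hROO
  have hCOR := specCOR hCNC hMXK hHNG hROO
  have hSMP := specSMP hEEB hCNB hCNC
  have hBGP := specBGP hEEB hCNC hHNG hROO hCLO
  have hCNT := specCNT hEEB hCNC hSMP hBGP
  have hPRA := specPRA hHNG
  have hPRB := specPRB hEEB hDEL hHNG hPRA
  have hPRC := specPRC hEEB hADD hCOR hPRA hPRB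
  have hTUK := specTUK hCNB hHNG hROO
  have hSHY := specSHY hEEB hCNB hCNC hHNG hROO hCLO
  have hTRA := specTRA hEEB hCNB hROO hPRC hSHY
  have hTRB := specTRB hEEB hCNB hPRC hTUK hSHY
  have hEXT := specEXT hHNG hROO hCOR hTRA hTRB hTOP
  have hFRS := specFRS hCNB hHNG hROO
  have hWPU := specWPU hNUM
  have hWSM := specWSM hNUM hEEB hMXK hCOR hCNT hTUK hWPU
  have hUBR := specUBR hNUM hMXK hEXT hFRS hWSM
  have hREG := specREG
  exact specFIN hNUM hUBR hREG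

end Pool.Agent.Lib.MP4d044e.UB
end
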