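import Pool.Agent.Lib.MP_4d044e_co.UB.Stmt

/-!
# MP_4d044e_co, upper bound for all graphs: definitions

Everything is over finite types in `Type`, with classical decidability.
-/

open Classical Finset

namespace Pool.Agent.Lib.MP4d044e.UB

/-! ## 1. The main statement -/

/-- The main theorem. For every `d ≥ 5` the coefficient of fragmentability of the graphs of maximum
degree at most `d` is at most `(d-2)(2d-5)/(2(d²-d-4))`, which is smaller than the bound of Edwards
and Farr, and smaller than `1 - 7/(2(d+2))`. -/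
def MainUB : Prop :=
  ∀ d : ℕ, 5 ≤ d →
    (∀ ε : ℝ, ((d : ℝ) - 2) * (2 * d - 5) / (2 * ((d : ℝ) ^ 2 - d - 4)) < ε → Fragmentable (ClassMD d) ε) ∧
    coef (ClassMD d) ≤ ((d : ℝ) - 2) * (2 * d - 5) / (2 * ((d : ℝ) ^ 2 - d - 4)) ∧
    ((d : ℝ) - 2) * (2 * d - 5) / (2 * ((d : ℝ) ^ 2 - d - 4)) < 1 - 7 / (2 * ((d : ℝ) + 2)) ∧
    ∀ g : ℕ → ℝ, g 2 = 0 → g 3 = 1 / 4 →
      (∀ k : ℕ, 4 ≤ k → (k : ℝ) * g k = ((k : ℝ) - 2) * g (k - 1) + g (k - 2) + 1) →
      ((d : ℝ) - 2) * (2 * d - 5) / (2 * ((d : ℝ) ^ 2 - d - 4)) < g d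

/-- `λ_d = 1 - (d-2)(2d-5)/(2(d²-d-4)) = (7d-18)/(2(d²-d-4))`. -/
noncomputable def lam (d : ℕ) : ℝ := (7 * (d : ℝ) - 18) / (2 * ((d : ℝ) ^ 2 - d - 4))

/-- `r_d = (1 - λ_d)/(d-2)`. -/
noncomputable def rr (d : ℕ) : ℝ := (1 - lam d) / ((d : ℝ) - 2)

/-! ## 2. Finite graphs -/

section
variable {V : Type} (G : SimpleGraph V)

/-- The number of neighbours of `v` in `S`. -/
noncomputable def nb (S : Finset V) (v : V) : ℕ := (S.filter fun w => G.Adj v w).card

/-- The number of pairs `(v, w)`, `v ∈ A`, `w ∈ B`, of adjacent vertices. -/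
noncomputable def ee (A B : Finset V) : ℕ := ∑ v ∈ A, nb G B v

/-- `a` has a neighbour in `Y`. -/
def Tch (a : V) (Y : Finset V) : Prop := ∃ y ∈ Y, G.Adj a y

/-- `A` is nonempty and connected (cut formulation). -/
def Cn (A : Finset V) : Prop :=
  A.Nonempty ∧ ∀ B : Finset V, B ⊆ A → B.Nonempty → B ≠ A → ∃ x ∈ B, ∃ y ∈ A, y ∉ B ∧ G.Adj x y

/-- `Q ⊆ S` and no edge of `S` leaves `Q`. -/
def Cl (S Q : Finset V) : Prop := Q ⊆ S ∧ ∀ x ∈ Q, ∀ y ∈ S, G.Adj x y → y ∈ Q

/-- `Q` is a connected component of `S`. -/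
def IsC (S Q : Finset V) : Prop := Cn G Q ∧ Cl G S Q

/-- The components of `S` which are trees with at most `B` vertices. -/
noncomputable def ST (B : ℕ) (S : Finset V) : Finset (Finset V) :=
  S.powerset.filter fun Q => IsC G S Q ∧ Q.card ≤ B ∧ ee G Q Q + 2 = 2 * Q.card

/-- The potential `ψ(S) = 6 |S| - 2 e(S) - 2 |ST S|`. -/
noncomputable def psi (B : ℕ) (S : Finset V) : ℤ :=
  6 * (S.card : ℤ) - (ee G S S : ℤ) - 2 * ((ST G B S).card : ℤ)

/-- The small tree components of `S - a` which touch `a`. -/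
noncomputable def Sh (B : ℕ) (S : Finset V) (a : V) : Finset (Finset V) :=
  (ST G B (S.erase a)).filter fun Y => Tch G a Y

/-- `κ_u(S)`: the number of neighbours of `u` in `S` minus the number of small tree components of `S`
which touch `u`. -/
noncomputable def kap (B : ℕ) (S : Finset V) (u : V) : ℤ :=
  (nb G S u : ℤ) - (((ST G B S).filter fun Y => Tch G u Y).card : ℤ)

/-- `R` maximizes `ψ` and, among the sets with maximal `ψ`, the cardinality. -/
structure MaxR (B : ℕ) (R : Finset V) : Prop where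
  max : ∀ S : Finset V, psi G B S ≤ psi G B R
  big : ∀ S : Finset V, psi G B S = psi G B R → S.card ≤ R.card

/-! ## 3. The core -/

/-- The vertices of `R` in components with more than `d B + 1` vertices. -/
noncomputable def Big (d B : ℕ) (R : Finset V) : Finset V :=
  R.filter fun a => ∃ K : Finset V, IsC G R K ∧ a ∈ K ∧ d * B + 1 < K.card

/-- The union of the sets in `Sh a`. -/
noncomputable def hg (B : ℕ) (R : Finset V) (a : V) : Finset V := (Sh G B R a).biUnion id

/-- The vertices of `Big` which are not in `hg b` for any `b ∈ Big`. -/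
noncomputable def CC (d B : ℕ) (R : Finset V) : Finset V :=
  (Big G d B R).filter fun a => ∀ b ∈ Big G d B R, a ∉ hg G B R b

/-- `P(a) = {a} ∪ hg a`. -/
noncomputable def PP (B : ℕ) (R : Finset V) (a : V) : Finset V := insert a (hg G B R a)

/-- The vertices of the core with three neighbours in the core. -/
noncomputable def C3 (d B : ℕ) (R : Finset V) : Finset V :=
  (CC G d B R).filter fun a => nb G (CC G d B R) a = 3

/-- `T_u`: the elements `a` of `C3` such that `u` touches `P(a)`. -/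
noncomputable def TT (d B : ℕ) (R : Finset V) (u : V) : Finset V :=
  (C3 G d B R).filter fun a => Tch G u (PP G B R a)

/-- The small tree components of `R - a - b` which touch `a` and `b`. -/
noncomputable def Sr (B : ℕ) (R : Finset V) (a b : V) : Finset (Finset V) :=
  (ST G B ((R.erase a).erase b)).filter fun Y => Tch G a Y ∧ Tch G b Y

/-- `E(a,b)`: one if `a` and `b` are adjacent, plus the number of the sets in `Sr a b`. -/
noncomputable def EE (B : ℕ) (R : Finset V) (a b : V) : ℕ :=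
  (if G.Adj a b then 1 else 0) + (Sr G B R a b).card

/-! ## 4. States (for the extraction lemma) -/

/-- The union of a family. -/
noncomputable def un (Q : Finset (Finset V)) : Finset V := Q.biUnion id

/-- The number of edges between `A` and `U \ A`. -/
noncomputable def dd (U A : Finset V) : ℕ := ee G A (U \ A)

/-- After the deletion of `X ⊆ P`, the vertices `z` of `P \ X` are grouped by `g` (constant along edges);
the group of `z` is adjacent to no vertex of `U \ P` except `w` if `g z = some w`. -/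
structure Cut (U P X : Finset V) (g : V → Option V) : Prop where
  sub : X ⊆ P
  con : ∀ z ∈ P, z ∉ X → ∀ w ∈ P, w ∉ X → G.Adj z w → g z = g w
  out : ∀ z ∈ P, z ∉ X → ∀ w ∈ U, w ∉ P → G.Adj z w → g z = some w
  mem : ∀ z ∈ P, z ∉ X → ∀ w, g z = some w → w ∈ U ∧ w ∉ P

/-- `P` can be cut by the deletion of at most one vertex. -/
def Light (U P : Finset V) : Prop := ∃ (X : Finset V) (g : V → Option V), X.card ≤ 1 ∧ Cut G U P X g

/-- A family of parts: disjoint nonempty sets with union `U`, each with at most three edges to the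
rest of `U`. -/
structure Fam (U : Finset V) (Q : Finset (Finset V)) : Prop where
  dis : ∀ P ∈ Q, ∀ P' ∈ Q, P ≠ P' → Disjoint P P'
  ne : ∀ P ∈ Q, P.Nonempty
  cov : un Q = U
  le : ∀ P ∈ Q, dd G U P ≤ 3

/-- `S` has a labelling, constant along edges, such that every class has mass at most `M`. -/
def Lab (S : Finset V) (m : V → ℕ) (M : ℕ) : Prop :=
  ∃ (α : Type) (l : V → α), (∀ v ∈ S, ∀ w ∈ S, G.Adj v w → l v = l w) ∧
    ∀ x : α, ∑ v ∈ S.filter (fun v => l v = x), m v ≤ M

/-- The conclusion of the extraction lemma for the state `(U, Q, m)`. -/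
def Res (b : ℕ) (ε : ℝ) (M : ℕ) (U : Finset V) (Q : Finset (Finset V)) (m : V → ℕ) : Prop :=
  ∃ (c : Finset V → ℝ) (D : Finset V), D ⊆ U ∧ (∀ P, 0 ≤ c P) ∧ (∀ P ∈ Q, c P ≤ 1 / 2) ∧
    (∀ P ∈ Q, Light G U P → c P ≤ 1 / 4) ∧
    (∀ W ⊆ Q, W.card ≤ b → dd G U (un W) ≤ 2 → ∑ P ∈ W, c P = 0) ∧
    (∀ W ⊆ Q, (∀ P ∈ W, Light G U P) → W.card ≤ b → dd G U (un W) ≤ 3 → ∑ P ∈ W, c P ≤ 1 / 2) ∧
    (D.card : ℝ) ≤ ∑ P ∈ Q, c P + ε * ∑ v ∈ U, (m v : ℝ) ∧
    Lab G (U \ D) m M

/-- The masses after the removal of the part `P` (cut by `X`, `g`): the mass of the group of `z` goes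
to `g z`. -/
noncomputable def mv (P X : Finset V) (g : V → Option V) (m : V → ℕ) (y : V) : ℕ :=
  m y + ∑ z ∈ (P \ X).filter (fun z => g z = some y), m z

/-- `S` can be labelled such that adjacent vertices of `S` have the same label and every label is used
at most `C` times in `S`. -/
def Frag (S : Finset V) (C : ℕ) : Prop :=
  ∃ (α : Type) (l : V → α), (∀ v ∈ S, ∀ w ∈ S, G.Adj v w → l v = l w) ∧
    ∀ x : α, (S.filter fun v => l v = x).card ≤ C

end

end Pool.Agent.Lib.MP4d044e.UB
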