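import Pool.Agent.Lib.MP_4d044e_co.UB.Spec

/-!
# MP_4d044e_co, upper bound: module FRS (labels of the remaining vertices)
-/

open Classical Finset

namespace Pool.Agent.Lib.MP4d044e.UB

namespace FRSM

variable {V : Type} {G : SimpleGraph V}

theorem mem_Big {d B : ℕ} {R : Finset V} {a : V} :
    a ∈ Big G d B R ↔ a ∈ R ∧ ∃ K : Finset V, IsC G R K ∧ a ∈ K ∧ d * B + 1 < K.card := by
  unfold Big
  simp only [Finset.mem_filter]

theorem cc_big {d B : ℕ} {R : Finset V} {a : V} (h : a ∈ CC G d B R) : a ∈ Big G d B R :=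
  (Finset.mem_filter.1 h).1

theorem big_adj {d B : ℕ} {R : Finset V} {z w : V} (hz : z ∈ Big G d B R) (hw : w ∈ R)
    (h : G.Adj z w) : w ∈ Big G d B R := by
  rw [mem_Big] at hz ⊢
  obtain ⟨_, K, hK, hzK, hc⟩ := hz
  exact ⟨hw, K, hK, hK.2.2 z hzK w hw h, hc⟩

end FRSM

open FRSM

theorem specFRS (hCNB : SpecCNB) (hHNG : SpecHNG) (hROO : SpecROO) : SpecFRS := by
  intro V _ G d B M R D hd hB hdeg hD hL
  obtain ⟨_, _, _, _, hcomp, huniq⟩ := hCNB V G
  obtain ⟨r1, r2, r3, _⟩ := hROO V G d B R hd hB hdeg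
  obtain ⟨α, l, hl1, hl2⟩ := hL
  have hr : ∀ z : V, ∃ a : V, z ∈ Big G d B R → a ∈ CC G d B R ∧ z ∈ PP G B R a := by
    intro z
    by_cases hz : z ∈ Big G d B R
    · obtain ⟨a, ha, hza⟩ := r1 z hz
      exact ⟨a, fun _ => ⟨ha, hza⟩⟩
    · exact ⟨z, fun h => absurd h hz⟩
  choose r hr using hr
  have hk : ∀ z : V, ∃ K : Finset V, z ∈ R → IsC G R K ∧ z ∈ K := by
    intro z
    by_cases hz : z ∈ R
    · obtain ⟨K, hK, hzK⟩ := hcomp R z hz
      exact ⟨K, fun _ => ⟨hK, hzK⟩⟩
    · exact ⟨∅, fun h => absurd h hz⟩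
  choose k hk using hk
  have main : ∃ (β : Type) (L : V → β), (∀ v ∈ R \ D, ∀ w ∈ R \ D, G.Adj v w → L v = L w) ∧
      ∀ x : β, ∃ T : Finset V, T.card ≤ M + d * B + 1 ∧ ∀ z ∈ R \ D, L z = x → z ∈ T := by
   refine ⟨(α ⊕ V) ⊕ Finset V, fun z => if z ∈ Big G d B R then
     (if r z ∈ D then Sum.inl (Sum.inr (r z)) else Sum.inl (Sum.inl (l (r z)))) else Sum.inr (k z), ?_, ?_⟩
   · intro z hz w hw hzw
     obtain ⟨hzR, hzD⟩ := Finset.mem_sdiff.1 hz
     obtain ⟨hwR, hwD⟩ := Finset.mem_sdiff.1 hw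
     by_cases hzB : z ∈ Big G d B R
     · have hwB : w ∈ Big G d B R := big_adj hzB hwR hzw
       simp only [hzB, hwB, if_true]
       obtain ⟨ha, hza⟩ := hr z hzB
       obtain ⟨hb, hwb⟩ := hr w hwB
       by_cases hab : r z = r w
       · rw [hab]
       · obtain ⟨e1, e2⟩ := r3 _ ha _ hb hab z hza w hwb hzw
         have haD : r z ∉ D := by rw [← e1]; exact hzD
         have hbD : r w ∉ D := by rw [← e2]; exact hwD
         have h3 : l (r z) = l (r w) := by
           refine hl1 _ (Finset.mem_sdiff.2 ⟨ha, haD⟩) _ (Finset.mem_sdiff.2 ⟨hb, hbD⟩) ?_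
           rw [← e1, ← e2]
           exact hzw
         rw [if_neg haD, if_neg hbD, h3]
     · have hwB : w ∉ Big G d B R := fun h => hzB (big_adj h hzR hzw.symm)
       simp only [hzB, hwB, if_false]
       obtain ⟨h1, h2⟩ := hk z hzR
       obtain ⟨h3, h4⟩ := hk w hwR
       have h5 : w ∈ k z := h1.2.2 z h2 w hwR hzw
       rw [huniq R (k z) (k w) h1 h3 ⟨w, Finset.mem_inter.2 ⟨h5, h4⟩⟩]
   · intro x
     show ∃ T : Finset V, T.card ≤ M + d * B + 1 ∧ ∀ z ∈ R \ D, (if z ∈ Big G d B R then
           (if r z ∈ D then Sum.inl (Sum.inr (r z)) else Sum.inl (Sum.inl (l (r z)))) else Sum.inr (k z) :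
             (α ⊕ V) ⊕ Finset V) = x → z ∈ T
     rcases x with (x | a) | K
     · refine ⟨((CC G d B R \ D).filter fun a => l a = x).biUnion fun a => PP G B R a, ?_, ?_⟩
       · have h3 := Finset.card_biUnion_le (s := (CC G d B R \ D).filter fun a => l a = x)
           (t := fun a => PP G B R a)
         have h4 := hl2 x
         have h5 := h3.trans h4
         omega
       · intro z _ hz2
         by_cases hzB : z ∈ Big G d B R
         · rw [if_pos hzB] at hz2
           by_cases hzD : r z ∈ D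
           · rw [if_pos hzD] at hz2
             simp at hz2
           · rw [if_neg hzD] at hz2
             simp only [Sum.inl.injEq] at hz2
             obtain ⟨ha, hza⟩ := hr z hzB
             exact Finset.mem_biUnion.2 ⟨r z, Finset.mem_filter.2 ⟨Finset.mem_sdiff.2 ⟨ha, hzD⟩, hz2⟩, hza⟩
         · rw [if_neg hzB] at hz2
           simp at hz2
     · refine ⟨if a ∈ D then hg G B R a else ∅, ?_, ?_⟩
       · have h3 : (if a ∈ D then hg G B R a else ∅).card ≤ d * B := by
           split_ifs with h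
           · exact (hHNG V G d B R hd hB hdeg a (cc_big (hD h))).1
           · simp
         omega
       · intro z hzR hz2
         by_cases hzB : z ∈ Big G d B R
         · rw [if_pos hzB] at hz2
           by_cases hzD : r z ∈ D
           · rw [if_pos hzD] at hz2
             simp only [Sum.inl.injEq, Sum.inr.injEq] at hz2
             obtain ⟨ha, hza⟩ := hr z hzB
             rw [hz2] at hzD hza
             rw [if_pos hzD]
             unfold PP at hza
             rcases Finset.mem_insert.1 hza with h | h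
             · rw [h] at hzR
               exact absurd hzD (Finset.mem_sdiff.1 hzR).2
             · exact h
           · rw [if_neg hzD] at hz2
             simp at hz2
         · rw [if_neg hzB] at hz2
           simp at hz2
     · have hf : ∀ z ∈ R \ D, (if z ∈ Big G d B R then
         (if r z ∈ D then Sum.inl (Sum.inr (r z)) else Sum.inl (Sum.inl (l (r z)))) else Sum.inr (k z) :
           (α ⊕ V) ⊕ Finset V) = Sum.inr K → z ∈ R ∧ z ∉ Big G d B R ∧ IsC G R K ∧ z ∈ K := by
         intro z hzR hz2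
         have hzR' := (Finset.mem_sdiff.1 hzR).1
         by_cases hzB : z ∈ Big G d B R
         · rw [if_pos hzB] at hz2
           by_cases hzD : r z ∈ D
           · rw [if_pos hzD] at hz2
             simp at hz2
           · rw [if_neg hzD] at hz2
             simp at hz2
         · rw [if_neg hzB] at hz2
           simp only [Sum.inr.injEq] at hz2
           obtain ⟨h1, h2⟩ := hk z hzR'
           rw [hz2] at h1 h2
           exact ⟨hzR', hzB, h1, h2⟩
       by_cases hne : ∃ z ∈ R \ D, (if z ∈ Big G d B R then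
         (if r z ∈ D then Sum.inl (Sum.inr (r z)) else Sum.inl (Sum.inl (l (r z)))) else Sum.inr (k z) :
           (α ⊕ V) ⊕ Finset V) = Sum.inr K
       · obtain ⟨z0, hz0, hz0'⟩ := hne
         obtain ⟨h0R, h0B, h0K, h0z⟩ := hf z0 hz0 hz0'
         have hKc : K.card ≤ d * B + 1 := by
           by_contra hcon
           exact h0B (mem_Big.2 ⟨h0R, K, h0K, h0z, by omega⟩)
         exact ⟨K, by omega, fun z hz hz' => (hf z hz hz').2.2.2⟩
       · exact ⟨∅, by simp, fun z hz hz' => absurd ⟨z, hz, hz'⟩ hne⟩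
  obtain ⟨β, L, hL1, hL2⟩ := main
  refine ⟨β, L, hL1, fun x => ?_⟩
  obtain ⟨T, hT1, hT2⟩ := hL2 x
  refine le_trans (Finset.card_le_card fun z hz => ?_) hT1
  obtain ⟨h1, h2⟩ := Finset.mem_filter.1 hz
  exact hT2 z h1 h2

end Pool.Agent.Lib.MP4d044e.UB
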