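import Pool.Agent.Lib.MP_4d044e_co.UB.Defs

/-!
# MP_4d044e_co, upper bound for all graphs: Specs of all modules (proofs in the docstrings)

THEOREM. For every `d ≥ 5`: `c_f(Γ_d) ≤ (d-2)(2d-5)/(2(d²-d-4))`, smaller than the bound of Edwards and
Farr for every `d ≥ 5`.

Overview. By REG we may assume that `G` is `d`-regular. `B` is a large constant, `c(S)` the number of the
components of `S` which are trees with at most `B` vertices (`ST`), `ψ(S) = 6 |S| - 2 e(S) - 2 c(S)`; `R` is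
a maximizer of `ψ` and then of the cardinality. Then `κ_u ≥ 4` for `u ∉ R` (MXK). The big components of `R`
have a core `CC` of maximum degree `≤ 3` (part II), with trees `P(a)` hanging at the core vertices. Counting
edges between `R` and the rest gives `∑ κ_u ≤ (d-2)|R| - |C3| + 2|R|/B` (part III). The extraction lemma (part V)
deletes a set `D` of core vertices, of size `∑ c_a + ε|R|` with `c_a ≤ 1/4`, `c_a = 0` outside `C3`, and such
that the rest falls into bounded pieces; moreover `∑_{W} c_a ≤ 1/2` for every small set `W` with at most three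
edges to the rest of the core. Part IV shows: if `κ_u = 4` and `u` touches `P(a)` for three elements
`a` of `C3` then these `a` lie in such a set `W`. Part VI is the discharging.
-/

open Classical Finset

namespace Pool.Agent.Lib.MP4d044e.UB

/-! ## I. Numbers and basic facts -/

/-- **NUM** [150]. Write `x = d`. `lam = (7x-18)/(2(x²-x-4))`, `rr = (2x-5)/(2(x²-x-4))`, as `(x-2)(2x-5) = 2(x²-x-4) - (7x-18)`. `rr < 1/4` is
`(x-2)(x-3) > 0`; `3/(4x) ≤ rr` is `2(x-3)(x-4) ≥ 0`; `7/(2(x+2)) < lam` is `3x - 8 > 0`; the equation: clear denominators. The last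
statement: `h = 1 - g` satisfies `k h_k = (k-2) h_(k-1) + h_(k-2)`, `h_2 = 1`, `h_3 = 3/4`, so `h_4 = 5/8 = lam 4`,
`h_5 = 21/40 < 17/32 = lam 5`; for `k ≥ 6`: `k lam k > (k-2) lam (k-1) + lam (k-2)` (clear denominators, substitute `k = 6 + t`: a
polynomial with positive coefficients), so `h_k ≤ lam k` for `k ≥ 4` and `h_k < lam k` for `k ≥ 5` by induction (two steps). -/
def SpecNUM : Prop := ∀ d : ℕ, 5 ≤ d →
  ((d : ℝ) - 2) * (2 * d - 5) / (2 * ((d : ℝ) ^ 2 - d - 4)) = 1 - lam d ∧ 0 < lam d ∧ lam d < 1 ∧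
  0 < rr d ∧ rr d < 1 / 4 ∧ 3 / (4 * (d : ℝ)) ≤ rr d ∧
  4 * rr d - lam d = 2 * (1 / 4 - rr d) / ((d : ℝ) - 3) ∧ 7 / (2 * ((d : ℝ) + 2)) < lam d ∧
  ∀ g : ℕ → ℝ, g 2 = 0 → g 3 = 1 / 4 →
    (∀ k : ℕ, 4 ≤ k → (k : ℝ) * g k = ((k : ℝ) - 2) * g (k - 1) + g (k - 2) + 1) → 1 - lam d < g d

/-- **EEB** [250]. Basic counting. (1), (2) disjoint unions of the argument of `nb`. (3) double counting of pairs. (4) from (1).
(5) from (4) and (3) (`G` is irreflexive). (6) induction on `A` with (5). (7) clear. (8) from (5) with `A.erase a`. (9) sums over disjoint families. (10) by (9)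
for pairs: if no edge joins different members of the disjoint family `Q` then `ee (un Q) (un Q) = ∑ ee P P`. -/
def SpecEEB : Prop := ∀ (V : Type) (G : SimpleGraph V),
  (∀ (A B : Finset V) (v : V), Disjoint A B → nb G (A ∪ B) v = nb G A v + nb G B v) ∧
  (∀ (A B : Finset V) (v : V), A ⊆ B → nb G A v ≤ nb G B v) ∧
  (∀ A B : Finset V, ee G A B = ee G B A) ∧
  (∀ A B C : Finset V, Disjoint A B → ee G (A ∪ B) C = ee G A C + ee G B C ∧
    ee G C (A ∪ B) = ee G C A + ee G C B) ∧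
  (∀ A A' B B' : Finset V, A ⊆ A' → B ⊆ B' → ee G A B ≤ ee G A' B') ∧
  (∀ (A : Finset V) (a : V), a ∉ A → ee G (insert a A) (insert a A) = ee G A A + 2 * nb G A a) ∧
  (∀ A : Finset V, Even (ee G A A)) ∧
  (∀ A B : Finset V, ee G A B = 0 ↔ ∀ a ∈ A, ∀ b ∈ B, ¬ G.Adj a b) ∧
  (∀ (A : Finset V) (a : V), a ∈ A → ee G A A = ee G (A.erase a) (A.erase a) + 2 * nb G A a ∧
    ∀ v, nb G A v = nb G (A.erase a) v + (if G.Adj v a then 1 else 0)) ∧
  (∀ (Q : Finset (Finset V)) (B : Finset V), (∀ P ∈ Q, ∀ P' ∈ Q, P ≠ P' → Disjoint P P') →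
    ee G (un Q) B = ∑ P ∈ Q, ee G P B ∧ (∀ v, nb G (un Q) v = ∑ P ∈ Q, nb G P v) ∧
    (un Q).card = ∑ P ∈ Q, P.card ∧
    ((∀ P ∈ Q, ∀ P' ∈ Q, P ≠ P' → ee G P P' = 0) → ee G (un Q) (un Q) = ∑ P ∈ Q, ee G P P))

/-- **CNB** [250]. Basic connectivity. (2) if `A ⊄ Q` apply connectivity of `A` to `A ∩ Q`: an edge from `A ∩ Q` to
`A \ Q ⊆ S` contradicts `Cl`. (3), (4) let `D ⊆ A ∪ B` be nonempty, proper; if `D ∩ A` is nonempty and `≠ A` use `A`; similarly `B`; otherwise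
`D ∩ A ∈ {∅, A}`, `D ∩ B ∈ {∅, B}`, impossible if `A ∩ B` is nonempty, and in (4) the edge `a b` works (in one of the directions).
(5) `Q` = the set of all `w ∈ S` which are in every closed subset (`Cl G S`) of `S` containing `a`; it is closed; if `D ⊆ Q` is nonempty,
proper and no edge goes from `D` to `Q \ D` then `D` and `Q \ D` are closed in `S`, and one of them contains `a`, contradiction. (6) (2) twice. -/
def SpecCNB : Prop := ∀ (V : Type) (G : SimpleGraph V),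
  (∀ a : V, Cn G {a}) ∧
  (∀ S A Q : Finset V, Cn G A → A ⊆ S → Cl G S Q → (A ∩ Q).Nonempty → A ⊆ Q) ∧
  (∀ A B : Finset V, Cn G A → Cn G B → (A ∩ B).Nonempty → Cn G (A ∪ B)) ∧
  (∀ (A B : Finset V) (a b : V), Cn G A → Cn G B → a ∈ A → b ∈ B → G.Adj a b → Cn G (A ∪ B)) ∧
  (∀ (S : Finset V) (a : V), a ∈ S → ∃ Q, IsC G S Q ∧ a ∈ Q) ∧
  (∀ S Q Q' : Finset V, IsC G S Q → IsC G S Q' → (Q ∩ Q').Nonempty → Q = Q')

/-- **CNC** [150], from EEB. (1) Choose `A'` with `A ⊆ A' ⊆ Q` and `ee A A + 2 |A'| ≤ ee A' A' + 2 |A|` with `|A'|` maximal; if `A' ≠ Q`, connectivity gives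
`x ∈ A'`, `y ∈ Q \ A'` adjacent and `insert y A'` is also possible. (2) is (1) with `A = {a}`. (3) from (1) and (2). (4) `∑_{v ∈ Q} nb Q v = 2|Q| - 2`. -/
def SpecCNC : Prop := ∀ (V : Type) (G : SimpleGraph V) (Q : Finset V), Cn G Q →
  (∀ A : Finset V, A ⊆ Q → A.Nonempty → ee G A A + 2 * Q.card ≤ ee G Q Q + 2 * A.card) ∧
  2 * Q.card ≤ ee G Q Q + 2 ∧
  (ee G Q Q + 2 = 2 * Q.card → ∀ A : Finset V, A ⊆ Q → Cn G A → ee G A A + 2 = 2 * A.card) ∧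
  (ee G Q Q + 2 = 2 * Q.card → ∃ v ∈ Q, nb G Q v ≤ 1)

/-- **CND** [150], from CNB. Let `K` be a component of `S`, `a ∈ K`, `Y` a component of `S - a`. If `Y` touches `a` then `insert a Y` is connected (CNB),
meets `K`, so `Y ⊆ K`. If `Y ⊆ K`: `Y ≠ K`, so an edge leaves `Y` inside `K`, and it must end in `a` (`Y` is closed in `S - a`). `K \ Y` is connected: let
`D ⊆ K \ Y` be nonempty and proper, without an edge to `(K \ Y) \ D`. One of `D`, `(K \ Y) \ D` does not contain `a`; call it `D'`. No edge goes from `D'` to the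
other one (symmetry) and none to `Y` (`Y` is closed in `S - a`), so none to `K \ D'`: contradiction to `Cn G K`. -/
def SpecCND : Prop := ∀ (V : Type) (G : SimpleGraph V) (S K Y : Finset V) (a : V),
  IsC G S K → a ∈ K → IsC G (S.erase a) Y →
  (Tch G a Y ↔ Y ⊆ K) ∧ (Y ⊆ K → Cn G (K \ Y) ∧ Cn G (insert a Y))

/-- **DEL** [200], from EEB, CNB. A component `Q` of `S - a` which does not touch `a` is a component of `S` not containing `a`, and conversely. This is the first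
statement; so `|ST(S-a)| = |Sh a| + |ST S| - #{Q ∈ ST S : a ∈ Q}` (the two kinds exclude each other). At most one component contains `a` (CNB). EEB (8) for `ee`. -/
def SpecDEL : Prop := ∀ (V : Type) (G : SimpleGraph V) (B : ℕ) (S : Finset V) (a : V), a ∈ S →
  (∀ Q, Q ∈ ST G B (S.erase a) ↔ Q ∈ Sh G B S a ∨ (Q ∈ ST G B S ∧ a ∉ Q)) ∧
  ((ST G B S).filter fun Q => a ∈ Q).card ≤ 1 ∧
  psi G B (S.erase a) = psi G B S - 6 + 2 * (nb G S a : ℤ) +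
    2 * (((ST G B S).filter fun Q => a ∈ Q).card : ℤ) - 2 * ((Sh G B S a).card : ℤ)

/-- **ADD** [200], from EEB, CNB, CNC, DEL. Apply DEL to `insert u S` and `u`: `Sh (insert u S) u` is `{Y ∈ ST S : Tch u Y}` and
`ψ(insert u S) = ψ(S) + 6 - 2 κ_u - 2 δ`, where `δ ∈ {0,1}` is the number of the `Q ∈ ST (insert u S)` with `u ∈ Q`. If `δ = 0`: done. If `δ = 1`: claim
`κ_u ≤ 0`. Let `y` be a neighbour of `u` in `S`; `y ∈ Q`. Let `Y` be the component of `S` containing `y`; it is a connected subset of `insert u S` meeting `Q`, so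
`Y ⊆ Q`, and it is a tree (CNC (3)) with at most `B` vertices, so `Y ∈ ST S` and it touches `u`. If two different neighbours `y, y'` of `u` have the same
`Y`, then `A = insert u Y ⊆ Q` has `ee A A ≥ 2|Y| - 2 + 4 = 2|A|`, contradicting CNC (1) for the tree `Q`. So `nb S u ≤ #{Y ∈ ST S : Tch u Y}`. -/
def SpecADD : Prop := ∀ (V : Type) (G : SimpleGraph V) (B : ℕ) (S : Finset V) (u : V), u ∉ S →
  psi G B S + min (6 - 2 * kap G B S u) 4 ≤ psi G B (insert u S)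

/-- **MXK** [80], from DEL, ADD. Existence: finitely many sets; maximize `ψ`, then the cardinality. If `u ∉ R`: `ψ(insert u R) ≤ ψ(R)` gives `κ_u ≥ 3` by ADD, and `κ_u = 3`
gives `ψ(insert u R) = ψ(R)` with a larger set. The second by DEL, `ψ(R - a) ≤ ψ(R)`. -/
def SpecMXK : Prop := ∀ (V : Type) [Fintype V] (G : SimpleGraph V) (B : ℕ),
  (∃ R, MaxR G B R) ∧ ∀ R, MaxR G B R →
    (∀ u, u ∉ R → 4 ≤ kap G B R u) ∧
    ∀ a ∈ R, (∀ Q ∈ ST G B R, a ∉ Q) → nb G R a ≤ 3 + (Sh G B R a).card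

/-! ## II. The core -/

/-- **HNG** [250], from EEB, CNB, CNC, CND. Let `a ∈ Big`, `K` its component (`|K| > dB+1`). The sets in `Sh a` are components of `R - a` touching `a`: pairwise disjoint,
subsets of `K` (CND), each contains a neighbour of `a`, so `|Sh a| ≤ nb (hg a) a ≤ d`; each has at most `B` elements: (1). (2): `a ∉ R.erase a`. (3): `insert a Y` is
connected (CND) for every `Y ∈ Sh a`, union (CNB). (4): `K ⊆ Big`. (5): `x ∈ Y ∈ Sh a`, `Y` is closed in `R - a`. (6): `y ∈ K`. (8): no edges between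
different components, so `ee (hg a) (hg a) = ∑_Y (2|Y| - 2) = 2 |hg a| - 2 |Sh a|` (EEB (10)) and `ee (PP a) (PP a) = ee (hg a) (hg a) + 2 nb (hg a) a`.
(9): a set in `ST R` containing `a` would be `K` (CNB), too large. -/
def SpecHNG : Prop := ∀ (V : Type) [Fintype V] (G : SimpleGraph V) (d B : ℕ) (R : Finset V),
  3 ≤ d → 1 ≤ B → (∀ v, nb G univ v ≤ d) → ∀ a ∈ Big G d B R,
  (hg G B R a).card ≤ d * B ∧ a ∉ hg G B R a ∧ Cn G (PP G B R a) ∧ PP G B R a ⊆ Big G d B R ∧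
  (∀ x ∈ hg G B R a, ∀ y ∈ R, G.Adj x y → y ∈ PP G B R a) ∧
  (∀ y ∈ R, G.Adj a y → y ∈ Big G d B R) ∧
  (Sh G B R a).card ≤ nb G (hg G B R a) a ∧
  (nb G (hg G B R a) a = (Sh G B R a).card →
    ee G (PP G B R a) (PP G B R a) + 2 = 2 * (PP G B R a).card) ∧
  (∀ Q ∈ ST G B R, a ∉ Q)

/-- **LAM** [150], from CNB, CND. Laminarity. `K` = the component of `a` and of `b` (`Y ⊆ K`, CND). Suppose `a ∈ Z`. `K \ Y` is connected (CND), contains `a`, is contained in `R - b`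
(`b ∈ Y`), and meets the component `Z` of `R - b`, so `K \ Y ⊆ Z` (CNB) and `|K| ≤ |Y| + |Z| ≤ 2B < dB+1`, contradiction. So `a ∉ Z`; `insert b Z` is connected (CND),
contained in `R - a`, meets `Y` in `b`, so `insert b Z ⊆ Y`. -/
def SpecLAM : Prop := ∀ (V : Type) [Fintype V] (G : SimpleGraph V) (d B : ℕ) (R : Finset V),
  3 ≤ d → 1 ≤ B → ∀ a ∈ Big G d B R, ∀ Y ∈ Sh G B R a, ∀ b ∈ Y, ∀ Z ∈ Sh G B R b,
  a ∉ Z ∧ insert b Z ⊆ Y

/-- **ROO** [250], from EEB, CNB, HNG, LAM. The core. (1) If `v ∉ CC`, choose `a ∈ Big` and `Y ∈ Sh a` with `v ∈ Y` and `|Y|` maximal. If `a ∈ hg b`, `b ∈ Big`, `a ∈ Y' ∈ Sh b`, then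
LAM: `insert a Y ⊆ Y'`, `v ∈ Y'`, contradiction to the maximality. So `a ∈ CC`. (2) Let `h ∈ PP a ∩ PP b`. `a ∉ hg b` and `b ∉ hg a` (definition of `CC`), so
`h ∈ Y ∈ Sh a`, `h ∈ Y' ∈ Sh b`. `Y` is connected, `b ∉ Y`, `Y ⊆ R - b`, so `Y ⊆ Y'`; symmetric, so `Y = Y'`; it touches `b`, and `b ∈ R - a`, so `b ∈ Y` (`Y` closed in `R - a`),
contradiction. (3) If `x ∈ hg a` then `y ∈ PP a` (HNG (5)), contradiction to (2); so `x = a`, similarly `y = b`. (4) the neighbours of `a` in `R` are in `Big` (HNG), so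
in some `PP b` (1); if `b ≠ a` the neighbour is `b ∈ CC` (3); if `b = a` it is in `hg a`, and `hg a` is disjoint from `CC`. -/
def SpecROO : Prop := ∀ (V : Type) [Fintype V] (G : SimpleGraph V) (d B : ℕ) (R : Finset V),
  3 ≤ d → 1 ≤ B → (∀ v, nb G univ v ≤ d) →
  (∀ v ∈ Big G d B R, ∃ a ∈ CC G d B R, v ∈ PP G B R a) ∧
  (∀ a ∈ CC G d B R, ∀ b ∈ CC G d B R, a ≠ b → Disjoint (PP G B R a) (PP G B R b)) ∧
  (∀ a ∈ CC G d B R, ∀ b ∈ CC G d B R, a ≠ b → ∀ x ∈ PP G B R a, ∀ y ∈ PP G B R b, G.Adj x y →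
    x = a ∧ y = b) ∧
  (∀ a ∈ CC G d B R, nb G R a = nb G (CC G d B R) a + nb G (hg G B R a) a)

/-- **CLO** [150], from EEB, CNB, CNC, HNG, ROO. Suppose `|PP a| ≤ B` and `ee (PP a) (PP a) < 2 |PP a|`, so (even, CNC (2)) `PP a` is a tree. The edges of `R` leaving `PP a` go
from `a` to `CC` (HNG (5), ROO). If there are none, `PP a` is a component of `R` and `a ∈ Big` has a component with more than `dB+1 > B` vertices, contradiction. If there is exactly one,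
to `b ∈ CC`: `PP a ⊆ R - b` is connected, closed in `R - b`, touches `b`, so `PP a ∈ Sh b`, `a ∈ hg b`, contradiction to `a ∈ CC`. -/
def SpecCLO : Prop := ∀ (V : Type) [Fintype V] (G : SimpleGraph V) (d B : ℕ) (R : Finset V),
  3 ≤ d → 1 ≤ B → (∀ v, nb G univ v ≤ d) →
  ∀ a ∈ CC G d B R, nb G (CC G d B R) a ≤ 1 →
    B < (PP G B R a).card ∨ 2 * (PP G B R a).card ≤ ee G (PP G B R a) (PP G B R a)

/-- **COR** [120], from CNC, MXK, HNG, ROO. `a ∈ CC ⊆ Big`, no set of `ST R` contains `a` (HNG), so `nb R a ≤ 3 + |Sh a|` (MXK); `nb R a = nb CC a + nb (hg a) a`,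
`nb (hg a) a ≥ |Sh a|`. For `a ∈ C3` equality. Last: if `Sh a = ∅` take `v = a`. Otherwise take `Y ∈ Sh a` and `v ∈ Y` with `nb Y v ≤ 1` (CNC (4)); the neighbours of `v` in `R` are in
`Y` or equal to `a`. -/
def SpecCOR : Prop := ∀ (V : Type) [Fintype V] (G : SimpleGraph V) (d B : ℕ) (R : Finset V),
  3 ≤ d → 1 ≤ B → (∀ v, nb G univ v ≤ d) → MaxR G B R →
  (∀ a ∈ CC G d B R, nb G (CC G d B R) a ≤ 3) ∧
  ∀ a ∈ C3 G d B R, nb G R a = 3 + (Sh G B R a).card ∧ nb G (hg G B R a) a = (Sh G B R a).card ∧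
    ∃ v ∈ PP G B R a, nb G R v ≤ 3

/-! ## III. The count -/

/-- **SMP** [200], from EEB, CNB, CNC. The small components. `R \ Big` is the disjoint union of the components `K` of `R` with `|K| ≤ dB+1` (they contain no element of `Big`, by
uniqueness), without edges between them; for each: `2B|K| ≤ B ee K K + 2B [K ∈ ST] + 2|K|`: if `K ∈ ST`, `ee K K = 2|K| - 2`; otherwise `|K| > B` (and `ee K K ≥ 2|K| - 2`, CNC) or
`ee K K + 2 ≠ 2|K|`, so `ee K K ≥ 2|K|` (even). Sum (EEB (10)); the sets in `ST R` are among these `K` (`|Q| ≤ B`). The second: no edges between `Big` and `R \ Big`. -/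
def SpecSMP : Prop := ∀ (V : Type) [Fintype V] (G : SimpleGraph V) (d B : ℕ) (R : Finset V),
  3 ≤ d → 1 ≤ B →
  2 * B * (R \ Big G d B R).card ≤ B * ee G (R \ Big G d B R) (R \ Big G d B R) +
    2 * B * (ST G B R).card + 2 * (R \ Big G d B R).card ∧
  ee G R R = ee G (Big G d B R) (Big G d B R) + ee G (R \ Big G d B R) (R \ Big G d B R)

/-- **BGP** [200], from EEB, CNC, HNG, ROO, CLO. `Big` is the disjoint union of the `PP a`, `a ∈ CC`, and `ee (PP a) Big = ee (PP a) (PP a) + nb CC a` (ROO (3)). For each `a ∈ CC`: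
`B [nb CC a = 3] + 2B|PP a| ≤ B (ee (PP a) (PP a) + nb CC a) + 2 |PP a|`: `ee (PP a) (PP a) ≥ 2|PP a| - 2` (CNC, HNG); if `nb CC a ≥ 2` this suffices; if `nb CC a ≤ 1` use CLO. Sum. -/
def SpecBGP : Prop := ∀ (V : Type) [Fintype V] (G : SimpleGraph V) (d B : ℕ) (R : Finset V),
  3 ≤ d → 1 ≤ B → (∀ v, nb G univ v ≤ d) →
  B * (C3 G d B R).card + 2 * B * (Big G d B R).card ≤
    B * ee G (Big G d B R) (Big G d B R) + 2 * (Big G d B R).card

/-- **CNT** [150], from EEB, CNC, SMP, BGP. `∑_{u ∉ R} nb R u = ee Rᶜ R = ∑_{v ∈ R} (d - nb R v) = d|R| - ee R R`. `∑_{u ∉ R} #{Q ∈ ST R : Tch u Q} = ∑_{Q ∈ ST R} #{u ∉ R : Tch u Q} ≥ 2 |ST R|`: `Q`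
contains `v` with `nb Q v ≤ 1` (CNC (4)), `nb R v = nb Q v`, so `v` has at least `d - 1 ≥ 2` neighbours outside `R`. So `B ∑ κ_u ≤ B (d|R| - ee R R - 2|ST R|)`; add SMP and BGP. -/
def SpecCNT : Prop := ∀ (V : Type) [Fintype V] (G : SimpleGraph V) (d B : ℕ) (R : Finset V),
  3 ≤ d → 1 ≤ B → (∀ v, nb G univ v = d) →
  (B : ℤ) * ∑ u ∈ Rᶜ, kap G B R u + B * (C3 G d B R).card ≤ B * ((d : ℤ) - 2) * R.card + 2 * R.card

/-! ## IV. Pairs and triples -/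

/-- **PRA** [150], from CNB, CND, HNG. `a ≠ b` in `CC`, `S' = R - a - b`. (1) `Q ∈ ST R` contains neither `a` nor `b` (HNG (9)); it is connected and closed in `S'`, and touches neither `a` nor
`b` (closed in `R`). (2) `Y ∈ Sh a`: `b ∉ Y` (`b ∈ CC`), so `Y ⊆ S'`, closed in `S'`; it does not touch `b` since it is closed in `R - a` and `b ∉ Y`. (3) a set `Y` of `ST S'` which does not touch `a`
is closed in `R - b`; so if it touches `b` it is in `Sh b`. (4) no set of `ST (R - a)` contains `b`: it would be in `Sh a` (no, `b ∈ CC`) or, not touching `a`, closed in `R`, in `ST R`. -/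
def SpecPRA : Prop := ∀ (V : Type) [Fintype V] (G : SimpleGraph V) (d B : ℕ) (R : Finset V),
  3 ≤ d → 1 ≤ B → (∀ v, nb G univ v ≤ d) → ∀ a ∈ CC G d B R, ∀ b ∈ CC G d B R, a ≠ b →
  (∀ Q ∈ ST G B R, Q ∈ ST G B ((R.erase a).erase b) ∧ ¬ Tch G a Q ∧ ¬ Tch G b Q) ∧
  (∀ Y ∈ Sh G B R a, Y ∈ ST G B ((R.erase a).erase b) ∧ ¬ Tch G b Y) ∧
  (∀ Y ∈ Sh G B R b, Y ∈ ST G B ((R.erase a).erase b) ∧ ¬ Tch G a Y) ∧
  (∀ Y ∈ ST G B ((R.erase a).erase b), ¬ Tch G a Y → Tch G b Y → Y ∈ Sh G B R b) ∧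
  (∀ Q ∈ ST G B (R.erase a), b ∉ Q)

/-- **PRB** [120], from EEB, DEL, HNG, PRA. `ψ(R - a) = ψ(R)` by DEL (`a` is in no set of `ST R`, HNG (9)). `ψ(R - a - b) = ψ(R - a) - 6 + 2 nb (R-a) b - 2 |Sh (R-a) b|` by DEL and PRA (5);
`nb (R-a) b = nb R b - [a ~ b]`; `Sh (R-a) b` is the disjoint union of `Sr a b` and `Sh R b` (PRA (3), (4)). -/
def SpecPRB : Prop := ∀ (V : Type) [Fintype V] (G : SimpleGraph V) (d B : ℕ) (R : Finset V),
  3 ≤ d → 1 ≤ B → (∀ v, nb G univ v ≤ d) → ∀ a ∈ CC G d B R, ∀ b ∈ CC G d B R, a ≠ b →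
  nb G R a = 3 + (Sh G B R a).card → nb G R b = 3 + (Sh G B R b).card →
  psi G B ((R.erase a).erase b) = psi G B R - 2 * (EE G B R a b : ℤ)

/-- **PRC** [200], from EEB, ADD, COR, PRA, PRB. `S' = R - a - b`, `a, b ∈ TT u`. `nb S' u = nb R u - [u ~ a] - [u ~ b]`. The sets of `ST S'` touching `u` contain: those of `ST R`, of `Sh a`, of `Sh b`, of
`Sr a b` touching `u`; these four families are disjoint (PRA: they touch none of `a`, `b`; only `a`; only `b`; both). As `u` touches `PP a`, `[u ~ a] + #{Y ∈ Sh a : Tch u Y} ≥ 1`; the same for `b`.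
So `κ_u(S') ≤ κ_u(R) - 2 - s = 2 - s`, `s = #{Y ∈ Sr a b : Tch u Y}`. By ADD and the maximality `ψ(R) ≥ ψ(insert u S') ≥ ψ(R) - 2 EE + min (6 - 2(2 - s)) 4`: `EE ≥ 1`, and `EE ≥ 2` if `s ≥ 1`. -/
def SpecPRC : Prop := ∀ (V : Type) [Fintype V] (G : SimpleGraph V) (d B : ℕ) (R : Finset V),
  3 ≤ d → 1 ≤ B → (∀ v, nb G univ v ≤ d) → MaxR G B R → ∀ u, u ∉ R → kap G B R u = 4 →
  ∀ a ∈ TT G d B R u, ∀ b ∈ TT G d B R u, a ≠ b →
  1 ≤ EE G B R a b ∧ ((∃ Y ∈ Sr G B R a b, Tch G u Y) → 2 ≤ EE G B R a b)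

/-- **TUK** [120], from CNB, HNG, ROO. `u` has a neighbour in each of the pairwise disjoint sets `PP a`, `a ∈ TT u` (subsets of `Big`, ROO, HNG), and in each `Q ∈ ST R` which it touches (pairwise
disjoint, disjoint from `Big` by HNG (9)). So `nb R u ≥ |TT u| + #{Q ∈ ST R : Tch u Q}`. -/
def SpecTUK : Prop := ∀ (V : Type) [Fintype V] (G : SimpleGraph V) (d B : ℕ) (R : Finset V),
  3 ≤ d → 1 ≤ B → (∀ v, nb G univ v ≤ d) → ∀ u, u ∉ R → ((TT G d B R u).card : ℤ) ≤ kap G B R u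

/-- **SHY** [250], from EEB, CNB, CNC, HNG, ROO, CLO. `Y ∈ Sr a b`, a component of `R - a - b`, a tree with at most `B` vertices, touching `a` and `b`. (1) `insert a Y` is connected and meets the component of `a`.
(2) If `y ∈ Y ∩ CC` then `PP y` is connected, contained in `R - a - b` (ROO (2)), meets `Y`. (3) `z ∈ Y` is in `PP y` for some `y ∈ CC` (ROO); if `y ≠ a, b` then as before `PP y ⊆ Y`, so `y ∈ Y`. If
`y = a`: `z ∈ Z ∈ Sh a`; `Z ⊆ R - a - b` (`b ∈ CC`) is connected, so `Z ⊆ Y`, and `Y`, not containing `a`, is a connected subset of `R - a`, so `Y ⊆ Z`; `Z = Y` touches `b ∈ R - a` and is closed in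
`R - a`, so `b ∈ Z`, contradiction. The same for `y = b`. (4) `z ∈ Y` adjacent to `a`: `z ∈ PP y`, `y ∈ Y ∩ CC`, `y ≠ a`, ROO (3) gives `z = y`. (5) `Y` is closed in `R - a - b`. (6) if `nb CC y ≤ 1`, CLO; but `PP y ⊆ Y` is
a tree (CNC (3)) with at most `B` vertices. (7) `Y_C = Y ∩ CC` is nonempty (3); `ee Y_C Y_C ≤ 2|Y_C| - 2` (CNC (1)); `ee Y_C CC = ee Y_C Y_C + ee Y_C {a,b}` by (5); `ee Y_C CC = ∑ nb CC y ≥ 2|Y_C| + |Y ∩ C3|` by (6). -/
def SpecSHY : Prop := ∀ (V : Type) [Fintype V] (G : SimpleGraph V) (d B : ℕ) (R : Finset V),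
  3 ≤ d → 1 ≤ B → (∀ v, nb G univ v ≤ d) → ∀ a ∈ CC G d B R, ∀ b ∈ CC G d B R, a ≠ b →
  ∀ Y ∈ Sr G B R a b, Y ⊆ Big G d B R ∧
  (∀ y ∈ Y, y ∈ CC G d B R → PP G B R y ⊆ Y) ∧
  (∀ z ∈ Y, ∃ y ∈ Y, y ∈ CC G d B R ∧ z ∈ PP G B R y) ∧
  (∀ z ∈ Y, G.Adj a z ∨ G.Adj b z → z ∈ CC G d B R) ∧
  (∀ y ∈ Y, ∀ w ∈ CC G d B R, G.Adj y w → w ∈ Y ∨ w = a ∨ w = b) ∧
  (∀ y ∈ Y, y ∈ CC G d B R → 2 ≤ nb G (CC G d B R) y) ∧
  2 + (Y ∩ C3 G d B R).card ≤ ee G {a, b} (Y ∩ CC G d B R)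

/-- **TRA** [300], from EEB, CNB, ROO, PRC, SHY. `C = CC`. `c ∈ Y`, so `u` touches `PP c ⊆ Y` and `EE a b ≥ 2` (PRC): `a ~ b`, or there is `Y' ∈ Sr a b`, `Y' ≠ Y` (disjoint from `Y`). Let
`W = {a,b} ∪ (Y ∩ C) ∪ Z`, `Z = ∅` if `a ~ b` and `Z = Y' ∩ C` otherwise. By SHY (5) the neighbours in `C` of the elements of `Y ∩ C` and `Z` are in `W`, so `ee W (C \ W) = ee {a,b} (C \ W)
= 6 - ee {a,b} W ≤ 6 - (3 + 2) = 1` (SHY (7), `c ∈ Y ∩ C3`). `|W| ≤ 2 + 2B`. (*) At most one element `p` of `W` has a neighbour in `C \ W`, and `p ∈ {a,b}`. Suppose `e ∈ TT u`, `e ∉ W`. `c ≁ e` by (*) (`c ≠ a, b` as `Y ⊆ R - a - b`).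
CLAIM: every `X ∈ Sr c e` contains an element `p` as in (*). Proof: `c` has a neighbour `z1 ∈ X`, `e` a neighbour `z2 ∈ X`, both in `C` (SHY (4)); `z1 ∈ W` by (*). If `z2 ∈ W` then `p = z2`. Otherwise let `A` be the union of
the `PP y`, `y ∈ X ∩ C ∩ W` (`A ⊆ X`, SHY (2)); `z1 ∈ A`, `z2 ∉ A` (ROO (2)); `X` is connected: `x ∈ A`, `x' ∈ X \ A` adjacent; `x ∈ PP y`, `y ∈ W`, `x' ∈ PP y'`, `y' ∈ X ∩ C`, `y' ∉ W`; so `x = y`, `x' = y'` (ROO (3)), `p = y`.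
By PRC `EE c e ≥ 1`, so there is `X ∈ Sr c e`, it contains `p ∈ {a,b}`, `u` touches `PP p ⊆ X`, so `EE c e ≥ 2`: there is a second `X' ∈ Sr c e`, which also contains `p`; but `X`, `X'` are disjoint. So `TT u ⊆ W`. -/
def SpecTRA : Prop := ∀ (V : Type) [Fintype V] (G : SimpleGraph V) (d B : ℕ) (R : Finset V),
  3 ≤ d → 1 ≤ B → (∀ v, nb G univ v ≤ d) → MaxR G B R → ∀ u, u ∉ R → kap G B R u = 4 →
  ∀ a ∈ TT G d B R u, ∀ b ∈ TT G d B R u, a ≠ b → ∀ Y ∈ Sr G B R a b, ∀ c ∈ TT G d B R u, c ∈ Y →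
  ∃ W ⊆ CC G d B R, TT G d B R u ⊆ W ∧ W.card ≤ 4 + 12 * B ∧ ee G W (CC G d B R \ W) ≤ 3

/-- **TRB** [300], from EEB, CNB, PRC, TUK, SHY. `T = TT u`, `m = |T|`, `3 ≤ m ≤ 4` (TUK). `W = T ∪ ⋃ (Y ∩ CC)` over all `a ≠ b` in `T` and `Y ∈ Sr a b`. For `a ∈ T`, `b ≠ b'` in `T`, different from `a`, the sets `Y ∈ Sr a b` and
`Y' ∈ Sr a b'` are disjoint: `b' ∉ Y` (hypothesis), so `Y ⊆ R - a - b'` is connected; if it meets `Y'` then `Y ⊆ Y'`, and `b`, adjacent to `Y`, `b ∈ R - a - b'`, is in `Y'`, contradiction to the hypothesis. So the neighbours of `a` in `W`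
include: the `b ∈ T` with `a ~ b` and one in `Y ∩ CC` for every `b ∈ T`, `b ≠ a`, `Y ∈ Sr a b` (SHY (4)), all different: `nb W a ≥ ∑_{b ∈ T, b ≠ a} EE a b ≥ m - 1` (PRC). As `nb CC a = 3`: `nb (CC \ W) a ≤ 4 - m`. The
elements of `Y ∩ CC` have no neighbour in `CC \ W` (SHY (5)). So `ee W (CC \ W) ≤ m (4 - m) ≤ 3`. `∑_b |Sr a b| ≤ nb W a ≤ 3`, so `|W| ≤ 4 + 4 · 3 · B`. -/
def SpecTRB : Prop := ∀ (V : Type) [Fintype V] (G : SimpleGraph V) (d B : ℕ) (R : Finset V),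
  3 ≤ d → 1 ≤ B → (∀ v, nb G univ v ≤ d) → MaxR G B R → ∀ u, u ∉ R → kap G B R u = 4 →
  3 ≤ (TT G d B R u).card →
  (∀ a ∈ TT G d B R u, ∀ b ∈ TT G d B R u, a ≠ b → ∀ Y ∈ Sr G B R a b, ∀ c ∈ TT G d B R u, c ∉ Y) →
  ∃ W ⊆ CC G d B R, TT G d B R u ⊆ W ∧ W.card ≤ 4 + 12 * B ∧ ee G W (CC G d B R \ W) ≤ 3

/-! ## V. The extraction lemma -/

/-- **CUT** [200], from EEB. Let `A, B ⊆ U`. Split `U` into `A \ B`, `B \ A`, `A ∩ B` and the rest. (1), (2): submodularity and posimodularity. (3): with `a = ee (A\B) (A∩B)`, `b = ee (B\A) (A∩B)`, `c = ee (A\B) (B\A)`,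
`o1, o2, o3` the numbers of edges from `A\B`, `B\A`, `A∩B` to the rest: `o1+o3+b+c = 3`, `o2+o3+a+c = 3`, `o1+o2+o3 ≥ 3`, `a+b+o3 ≥ 3`, `a+c+o1 ≥ 3`, `b+c+o2 ≥ 3`: `omega`. (4): disjoint sets. (5): removal of `P` from `U`. -/
def SpecCUT : Prop := ∀ (V : Type) (G : SimpleGraph V) (U A B : Finset V), A ⊆ U → B ⊆ U →
  dd G U (A ∪ B) + dd G U (A ∩ B) ≤ dd G U A + dd G U B ∧
  dd G U (A \ B) + dd G U (B \ A) ≤ dd G U A + dd G U B ∧
  ¬ (dd G U A = 3 ∧ dd G U B = 3 ∧ 3 ≤ dd G U (A ∪ B) ∧ 3 ≤ dd G U (A ∩ B) ∧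
    3 ≤ dd G U (A \ B) ∧ 3 ≤ dd G U (B \ A)) ∧
  (Disjoint A B → dd G U (A ∪ B) + 2 * ee G A B = dd G U A + dd G U B) ∧
  dd G (U \ B) (A \ B) ≤ dd G U A ∧
  (Disjoint A B → dd G (U \ B) A + ee G A B = dd G U A)

/-- **CUK** [200], from EEB. (1) Induction on `k`: there is `X ⊆ P`, `|X| ≤ k`, with at most one edge between `P \ X` and `U \ P` (add an endpoint of an edge); `g` is constant: `some w` if this edge exists and ends in `w ∈ U \ P`,
`none` otherwise. (2) `X` = the vertices of `P` with a neighbour in `U \ P`. (3) keep `X`; replace `g z` by `none` if it is not in `U'`. (4) Let `X`, `g` be for `x`. `s` has exactly two edges to `U \ s`: one, `y0 y1`, to `x`, the other, `z0 z1`, to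
`z1 ∉ x`. Define `g' z = some z1` for `z ∈ s`, and for `z ∈ x \ X`: `g' z = some z1` if `g z = some w` with `w ∈ s`, `g' z = g z` otherwise. Constant along edges: an edge between `s` and `x \ X` is `y0 y1`, and `g y1 = some y0`. -/
def SpecCUK : Prop := ∀ (V : Type) (G : SimpleGraph V) (U : Finset V),
  (∀ (P : Finset V) (k : ℕ), P ⊆ U → dd G U P ≤ k + 1 → ∃ X g, X.card ≤ k ∧ Cut G U P X g) ∧
  (∀ P : Finset V, P ⊆ U → ∃ X, X.card ≤ dd G U P ∧ Cut G U P X (fun _ => none)) ∧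
  (∀ (P U' : Finset V), P ⊆ U' → U' ⊆ U → Light G U P → Light G U' P) ∧
  (∀ s x : Finset V, s ⊆ U → x ⊆ U → Disjoint s x → dd G U s = 2 → ee G s x = 1 → Light G U x →
    Light G U (s ∪ x))

/-- **FAB** [200], from EEB, CUT. Families. All clear from disjointness; the members of `Q \ W` are disjoint from the nonempty set `un W`, so `un W ∉ Q \ W`. For `Q.erase P`: `dd (U \ P) P' ≤ dd U P'` (CUT). -/
def SpecFAB : Prop := ∀ (V : Type) (G : SimpleGraph V) (U : Finset V) (Q : Finset (Finset V)), Fam G U Q →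
  (∀ W ⊆ Q, un W ⊆ U ∧ (W.Nonempty → (un W).Nonempty) ∧
    ∀ W' ⊆ Q, un (W ∪ W') = un W ∪ un W' ∧ un (W ∩ W') = un W ∩ un W' ∧ un (W \ W') = un W \ un W') ∧
  (∀ P ∈ Q, Fam G (U \ P) (Q.erase P) ∧ P ⊆ U ∧ ∀ W ⊆ Q, un (W.erase P) = un W \ P) ∧
  (∀ W ⊆ Q, W.Nonempty → dd G U (un W) ≤ 3 → Fam G U (insert (un W) (Q \ W)) ∧ un W ∉ Q \ W ∧
    (insert (un W) (Q \ W)).card + W.card = Q.card + 1)

/-- **LBM** [250]. (1) `mv` adds to the masses in `U \ P` the masses of those `z ∈ P \ X` with `g z = some y` (`y ∈ U \ P` by `Cut.mem`). (2) the same for a subset. (3) Let `l` be the labelling of `(U \ P) \ D` into `α`. New labels in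
`Option α`: `some (l v)` for `v ∈ (U \ P) \ D`; for `z ∈ P \ X`: `some (l y)` if `g z = some y` with `y ∉ D`, otherwise `none`. An edge inside `P \ X`: `g` is constant. An edge from `z ∈ P \ X` to `w ∈ (U \ P) \ D`:
`g z = some w`. The class `some x`: its mass is the mass (for `mv`) of the class `x` of `l`. The class `none`: at most the mass of `P`. -/
def SpecLBM : Prop := ∀ (V : Type) (G : SimpleGraph V) (U P X : Finset V) (g : V → Option V) (m : V → ℕ),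
  P ⊆ U → Cut G U P X g →
  ∑ v ∈ U \ P, mv P X g m v ≤ ∑ v ∈ U, m v ∧
  (∀ P' ⊆ U \ P, ∑ v ∈ P', mv P X g m v ≤ ∑ v ∈ P', m v + ∑ v ∈ P, m v) ∧
  ∀ (D : Finset V) (M : ℕ), D ⊆ U \ P → ∑ v ∈ P, m v ≤ M → Lab G ((U \ P) \ D) (mv P X g m) M →
    Lab G (U \ (D ∪ X)) m M

/-- **RMP** [200], from CUT, CUK, FAB, LBM. Removal of a part. `c`, `D` from the smaller state; new `c P = 0`, new `D ∪ X` (LBM). `W ⊆ Q`: `W.erase P ⊆ Q.erase P`, `dd (U \ P) (un W \ P) ≤ dd U (un W)` (CUT (5)), light parts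
stay light (CUK (3)). The cardinality: `|D ∪ X| ≤ |D| + |X|`. -/
def SpecRMP : Prop := ∀ (V : Type) (G : SimpleGraph V) (b : ℕ) (ε : ℝ) (M : ℕ) (U : Finset V) (Q : Finset (Finset V))
  (m : V → ℕ) (P X : Finset V) (g : V → Option V), 0 ≤ ε → Fam G U Q → P ∈ Q → Cut G U P X g → ∑ v ∈ P, m v ≤ M →
  (X.card : ℝ) + ε * ∑ v ∈ U \ P, (mv P X g m v : ℝ) ≤ ε * ∑ v ∈ U, (m v : ℝ) →
  Res G b ε M (U \ P) (Q.erase P) (mv P X g m) → Res G b ε M U Q m

/-- **RMF** [300], from EEB, CUT, CUK, FAB, LBM. Removal of `P`, with payment. `dd U P = 3` (hypothesis for `{P}` and `Fam`), so `∑_{P' ≠ P} ee P P' = 3`, and `ee P P' ≤ 1` (otherwise `dd U (P ∪ P') ≤ 3 + 3 - 4 = 2`, CUT (4)). So there are exactly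
three parts `P'` with `ee P P' = 1`; `dd (U \ P) P' = 2` (CUT (6)), so `c P' = 0` in the smaller state. New `c`: `w/4` on `P` and on the three `P'`, `w = 1` if `P` is light (`|X| ≤ 1`), `w = 2` if there is no light part (`|X| ≤ 2`); the others
unchanged. So `∑ c` increases by `w ≥ |X|`. Light parts have `c ≤ 1/4`: if `w = 2` there are none. The conditions for `W`: `dd (un W) ≤ 2` only for `W = ∅`; `W` of light parts with `|W| ≤ b`, `dd ≤ 3` has at most one element. -/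
def SpecRMF : Prop := ∀ (V : Type) (G : SimpleGraph V) (b : ℕ) (ε : ℝ) (M : ℕ) (U : Finset V) (Q : Finset (Finset V))
  (m : V → ℕ) (P X : Finset V) (g : V → Option V), 1 ≤ b → 0 ≤ ε → Fam G U Q → P ∈ Q → Cut G U P X g →
  ∑ v ∈ P, m v ≤ M →
  (∀ W ⊆ Q, W.Nonempty → W.card ≤ 2 * b → 3 ≤ dd G U (un W)) →
  (∀ W ⊆ Q, (∀ P' ∈ W, Light G U P') → 2 ≤ W.card → W.card ≤ b → 4 ≤ dd G U (un W)) →
  ((Light G U P ∧ X.card ≤ 1) ∨ ((∀ P' ∈ Q, ¬ Light G U P') ∧ X.card ≤ 2)) →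
  Res G b ε M (U \ P) (Q.erase P) (mv P X g m) → Res G b ε M U Q m

/-- **MGA** [250], from CUT, CUK, FAB. Merging a family `W0` with `dd ≤ 2` minimal. `c' (un W0) = 0` in the merged state. New `c = 0` on `W0`, the others unchanged; so `∑ c` is the same. `un W0` is light (CUK (1), `k = 1`). Let `W ⊆ Q`, `|W| ≤ b`. If
`W ∩ W0 = ∅` nothing changes. Otherwise `W' = insert (un W0) (W \ W0)`, `|W'| ≤ |W|`, `un W' = un W ∪ un W0` and `dd (un W') ≤ dd (un W) + dd (un W0) - dd (un (W ∩ W0)) ≤ dd (un W)` (CUT (1), minimality), and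
`∑_W c ≤ ∑_{W'} c'`. -/
def SpecMGA : Prop := ∀ (V : Type) (G : SimpleGraph V) (b : ℕ) (ε : ℝ) (M : ℕ) (U : Finset V) (Q : Finset (Finset V))
  (m : V → ℕ) (W0 : Finset (Finset V)), 1 ≤ b → Fam G U Q → W0 ⊆ Q → 2 ≤ W0.card → W0.card ≤ 2 * b →
  dd G U (un W0) ≤ 2 →
  (∀ W ⊆ Q, W.Nonempty → W.card ≤ 2 * b → dd G U (un W0) ≤ dd G U (un W)) →
  Res G b ε M U (insert (un W0) (Q \ W0)) m → Res G b ε M U Q m

/-- **MGB** [300], from CUT, CUK, FAB. Merging a part `s` with two outgoing edges into a neighbour `x`. `P0 = s ∪ x = un {s, x}`, `dd U P0 = dd U x` (CUT (4)); if `x` is light, `P0` is light (CUK (4)). New `c s = 0`, `c x = c' P0`, the others unchanged.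
Let `W ⊆ Q`, `|W| ≤ b`. If `dd (un W) ≤ 2` then `|W| ≤ 1`; `W = {x}`: `c' P0 = 0`. Let `W` consist of light parts, `dd (un W) ≤ 3`. If `s, x ∈ W`: `W' = insert P0 (W \ {s,x})`. If `x ∈ W`, `s ∉ W`: `W' = insert P0 (W.erase x)`,
`dd (un W ∪ s) = dd (un W) + 2 - 2 ee (un W) s ≤ dd (un W)`. If `s ∈ W`, `x ∉ W`: `W' = W.erase s`, `dd (un W) = dd (un W') + 2 - 2 ee (un W') s` and `ee (un W') s ≤ 1` as one of the two edges of `s` goes to `x`. In each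
case `W'` consists of light parts of the merged state, `|W'| ≤ |W|`, `dd (un W') ≤ 3`, `∑_W c = ∑_{W'} c' ≤ 1/2`. -/
def SpecMGB : Prop := ∀ (V : Type) (G : SimpleGraph V) (b : ℕ) (ε : ℝ) (M : ℕ) (U : Finset V) (Q : Finset (Finset V))
  (m : V → ℕ) (s x : Finset V), 1 ≤ b → Fam G U Q → s ∈ Q → x ∈ Q → s ≠ x → dd G U s = 2 → ee G s x = 1 →
  (∀ W ⊆ Q, 2 ≤ W.card → W.card ≤ 2 * b → 3 ≤ dd G U (un W)) →
  Res G b ε M U (insert (s ∪ x) ((Q.erase s).erase x)) m → Res G b ε M U Q m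

/-- **MGC** [250], from CUT, FAB. Merging a maximal family `W0` of light parts with `dd = 3`. New `c P = c' (un W0) / |W0| ≤ 1/4` for `P ∈ W0`, the others unchanged; `∑ c` is the same. `W ⊆ Q` with `dd (un W) ≤ 2`, `|W| ≤ b` is empty. Let `W` consist of light parts,
`|W| ≤ b`, `W ≠ ∅`, `dd (un W) ≤ 3`, so `= 3`. If `W ∩ W0 = ∅` nothing changes. If `W ⊆ W0` then `∑_W c ≤ c' (un W0) ≤ 1/2`. If `W0 ⊂ W`: contradiction to the maximality. Otherwise the four families `W ∪ W0`, `W ∩ W0`, `W \ W0`, `W0 \ W` are nonempty,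
with at most `2b` members, so their `dd` is at least `3`: contradiction to CUT (3). -/
def SpecMGC : Prop := ∀ (V : Type) (G : SimpleGraph V) (b : ℕ) (ε : ℝ) (M : ℕ) (U : Finset V) (Q : Finset (Finset V))
  (m : V → ℕ) (W0 : Finset (Finset V)), Fam G U Q → W0 ⊆ Q → 2 ≤ W0.card → W0.card ≤ b →
  (∀ P ∈ W0, Light G U P) → dd G U (un W0) = 3 →
  (∀ W ⊆ Q, (∀ P ∈ W, Light G U P) → W.card ≤ b → dd G U (un W) = 3 → W.card ≤ W0.card) →
  (∀ W ⊆ Q, W.Nonempty → W.card ≤ 2 * b → 3 ≤ dd G U (un W)) →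
  Res G b ε M U (insert (un W0) (Q \ W0)) m → Res G b ε M U Q m

/-- **STA** [250], from EEB, CUT, CUK, FAB, LBM, RMP, RMF, MGA, MGB, MGC. Strong induction on `|Q|`. `Q = ∅`: `U = ∅`, trivial. (H) some `P` has mass `> N`: CUK (2) (`|X| ≤ 3`, `g = none`, `mv = m`), `3 ≤ ε N`, RMP. Otherwise all masses are `≤ N`, so all merged
parts below have mass `≤ 2bN` and after `mv` the masses are `≤ 2N`. Let `δ` be the minimum of `dd (un W)`, `∅ ≠ W ⊆ Q`, `|W| ≤ 2b`. If `δ ≤ 2`: if it is attained by `W0` with `|W0| ≥ 2`: MGA. Otherwise it is attained by `{s}` and `dd (un W) ≥ δ+1` for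
`2 ≤ |W| ≤ 2b`. If `δ ≤ 1`: CUK (1) with `k = 0`, RMP (`X = ∅`). If `δ = 2`: some `x ≠ s` in `Q` has `ee s x ≥ 1`, and `ee s x = 2` would give `dd (s ∪ x) ≤ 1`; so `ee s x = 1`, MGB (`{s,x}` is a `Fam`-merge: `dd (s ∪ x) = dd x ≤ 3`).
If `δ ≥ 3`: if there is a family of light parts with `2 ≤ |W| ≤ b`, `dd = 3`: take a maximal one, MGC. Otherwise RMF with a light `P` (if there is one) or any `P` (CUK (1) with `k = 2`). -/
def SpecSTA : Prop := ∀ (V : Type) (G : SimpleGraph V) (b N : ℕ) (ε : ℝ), 1 ≤ b → 0 < ε → 3 ≤ ε * N →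
  ∀ (U : Finset V) (Q : Finset (Finset V)) (m : V → ℕ), Fam G U Q → (∀ P ∈ Q, ∑ v ∈ P, m v ≤ 2 * b * N) →
  Res G b ε (2 * b * N) U Q m

/-- **TOP** [150], from EEB, STA. `N = max ⌈3/ε⌉ M0`, `Q` = the singletons of `U` (light, `X = {v}`; `dd U {v} = nb U v`). `c v = c {v}`. A set `W ⊆ U` corresponds to the family of its singletons. -/
def SpecTOP : Prop := ∀ (b M0 : ℕ) (ε : ℝ), 1 ≤ b → 0 < ε → ∃ M : ℕ, ∀ (V : Type) (G : SimpleGraph V)
  (U : Finset V) (m : V → ℕ), (∀ v ∈ U, nb G U v ≤ 3) → (∀ v ∈ U, m v ≤ M0) →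
  ∃ (c : V → ℝ) (D : Finset V), D ⊆ U ∧ (∀ v, 0 ≤ c v ∧ c v ≤ 1 / 4) ∧
    (∀ v, (v ∈ U → nb G U v ≤ 2) → c v = 0) ∧
    (∀ W ⊆ U, W.card ≤ b → ee G W (U \ W) ≤ 3 → ∑ v ∈ W, c v ≤ 1 / 2) ∧
    (D.card : ℝ) ≤ ∑ v ∈ U, c v + ε * ∑ v ∈ U, (m v : ℝ) ∧ Lab G (U \ D) m M

/-! ## VI. Assembly -/

/-- **EXT** [150], from EEB, HNG, ROO, COR, TRA, TRB, TOP. TOP with `b = 4 + 12B`, `M0 = dB + 1`, `U = CC`, `m a = |PP a|` (`∑ m ≤ |R|` by disjointness, ROO; `|PP a| ≤ dB+1`, HNG). `nb CC a ≤ 3` (COR); `a ∉ C3` means `a ∉ CC` or `nb CC a ≤ 2`. The condition for `u`: TRA or TRB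
give `W`, and `∑_{TT u} c ≤ ∑_W c ≤ 1/2`. -/
def SpecEXT : Prop := ∀ (d B : ℕ) (ε : ℝ), 3 ≤ d → 1 ≤ B → 0 < ε → ∃ M : ℕ, ∀ (V : Type) [Fintype V] (G : SimpleGraph V),
  (∀ v, nb G univ v ≤ d) → ∀ R, MaxR G B R → ∃ (c : V → ℝ) (D : Finset V), D ⊆ CC G d B R ∧
    (∀ a, 0 ≤ c a ∧ c a ≤ 1 / 4) ∧ (∀ a, a ∉ C3 G d B R → c a = 0) ∧
    (∀ u, u ∉ R → kap G B R u = 4 → 3 ≤ (TT G d B R u).card → ∑ a ∈ TT G d B R u, c a ≤ 1 / 2) ∧
    (D.card : ℝ) ≤ ∑ a ∈ C3 G d B R, c a + ε * (R.card : ℝ) ∧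
    Lab G (CC G d B R \ D) (fun a => (PP G B R a).card) M

/-- **FRS** [250], from CNB, HNG, ROO. Labels for `z ∈ R \ D`: if `z ∈ Big`, `z ∈ PP a`, `a ∈ CC` (unique): the label of `a` if `a ∉ D`, and `a` itself (a separate label) if `a ∈ D` (then `z ∈ hg a`, at most `dB` vertices); if `z ∉ Big`: its component (at most
`dB+1` vertices). Edges: both ends in `Big` or both not (HNG (6) and (5)); ends in the same `PP a`: clear; in different ones: ROO (3), the edge joins `a, b ∈ CC \ D`. -/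
def SpecFRS : Prop := ∀ (V : Type) [Fintype V] (G : SimpleGraph V) (d B M : ℕ) (R D : Finset V),
  3 ≤ d → 1 ≤ B → (∀ v, nb G univ v ≤ d) → D ⊆ CC G d B R →
  Lab G (CC G d B R \ D) (fun a => (PP G B R a).card) M → Frag G (R \ D) (M + d * B + 1)

/-- **WPU** [120], from NUM. `r = rr d`, `δ = 1/4 - r > 0`, `q = d - 3`. If `κ = 4`: the right side is `2δ/q`. If `|T| ≤ 2` each term is `≤ δ/q`. If `|T| ≥ 3`: `max (c - r) 0 ≤ 4 δ c` for `0 ≤ c ≤ 1/4`, so the sum is `≤ 4δ (1/2)/q`. If `κ ≥ 5`: the sum is `≤ κ δ/q` and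
`r κ - lam = (κ-4) r + 2δ/q`; needed: `(κ-2) δ ≤ (κ-4) r q`; as `κ - 2 ≤ 3 (κ-4)` it suffices that `3 δ ≤ r q`, i.e. `3/4 ≤ r d`. -/
def SpecWPU : Prop := ∀ d : ℕ, 5 ≤ d → ∀ (V : Type) (T : Finset V) (c : V → ℝ) (k : ℤ), 4 ≤ k → (T.card : ℤ) ≤ k →
  (∀ a ∈ T, 0 ≤ c a ∧ c a ≤ 1 / 4) → (k = 4 → 3 ≤ T.card → ∑ a ∈ T, c a ≤ 1 / 2) →
  ∑ a ∈ T, max (c a - rr d) 0 / ((d : ℝ) - 3) ≤ rr d * k - lam d

/-- **WSM** [250], from NUM, EEB, MXK, COR, CNT, TUK, WPU. `r = rr d`, `n = |V|`. Let `S1 = ∑_{a ∈ C3} (c a - r)`. `S1 ≤ ∑_{a ∈ C3} max (c a - r) 0 ≤ ∑_{u ∉ R} ∑_{a ∈ TT u} max (c a - r) 0/(d-3)`: every `a ∈ C3` is in `TT u` for at least `d - 3` elements `u ∉ R` (COR: some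
`v ∈ PP a` has `nb R v ≤ 3`, regularity). By WPU (with MXK, TUK) the right side is `≤ r ∑ κ_u - lam (n - |R|)`, and by CNT `∑ κ_u ≤ (d-2)|R| - |C3| + 2|R|/B`. With `r (d-2) = 1 - lam`: `∑_{C3} c ≤ |R| - lam n + 2 r |R|/B`. -/
def SpecWSM : Prop := ∀ (V : Type) [Fintype V] (G : SimpleGraph V) (d B : ℕ) (R : Finset V) (c : V → ℝ),
  5 ≤ d → 1 ≤ B → (∀ v, nb G univ v = d) → MaxR G B R →
  (∀ a, 0 ≤ c a ∧ c a ≤ 1 / 4) →
  (∀ u, u ∉ R → kap G B R u = 4 → 3 ≤ (TT G d B R u).card → ∑ a ∈ TT G d B R u, c a ≤ 1 / 2) →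
  lam d * (Fintype.card V : ℝ) + ∑ a ∈ C3 G d B R, c a ≤ R.card + 2 * rr d * R.card / B

/-- **UBR** [120], from NUM, MXK, EXT, FRS, WSM. The regular case: `B ≥ 4 rr d/ε`, EXT with `ε/2`; `S = R \ D`, `|S| = |R| - |D| ≥ lam n - 2 rr |R|/B - (ε/2)|R|`. -/
def SpecUBR : Prop := ∀ d : ℕ, 5 ≤ d → ∀ ε : ℝ, 0 < ε → ∃ C : ℕ, ∀ (V : Type) [Fintype V] (G : SimpleGraph V),
  (∀ v, nb G univ v = d) → ∃ S : Finset V, Frag G S C ∧ (lam d - ε) * (Fintype.card V : ℝ) ≤ (S.card : ℝ)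

/-- **REG** [200]. Regularization. `I = Fin d → ZMod 2`, `k v = d - nb univ v`. On `V × I`: `(v,i) ~ (w,j)` iff `v ~ w` and `i = j`, or `v = w` and `j = i + e_t` for some `t < k v`. Every vertex has degree `nb univ v + k v = d`. Take `S'` for it;
the slices `S_i = {v : (v,i) ∈ S'}` have `∑ |S_i| = |S'| ≥ μ |V| |I|`, so some `|S_i| ≥ μ |V|`; labels `l (v,i)`. -/
def SpecREG : Prop := ∀ (d C : ℕ) (μ : ℝ),
  (∀ (V : Type) [Fintype V] (G : SimpleGraph V), (∀ v, nb G univ v = d) →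
    ∃ S : Finset V, Frag G S C ∧ μ * (Fintype.card V : ℝ) ≤ (S.card : ℝ)) →
  ∀ (V : Type) [Fintype V] (G : SimpleGraph V), (∀ v, nb G univ v ≤ d) →
    ∃ S : Finset V, Frag G S C ∧ μ * (Fintype.card V : ℝ) ≤ (S.card : ℝ)

/-- **FIN** [120], from NUM, UBR, REG. As in CF/UPP.lean and CF/MAI.lean: the complement of `S`; the vertices of a connected component of `G - X` have the same label. -/
def SpecFIN : Prop := MainUB

end Pool.Agent.Lib.MP4d044e.UB
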